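import Pool.Agent.H932.W.Good2

/-!
# The curve of the lines of maximal gap which meet a given line in the given direction
-/

open MvPolynomial H960VB H960VB.Bundle2 Y208PT Pool.Agent.H106R3.VB

namespace H932W

/-- coordinates on the space of the pairs (point of the line, line through the point) -/
abbrev Pt (m : ℕ) : Type := Fin 2 ⊕ Fin (m + 1)

variable {m : ℕ}

/-- the point -/
def xh (v : Pt m → ℂ) : Fin (m + 2) → ℂ := Fin.cons (v (Sum.inl 0)) (Fin.cons (v (Sum.inl 1)) 0)

/-- the second point of the line, in two charts -/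
def ww (i : Fin 2) (v : Pt m → ℂ) : Fin (m + 2) → ℂ :=
  if i = 0 then Fin.cons 0 (Fin.cons (v (Sum.inr 0)) (fun k => v (Sum.inl 0) * v (Sum.inr k.succ)))
  else Fin.cons (-v (Sum.inr 0)) (Fin.cons 0 (fun k => v (Sum.inl 1) * v (Sum.inr k.succ)))

/-- first weight -/
def wt1 (m : ℕ) : Pt m → ℕ := Sum.elim (fun _ => 1) (Fin.cons 1 (fun _ => 0))

/-- second weight -/
def wt2 (m : ℕ) : Pt m → ℕ := Sum.elim (fun _ => 0) (fun _ => 1)

theorem xh_wt1 (t : ℂ) (v : Pt m → ℂ) : xh (fun i => t ^ wt1 m i * v i) = t • xh v := by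
  ext i
  refine Fin.cases ?_ (fun i => ?_) i
  · simp [xh, wt1]
  · refine Fin.cases ?_ (fun i => ?_) i
    · simp [xh, wt1]
    · simp [xh]

theorem ww_wt1 (i : Fin 2) (t : ℂ) (v : Pt m → ℂ) :
    ww i (fun i => t ^ wt1 m i * v i) = t • ww i v := by
  unfold ww
  split_ifs
  · ext i
    refine Fin.cases ?_ (fun i => ?_) i
    · simp
    · refine Fin.cases ?_ (fun i => ?_) i
      · simp [wt1]
      · simp [wt1]
        ring
  · ext i
    refine Fin.cases ?_ (fun i => ?_) i
    · simp [wt1]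
    · refine Fin.cases ?_ (fun i => ?_) i
      · simp
      · simp [wt1]
        ring

theorem xh_wt2 (t : ℂ) (v : Pt m → ℂ) : xh (fun i => t ^ wt2 m i * v i) = xh v := by
  ext i
  refine Fin.cases ?_ (fun i => ?_) i
  · simp [xh, wt2]
  · refine Fin.cases ?_ (fun i => ?_) i
    · simp [xh, wt2]
    · simp [xh]

theorem ww_wt2 (i : Fin 2) (t : ℂ) (v : Pt m → ℂ) :
    ww i (fun i => t ^ wt2 m i * v i) = t • ww i v := by
  unfold ww
  split_ifs
  · ext i
    refine Fin.cases ?_ (fun i => ?_) i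
    · simp
    · refine Fin.cases ?_ (fun i => ?_) i
      · simp [wt2]
      · simp [wt2]
        ring
  · ext i
    refine Fin.cases ?_ (fun i => ?_) i
    · simp [wt2]
    · refine Fin.cases ?_ (fun i => ?_) i
      · simp
      · simp [wt2]
        ring

theorem ww_rel (v : Pt m → ℂ) :
    v (Sum.inl 1) • ww 0 v = v (Sum.inl 0) • ww 1 v + v (Sum.inr 0) • xh v := by
  ext i
  refine Fin.cases ?_ (fun i => ?_) i
  · simp [xh, ww]
    ring
  · refine Fin.cases ?_ (fun i => ?_) i
    · simp [xh, ww]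
      ring
    · simp [xh, ww]
      ring

theorem li_pt (v : Pt m → ℂ) (i : Fin 2) (hi : v (Sum.inl i) ≠ 0) (k : Fin (m + 1))
    (hk : v (Sum.inr k) ≠ 0) : LinearIndependent ℂ ![xh v, ww i v] := by
  fin_cases i
  · refine Fin.cases (fun hk => ?_) (fun k hk => ?_) k hk
    · refine li_of_minor (i := 0) (k := Fin.succ 0) ?_
      simp only [xh, ww]
      simpa using ⟨hi, hk⟩
    · refine li_of_minor (i := 0) (k := k.succ.succ) ?_
      simp only [xh, ww]
      simpa using ⟨hi, hk⟩
  · refine Fin.cases (fun hk => ?_) (fun k hk => ?_) k hk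
    · refine li_of_minor (i := 0) (k := Fin.succ 0) ?_
      simp only [xh, ww]
      simpa using ⟨hi, hk⟩
    · refine li_of_minor (i := Fin.succ 0) (k := k.succ.succ) ?_
      simp only [xh, ww]
      simpa using ⟨hi, hk⟩

/-- substitution -/
noncomputable def th (i : Fin 2) : MvPolynomial (V2 (m + 1)) ℂ →ₐ[ℂ] MvPolynomial (Pt m) ℂ :=
  aeval (Sum.elim (Fin.cons (X (Sum.inl 0)) (Fin.cons (X (Sum.inl 1)) 0))
    (if i = 0 then Fin.cons 0 (Fin.cons (X (Sum.inr 0))
      (fun k => X (Sum.inl 0) * X (Sum.inr k.succ)))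
    else Fin.cons (-X (Sum.inr 0)) (Fin.cons 0 (fun k => X (Sum.inl 1) * X (Sum.inr k.succ)))))

theorem eval_th (i : Fin 2) (v : Pt m → ℂ) (p : MvPolynomial (V2 (m + 1)) ℂ) :
    eval v (th i p) = eval (Sum.elim (xh v) (ww i v)) p := by
  unfold th
  rw [eval_aeval_mv]
  congr 1
  congr 1
  funext l
  rcases l with l | l
  · refine Fin.cases ?_ (fun l => ?_) l
    · simp [xh]
    · refine Fin.cases ?_ (fun l => ?_) l
      · simp [xh]
      · simp [xh]
  · unfold ww
    simp only [Sum.elim_inr]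
    split_ifs
    · refine Fin.cases ?_ (fun l => ?_) l
      · simp
      · refine Fin.cases ?_ (fun l => ?_) l
        · simp
        · simp
    · refine Fin.cases ?_ (fun l => ?_) l
      · simp
      · refine Fin.cases ?_ (fun l => ?_) l
        · simp
        · simp

end H932W
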