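import Pool.Agent.H932.W.HomW
import Pool.Graph.R_seed8.H960R2.VB.TaskL2

/-!
# Functions which are locally fractions of polynomials
-/

open MvPolynomial

namespace H932W

/-- a nowhere vanishing regular function on the affine line is constant -/
theorem reg_line (h : ℂ → ℂ) (hne : ∀ s, h s ≠ 0)
    (hloc : ∀ s₀, ∃ D N : Polynomial ℂ, D.eval s₀ ≠ 0 ∧ ∀ s, h s * D.eval s = N.eval s) :
    ∀ s s', h s = h s' := by
  let T : Ideal (Polynomial ℂ) :=
    { carrier := {p | ∃ Q : Polynomial ℂ, ∀ s, h s * p.eval s = Q.eval s}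
      add_mem' := by
        rintro p q ⟨P, hP⟩ ⟨Q, hQ⟩
        refine ⟨P + Q, fun s => ?_⟩
        rw [Polynomial.eval_add, mul_add, hP, hQ, Polynomial.eval_add]
      zero_mem' := ⟨0, fun s => by simp⟩
      smul_mem' := by
        rintro c p ⟨P, hP⟩
        refine ⟨c * P, fun s => ?_⟩
        rw [smul_eq_mul, Polynomial.eval_mul, Polynomial.eval_mul, ← hP]
        ring }
  have hT : (1 : Polynomial ℂ) ∈ T := by
    have hg : Submodule.IsPrincipal T := IsPrincipalIdealRing.principal T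
    obtain ⟨g, hg⟩ := hg
    by_cases hd : g.degree = 0
    · have h1 : IsUnit g := by rwa [Polynomial.isUnit_iff_degree_eq_zero]
      obtain ⟨u, hu⟩ := h1
      rw [hg]
      rw [Submodule.mem_span_singleton]
      exact ⟨((u⁻¹ : (Polynomial ℂ)ˣ) : Polynomial ℂ), by rw [← hu]; simp⟩
    · obtain ⟨s₀, hs₀⟩ := IsAlgClosed.exists_root g hd
      obtain ⟨D, N, hD, hDN⟩ := hloc s₀
      have h1 : D ∈ T := ⟨N, hDN⟩
      rw [hg, Submodule.mem_span_singleton] at h1
      obtain ⟨c, hc⟩ := h1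
      exfalso
      apply hD
      rw [← hc, smul_eq_mul, Polynomial.eval_mul, hs₀.eq_zero, mul_zero]
  obtain ⟨Q, hQ⟩ := hT
  have h1 : ∀ s, Q.eval s = h s := fun s => by rw [← hQ]; simp
  obtain ⟨c, hc⟩ := H960VB.L2.const_of_nonvanishing Q (fun s => by rw [h1]; exact hne s)
  intro s s'
  rw [← h1, ← h1, hc, hc]

variable {σ : Type}

/-- the weight of an exponent -/
def ws [Fintype σ] (wt : σ → ℕ) (u : σ →₀ ℕ) : ℕ := ∑ i, u i * wt i

theorem Ph_monomial [Fintype σ] (wt : σ → ℕ) (u : σ →₀ ℕ) (a : ℂ) :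
    Ph wt (monomial u a) = Polynomial.C (monomial u a) * Polynomial.X ^ ws wt u := by
  classical
  rw [Ph, aeval_monomial, Finsupp.prod_fintype _ _ (by intro i; simp)]
  simp only [mul_pow, ← pow_mul]
  rw [Finset.prod_mul_distrib, Finset.prod_pow_eq_pow_sum, ← mul_assoc]
  have h1 : ∑ i, wt i * u i = ws wt u := by
    unfold ws
    exact Finset.sum_congr rfl fun i _ => mul_comm _ _
  rw [h1]
  congr 1
  rw [monomial_eq, Finsupp.prod_fintype _ _ (by intro i; simp), map_mul, map_prod]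
  simp only [map_pow]
  rfl

theorem coeff_Ph [Fintype σ] (wt : σ → ℕ) (f : MvPolynomial σ ℂ) (k : ℕ) (u : σ →₀ ℕ) :
    coeff u ((Ph wt f).coeff k) = if ws wt u = k then coeff u f else 0 := by
  classical
  induction f using MvPolynomial.induction_on' with
  | monomial v a =>
    rw [Ph_monomial, Polynomial.coeff_C_mul_X_pow, coeff_monomial]
    by_cases h1 : v = u
    · subst h1
      rw [if_pos rfl]
      by_cases h2 : k = ws wt v
      · rw [if_pos h2, if_pos h2.symm, coeff_monomial, if_pos rfl]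
      · rw [if_neg h2, if_neg (fun h => h2 h.symm), coeff_zero]
    · rw [if_neg h1]
      have h3 : coeff u (monomial v a) = 0 := by rw [coeff_monomial, if_neg h1]
      split_ifs
      · exact h3
      · exact h3
      · exact coeff_zero u
      · exact coeff_zero u
  | add p q hp hq =>
    rw [map_add, Polynomial.coeff_add, coeff_add, hp, hq, coeff_add]
    split_ifs <;> simp

theorem eval_coeff_Ph (wt : σ → ℕ) (f : MvPolynomial σ ℂ) (k : ℕ) (x : σ → ℂ)
    (h : ∀ t : ℂ, t ≠ 0 → eval (fun i => t ^ wt i * x i) f = t ^ k * eval x f) :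
    eval x ((Ph wt f).coeff k) = eval x f := by
  have h1 : (Ph wt f).map (MvPolynomial.eval x) =
      Polynomial.C (eval x f) * Polynomial.X ^ k := by
    apply Polynomial.eq_of_infinite_eval_eq
    apply Set.Infinite.mono (s := {t : ℂ | t ≠ 0})
    · intro t ht
      change Polynomial.eval t _ = Polynomial.eval t _
      rw [Ph_eval, h t ht]
      simp only [Polynomial.eval_mul, Polynomial.eval_pow, Polynomial.eval_C, Polynomial.eval_X]
      ring
    · exact (Set.finite_singleton (0 : ℂ)).infinite_compl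
  have h2 := congrArg (fun q => Polynomial.coeff q k) h1
  simpa using h2

/-- **Finiteness of the values of a regular function on a projective scheme** (for two gradings). -/
theorem fin_val [Fintype σ] (wt₁ wt₂ : σ → ℕ) (hwt : ∀ i, 0 < wt₁ i + wt₂ i)
    (S : Set (σ → ℂ)) (φ : (σ → ℂ) → ℂ)
    (hS₁ : ∀ x ∈ S, ∀ t : ℂ, t ≠ 0 → (fun i => t ^ wt₁ i * x i) ∈ S ∧
      φ (fun i => t ^ wt₁ i * x i) = φ x)
    (hS₂ : ∀ x ∈ S, ∀ t : ℂ, t ≠ 0 → (fun i => t ^ wt₂ i * x i) ∈ S ∧
      φ (fun i => t ^ wt₂ i * x i) = φ x)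
    (d e : ℕ)
    (hT : ∀ u : σ →₀ ℕ, ws wt₁ u = d → ws wt₂ u = e →
      ∃ Q : MvPolynomial σ ℂ, ∀ x ∈ S, φ x * eval x (monomial u 1) = eval x Q)
    (hne : ∀ x ∈ S, ∃ u : σ →₀ ℕ, ws wt₁ u = d ∧ ws wt₂ u = e ∧ eval x (monomial u 1) ≠ 0) :
    (φ '' S).Finite := by
  classical
  -- the finite set of exponents
  have hfin : {u : σ →₀ ℕ | ws wt₁ u = d ∧ ws wt₂ u = e}.Finite := by
    refine Set.Finite.subset (s := {u : σ →₀ ℕ | ∀ i, u i ≤ d + e}) ?_ ?_
    · have h1 : {u : σ →₀ ℕ | ∀ i, u i ≤ d + e} =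
          (Finsupp.equivFunOnFinite : (σ →₀ ℕ) ≃ (σ → ℕ)) ⁻¹' (Set.Iic fun _ => d + e) := by
        ext u
        simp [Pi.le_def]
      rw [h1]
      exact (Set.finite_Iic _).preimage (Equiv.injective _).injOn
    · rintro u ⟨h1, h2⟩ i
      have h3 : u i * wt₁ i ≤ d := by
        rw [← h1]
        exact Finset.single_le_sum (f := fun i => u i * wt₁ i) (fun _ _ => Nat.zero_le _)
          (Finset.mem_univ i)
      have h4 : u i * wt₂ i ≤ e := by
        rw [← h2]
        exact Finset.single_le_sum (f := fun i => u i * wt₂ i) (fun _ _ => Nat.zero_le _)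
          (Finset.mem_univ i)
      have h5 : u i * 1 ≤ u i * (wt₁ i + wt₂ i) := Nat.mul_le_mul_left _ (hwt i)
      rw [mul_add] at h5
      omega
  let Mo := hfin.toFinset
  have hMo : ∀ u, u ∈ Mo ↔ (ws wt₁ u = d ∧ ws wt₂ u = e) := by
    intro u
    simp [Mo]
  choose! Q hQ using hT
  -- make the polynomials homogeneous
  have hev : ∀ (wt : σ → ℕ) (u : σ →₀ ℕ) (t : ℂ) (x : σ → ℂ),
      eval (fun i => t ^ wt i * x i) (monomial u (1 : ℂ)) = t ^ ws wt u * eval x (monomial u 1) := by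
    intro wt u t x
    rw [← Ph_eval, Ph_monomial]
    simp only [Polynomial.map_mul, Polynomial.map_pow, Polynomial.map_C, Polynomial.map_X,
      Polynomial.eval_mul, Polynomial.eval_pow, Polynomial.eval_C, Polynomial.eval_X]
    ring
  let Q₁ : (σ →₀ ℕ) → MvPolynomial σ ℂ := fun u => (Ph wt₁ (Q u)).coeff d
  let Q₂ : (σ →₀ ℕ) → MvPolynomial σ ℂ := fun u => (Ph wt₂ (Q₁ u)).coeff e
  have hQ₁ : ∀ u ∈ Mo, ∀ x ∈ S, φ x * eval x (monomial u 1) = eval x (Q₁ u) := by
    intro u hu x hx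
    obtain ⟨h1, h2⟩ := (hMo u).1 hu
    rw [eval_coeff_Ph]
    · exact hQ u h1 h2 x hx
    · intro t ht
      obtain ⟨h3, h4⟩ := hS₁ x hx t ht
      rw [← hQ u h1 h2 _ h3, ← hQ u h1 h2 x hx, h4, hev, h1]
      ring
  have hQ₂ : ∀ u ∈ Mo, ∀ x ∈ S, φ x * eval x (monomial u 1) = eval x (Q₂ u) := by
    intro u hu x hx
    obtain ⟨h1, h2⟩ := (hMo u).1 hu
    rw [eval_coeff_Ph]
    · exact hQ₁ u hu x hx
    · intro t ht
      obtain ⟨h3, h4⟩ := hS₂ x hx t ht
      rw [← hQ₁ u hu _ h3, ← hQ₁ u hu x hx, h4, hev, h2]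
      ring
  have hsupp : ∀ u, ∀ v ∈ (Q₂ u).support, v ∈ Mo := by
    intro u v hv
    rw [mem_support_iff, coeff_Ph] at hv
    rw [hMo]
    by_cases h2 : ws wt₂ v = e
    · rw [if_pos h2, coeff_Ph] at hv
      by_cases h1 : ws wt₁ v = d
      · exact ⟨h1, h2⟩
      · rw [if_neg h1] at hv
        exact absurd rfl hv
    · rw [if_neg h2] at hv
      exact absurd rfl hv
  -- the matrix
  let A : Matrix Mo Mo ℂ := fun u v => coeff (v : σ →₀ ℕ) (Q₂ u)
  refine Set.Finite.subset (Module.End.finite_hasEigenvalue (Matrix.toLin' A)) ?_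
  rintro _ ⟨x, hx, rfl⟩
  let vec : Mo → ℂ := fun v => eval x (monomial (v : σ →₀ ℕ) 1)
  have hvec : vec ≠ 0 := by
    obtain ⟨u, h1, h2, h3⟩ := hne x hx
    intro h0
    exact h3 (congrFun h0 ⟨u, (hMo u).2 ⟨h1, h2⟩⟩)
  refine Module.End.hasEigenvalue_of_hasEigenvector (x := vec) ⟨?_, hvec⟩
  rw [Module.End.mem_eigenspace_iff, Matrix.toLin'_apply]
  funext u
  simp only [Matrix.mulVec, dotProduct, Pi.smul_apply, smul_eq_mul, vec, A]
  rw [hQ₂ u u.2 x hx]
  have h5 : eval x (Q₂ u) = ∑ v ∈ Mo, coeff v (Q₂ u) * eval x (monomial v 1) := by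
    conv_lhs => rw [← support_sum_monomial_coeff (Q₂ u)]
    rw [map_sum]
    rw [Finset.sum_subset (hsupp u)]
    · refine Finset.sum_congr rfl fun v _ => ?_
      rw [eval_monomial, eval_monomial, one_mul]
    · intro v _ hv
      rw [notMem_support_iff.1 hv]
      simp
  rw [h5]
  exact (Finset.sum_coe_sort Mo (fun v => coeff v (Q₂ u) * eval x (monomial v 1)))

end H932W
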