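import Pool.Agent.H932.W.Lin1
import Pool.Agent.H932.V.Level

/-!
# Gaps one and three: the leading Plücker coordinates
-/

open MvPolynomial H960VB H960VB.Bundle2 Y208PT Pool.Agent.H106R3.VB H932V

namespace H932W

variable {n : ℕ}

theorem exists_minor_ne {I : Type} {u v : I → ℂ} (h : LinearIndependent ℂ ![u, v]) :
    ∃ i k, u i * v k - u k * v i ≠ 0 := by
  by_contra hcon
  push Not at hcon
  obtain ⟨i, hi⟩ := Function.ne_iff.1 (h.ne_zero 0 : ![u, v] 0 ≠ 0)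
  simp only [Matrix.cons_val_zero, Pi.zero_apply] at hi
  rw [LinearIndependent.pair_iff] at h
  have h1 := h (-(v i)) (u i) (by
    ext k
    have := hcon i k
    simp only [Pi.add_apply, Pi.smul_apply, smul_eq_mul, Pi.zero_apply]
    linear_combination this)
  exact hi h1.2

section

variable {E : Bundle2 n} {j : ℤ} (K : Plk E j 3)

/-- the Plücker coordinates with the orders `(0, 0, 1)` -/
noncomputable def PI (i1 i2 i3 : Fin E.a) : MvPolynomial (V2 n) ℂ :=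
  if h : 0 < (E.β i1 + j + 1).toNat ∧ 0 < (E.β i2 + j + 1).toNat ∧ 1 < (E.β i3 + j + 1).toNat then
    K.pi ![⟨i1, ⟨0, h.1⟩⟩, ⟨i2, ⟨0, h.2.1⟩⟩, ⟨i3, ⟨1, h.2.2⟩⟩] else 0

theorem PI_homY (i1 i2 i3 : Fin E.a) :
    HomW (wtY n) (PI K i1 i2 i3) (E.β i1 + E.β i2 + E.β i3 + 3 * j - 1 - K.d1) := by
  unfold PI
  split_ifs with h
  · refine (K.homY _).cast ?_
    rw [Fin.sum_univ_three]
    simp
    ring
  · exact HomW.zero _ _

theorem PI_homW (i1 i2 i3 : Fin E.a) : HomW (wtW n) (PI K i1 i2 i3) (1 - K.d2) := by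
  unfold PI
  split_ifs with h
  · refine (K.homW _).cast ?_
    rw [Fin.sum_univ_three]
    simp
  · exact HomW.zero _ _

theorem PI_wed {y w : Fin (n + 1) → ℂ} (h : LinearIndependent ℂ ![y, w])
    (u : Fin 3 → Idx E.β j → ℂ) (hu : ∀ s, Kr E j y w (u s)) :
    ∃ κ : ℂ, (∀ J, Wd u J = κ * eval (Sum.elim y w) (K.pi J)) ∧ ∀ i1 i2 i3,
      Matrix.det !![E.cf (u 0) 0 i1, E.cf (u 0) 0 i2, E.cf (u 0) 1 i3;
        E.cf (u 1) 0 i1, E.cf (u 1) 0 i2, E.cf (u 1) 1 i3;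
        E.cf (u 2) 0 i1, E.cf (u 2) 0 i2, E.cf (u 2) 1 i3] =
      κ * eval (Sum.elim y w) (PI K i1 i2 i3) := by
  obtain ⟨κ, hκ⟩ := K.wed y w h u hu
  refine ⟨κ, hκ, fun i1 i2 i3 => ?_⟩
  unfold PI
  split_ifs with h'
  · rw [← hκ]
    unfold Wd
    congr 1
    obtain ⟨h1, h2, h3⟩ := h'
    ext a t
    fin_cases a <;> fin_cases t <;> simp [cf, h1, h2, h3]
  · rw [map_zero, mul_zero, Matrix.det_fin_three]
    by_cases h1 : 0 < (E.β i1 + j + 1).toNat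
    · by_cases h2 : 0 < (E.β i2 + j + 1).toNat
      · have h3 : ¬ 1 < (E.β i3 + j + 1).toNat := fun h3 => h' ⟨h1, h2, h3⟩
        have h4 : ∀ g : Idx E.β j → ℂ, E.cf g 1 i3 = 0 := fun g => dif_neg h3
        simp [h4]
      · have h4 : ∀ g : Idx E.β j → ℂ, E.cf g 0 i2 = 0 := fun g => dif_neg h2
        simp [h4]
    · have h4 : ∀ g : Idx E.β j → ℂ, E.cf g 0 i1 = 0 := fun g => dif_neg h1
      simp [h4]

end

/-- the coefficient of order `b` of `z₁ ^ b g` -/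
theorem cf_mt_self (E : Bundle2 n) {j : ℤ} (j' : ℤ) (g : Idx E.β j → ℂ) (b : ℕ) (hj : j + b ≤ j') :
    E.cf (E.mt g b j') b = E.cf g 0 := by
  ext i
  by_cases h : b < (E.β i + j' + 1).toNat
  · rw [cf_mt E j' g b b i h, if_pos le_rfl, Nat.sub_self]
  · have h1 : E.cf (E.mt g b j') b i = 0 := dif_neg h
    have h2 : E.cf g 0 i = 0 := dif_neg (by omega)
    rw [h1, h2]

section

variable {E : Bundle2 n} {a : ℤ} (K : Plk E (-(a - 2)) 3)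
  {P : Fin E.a → Fin E.a → MvPolynomial (Fin (n + 1)) ℂ}
  (hP0 : ∀ x : Fin (n + 1) → ℂ, x ≠ 0 → ∃ i j, eval x (P i j) ≠ 0)
  (hPw : ∀ x : Fin (n + 1) → ℂ, x ≠ 0 → ∀ u w : Fin E.a → ℂ,
    (evm E.B x).mulVec u = 0 → (evm E.B x).mulVec w = 0 →
    ∃ κ : ℂ, ∀ i j, u i * w j - u j * w i = κ * eval x (P i j))

include hP0 hPw in
/-- lines of gap one -/
theorem gap1 {y w : Fin (n + 1) → ℂ} (h : LinearIndependent ℂ ![y, w])
    {g₁ g₂ : Fin E.a → MvPolynomial (Fin 2) ℂ} (hg₁ : LineSec E y w (a - 1) g₁)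
    (hg₂ : LineSec E y w (a - 2) g₂)
    (hli : ∀ z : Fin 2 → ℂ, z ≠ 0 → LinearIndependent ℂ ![evv g₁ z, evv g₂ z]) :
    ∃ c : ℂ, c ≠ 0 ∧ ∀ i1 i2 i3, eval (Sum.elim y w) (PI K i1 i2 i3) =
      eval y (P i1 i2) * (c * evv g₁ ![1, 0] i3) := by
  have hz10 : (![1, 0] : Fin 2 → ℂ) ≠ 0 := by
    intro h
    have := congrFun h 0
    simp at this
  obtain ⟨f₁, hf₁, -, hf₁0⟩ := mem_of_lineSec E h hg₁
  obtain ⟨f₂, hf₂, -, hf₂0⟩ := mem_of_lineSec E h hg₂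
  obtain ⟨κ, -, hκ⟩ := PI_wed K h
    ![E.mt f₁ 1 (-(a - 2)), E.mt f₁ 0 (-(a - 2)), f₂] (by
      intro s
      fin_cases s
      · exact kr_mt E h hf₁ 1 0 (by push_cast; ring)
      · exact kr_mt E h hf₁ 0 1 (by push_cast; ring)
      · exact hf₂)
  have e1 : E.cf (E.mt f₁ 1 (-(a - 2))) 0 = 0 := cf_mt_lt E _ f₁ 1 0 (by omega)
  have e2 : E.cf (E.mt f₁ 1 (-(a - 2))) 1 = evv g₁ ![1, 0] := by
    rw [cf_mt_self E _ f₁ 1 (by push_cast; omega), hf₁0]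
  have e3 : E.cf (E.mt f₁ 0 (-(a - 2))) 0 = evv g₁ ![1, 0] := by
    rw [cf_mt_self E _ f₁ 0 (by push_cast; omega), hf₁0]
  have hdet : ∀ i1 i2 i3, evv g₁ ![1, 0] i3 *
      (evv g₁ ![1, 0] i1 * evv g₂ ![1, 0] i2 - evv g₁ ![1, 0] i2 * evv g₂ ![1, 0] i1) =
      κ * eval (Sum.elim y w) (PI K i1 i2 i3) := by
    intro i1 i2 i3
    rw [← hκ, Matrix.det_fin_three]
    simp [e1, e2, e3, hf₂0]
    ring
  have hmem : ∀ g : Fin E.a → MvPolynomial (Fin 2) ℂ, ∀ q, LineSec E y w q g →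
      (evm E.B y).mulVec (evv g ![1, 0]) = 0 := by
    intro g q hg
    have h1 := hg.2 ![1, 0] hz10
    simpa [fib] using h1
  obtain ⟨κ', hκ'⟩ := hPw y (h.ne_zero 0) _ _ (hmem g₁ _ hg₁) (hmem g₂ _ hg₂)
  have hκ'0 : κ' ≠ 0 := by
    rintro rfl
    obtain ⟨i, k, hik⟩ := exists_minor_ne (hli _ hz10)
    apply hik
    rw [hκ', zero_mul]
  have hκ0 : κ ≠ 0 := by
    rintro rfl
    obtain ⟨i, k, hik⟩ := hP0 y (h.ne_zero 0)
    obtain ⟨l, hl⟩ := Function.ne_iff.1 ((hli _ hz10).ne_zero 0)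
    have h1 := hdet i k l
    rw [hκ', zero_mul] at h1
    exact (mul_ne_zero hl (mul_ne_zero hκ'0 hik)) h1
  refine ⟨κ⁻¹ * κ', mul_ne_zero (inv_ne_zero hκ0) hκ'0, fun i1 i2 i3 => ?_⟩
  have h1 := hdet i1 i2 i3
  rw [hκ'] at h1
  have h2 : eval (Sum.elim y w) (PI K i1 i2 i3) =
      κ⁻¹ * (evv g₁ ![1, 0] i3 * (κ' * eval y (P i1 i2))) := by
    rw [h1, ← mul_assoc, inv_mul_cancel₀ hκ0, one_mul]
  rw [h2]
  ring

/-- lines of gap three -/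
theorem gap3 {y w : Fin (n + 1) → ℂ} (h : LinearIndependent ℂ ![y, w])
    {g : Fin E.a → MvPolynomial (Fin 2) ℂ} (hg : LineSec E y w a g) (hg0 : evv g ![1, 0] ≠ 0)
    (i1 i2 i3 : Fin E.a) : eval (Sum.elim y w) (PI K i1 i2 i3) = 0 := by
  obtain ⟨f, hf, -, hf0⟩ := mem_of_lineSec E h hg
  obtain ⟨κ, hκJ, hκ⟩ := PI_wed K h
    ![E.mt f 0 (-(a - 2)), E.mt f 1 (-(a - 2)), E.mt f 2 (-(a - 2))] (by
      intro s
      fin_cases s
      · exact kr_mt E h hf 0 2 (by push_cast; ring)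
      · exact kr_mt E h hf 1 1 (by push_cast; ring)
      · exact kr_mt E h hf 2 0 (by push_cast; ring))
  have e1 : E.cf (E.mt f 1 (-(a - 2))) 0 = 0 := cf_mt_lt E _ f 1 0 (by omega)
  have e2 : E.cf (E.mt f 2 (-(a - 2))) 0 = 0 := cf_mt_lt E _ f 2 0 (by omega)
  have hκ0 : κ ≠ 0 := by
    rintro rfl
    obtain ⟨i, hi⟩ := Function.ne_iff.1 hg0
    rw [← hf0] at hi
    have hi0 : 0 < (E.β i + -a + 1).toNat := by
      by_contra hcon
      exact hi (dif_neg hcon)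
    have b0 : 0 < (E.β i + -(a - 2) + 1).toNat := by omega
    have b1 : 1 < (E.β i + -(a - 2) + 1).toNat := by omega
    have b2 : 2 < (E.β i + -(a - 2) + 1).toNat := by omega
    have h1 := hκJ ![⟨i, ⟨0, b0⟩⟩, ⟨i, ⟨1, b1⟩⟩, ⟨i, ⟨2, b2⟩⟩]
    rw [zero_mul] at h1
    unfold Wd at h1
    rw [Matrix.det_fin_three] at h1
    simp [Bundle2.mt] at h1
    exact hi h1
  have h1 : κ * eval (Sum.elim y w) (PI K i1 i2 i3) = 0 := by
    rw [← hκ, Matrix.det_fin_three]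
    simp [e1, e2]
  exact (mul_eq_zero.1 h1).resolve_left hκ0

end

end H932W
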