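import Pool.Agent.H932.W.Q3

/-!
# Bundles on `P^4` all of whose lines have the gap one or three: the alternating form
-/

open MvPolynomial H960VB H960VB.Bundle2 Y208PT Pool.Agent.H106R3.VB H932V

namespace H932W

namespace Q3

variable (T : Q3)

theorem z10_ne : (![1, 0] : Fin 2 → ℂ) ≠ 0 := by
  intro h
  have := congrFun h 0
  simp at this

/-- a point on a line with the given point -/
theorem exists_li {y : Fin (4 + 1) → ℂ} (hy : y ≠ 0) : ∃ w, LinearIndependent ℂ ![y, w] := by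
  obtain ⟨w, -, hw⟩ := exists_li_of_finrank (M := (⊤ : Submodule ℂ (Fin (4 + 1) → ℂ)))
    (by rw [finrank_top, Module.finrank_fin_fun]; omega) hy
  exact ⟨w, hw⟩

theorem tau_mem_li {y w : Fin (4 + 1) → ℂ} (h : LinearIndependent ℂ ![y, w]) :
    T.tau y w ∈ T.E.fib y := by
  rcases T.two_cases h with h1 | h1
  · obtain ⟨g₁, g₂, hg₁, hg₂, hl⟩ := h1
    obtain ⟨c, -, hc⟩ := T.tau_gap1 h ⟨hg₁, fun z hz => (hl z hz).1⟩
      ⟨hg₂, fun z hz => (hl z hz).2.1⟩ (fun z hz => (hl z hz).2.2)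
    rw [hc]
    apply Submodule.smul_mem
    have h2 := (hl _ z10_ne).1
    simpa using h2
  · obtain ⟨g₁, g₂, hg₁, hg₂, hl⟩ := h1
    rw [T.tau_gap3 h ⟨hg₁, fun z hz => (hl z hz).1⟩ ((hl _ z10_ne).2.2.ne_zero 0)]
    exact Submodule.zero_mem _

/-- the level argument: not all directions at a point are proportional -/
theorem rank1 {y : Fin (4 + 1) → ℂ} (hy : y ≠ 0) {ε : Fin T.E.a → ℂ} (hε : ε ∈ T.E.fib y)
    (hε0 : ε ≠ 0) : ∃ w, ∀ c : ℂ, T.tau y w ≠ c • ε := by
  by_contra hcon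
  push Not at hcon
  obtain ⟨Q, -, hPQ, p, q, hpq, hqp, h⟩ := level T.E T.H.ns _ T.H.hc y hy ε hε hε0 1 3 ⊤
    trivial (by rw [finrank_top, Module.finrank_fin_fun]) (by
      intro Q _ hPQ
      rcases T.two_cases hPQ with h1 | h1
      · refine ⟨_, _, h1, by omega, Or.inr ⟨by push_cast; ring, Or.inr ?_⟩⟩
        obtain ⟨g₁, g₂, hg₁, hg₂, hl⟩ := h1
        have hs : LineSec T.E y Q (T.a - 1) g₁ := ⟨hg₁, fun z hz => (hl z hz).1⟩
        obtain ⟨c, hc, hc1⟩ := T.tau_gap1 hPQ hs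
          ⟨hg₂, fun z hz => (hl z hz).2.1⟩ (fun z hz => (hl z hz).2.2)
        obtain ⟨c', hc'⟩ := hcon Q
        have h2 : evv g₁ ![1, 0] = (c⁻¹ * c') • ε := by
          rw [← smul_smul, ← hc', hc1, smul_smul, inv_mul_cancel₀ hc, one_smul]
        have h3 : c⁻¹ * c' ≠ 0 := by
          intro h0
          rw [h0, zero_smul] at h2
          exact (hl _ z10_ne).2.2.ne_zero 0 h2
        obtain ⟨h6, h7⟩ := LineSec.smul hs (c⁻¹ * c')⁻¹
        refine ⟨_, h6, ?_⟩
        rw [h7, h2, smul_smul, inv_mul_cancel₀ h3, one_smul]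
      · exact ⟨_, _, h1, by omega, Or.inl (by push_cast; omega)⟩)
  have h1 := T.H.gap y Q hPQ p q hpq
  rcases h with h | ⟨h, -⟩ <;> push_cast at h h1 <;> omega

/-- the difference of the directions for two points of the same line -/
theorem tau_shift {y w : Fin (4 + 1) → ℂ} (h : LinearIndependent ℂ ![y, w]) (h0 : T.tau y w ≠ 0) :
    ∃ s : ℂ, T.tau y (w + y) = s • T.tau y w := by
  have hli : LinearIndependent ℂ ![y, w + y] := by
    rw [LinearIndependent.pair_iff] at h ⊢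
    intro s t hst
    have := h (s + t) t (by rw [← hst]; module)
    exact ⟨by linear_combination this.1 - this.2, this.2⟩
  rcases T.two_cases h with h1 | h1
  · obtain ⟨g₁, g₂, hg₁, hg₂, hl⟩ := h1
    have hs₁ : LineSec T.E y w (T.a - 1) g₁ := ⟨hg₁, fun z hz => (hl z hz).1⟩
    have hs₂ : LineSec T.E y w (T.a - 2) g₂ := ⟨hg₂, fun z hz => (hl z hz).2.1⟩
    obtain ⟨c, hc, hc1⟩ := T.tau_gap1 h hs₁ hs₂ (fun z hz => (hl z hz).2.2)
    rcases T.two_cases hli with h2 | h2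
    · obtain ⟨k₁, k₂, hk₁, hk₂, hk⟩ := h2
      have ht₁ : LineSec T.E y (w + y) (T.a - 1) k₁ := ⟨hk₁, fun z hz => (hk z hz).1⟩
      obtain ⟨d, hd, hd1⟩ := T.tau_gap1 hli ht₁
        ⟨hk₂, fun z hz => (hk z hz).2.1⟩ (fun z hz => (hk z hz).2.2)
      have h3 := ht₁.shear (Q' := w) 1 (by module)
      obtain ⟨e, he⟩ := h3.dep h hs₁ hs₂ (fun z hz => (hl z hz).2.2) (by omega) ![1, 0]
      rw [evv_shear_zero] at he
      refine ⟨d * e * c⁻¹, ?_⟩
      rw [hd1, he, hc1, smul_smul, smul_smul, mul_assoc, inv_mul_cancel₀ hc, mul_one]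
    · obtain ⟨k₁, k₂, hk₁, hk₂, hk⟩ := h2
      refine ⟨0, ?_⟩
      rw [T.tau_gap3 hli ⟨hk₁, fun z hz => (hk z hz).1⟩ ((hk _ z10_ne).2.2.ne_zero 0), zero_smul]
  · obtain ⟨g₁, g₂, hg₁, hg₂, hl⟩ := h1
    exact absurd (T.tau_gap3 h ⟨hg₁, fun z hz => (hl z hz).1⟩ ((hl _ z10_ne).2.2.ne_zero 0)) h0

theorem tau_self {y : Fin (4 + 1) → ℂ} (hy : y ≠ 0) : T.tau y y = 0 := by
  by_contra h0
  have hmem : T.tau y y ∈ T.E.fib y := by
    obtain ⟨w, hw⟩ := exists_li hy
    have hli : LinearIndependent ℂ ![y, w + y] := by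
      rw [LinearIndependent.pair_iff] at hw ⊢
      intro s t hst
      have := hw (s + t) t (by rw [← hst]; module)
      exact ⟨by linear_combination this.1 - this.2, this.2⟩
    have h1 := T.tau_mem_li hli
    rw [T.tau_add hy] at h1
    have h2 := Submodule.sub_mem _ h1 (T.tau_mem_li hw)
    simpa using h2
  obtain ⟨w, hw⟩ := T.rank1 hy hmem h0
  have hli : LinearIndependent ℂ ![y, w] := by
    rw [LinearIndependent.pair_iff' hy]
    intro c hc
    apply hw c
    rw [← hc, T.tau_smul hy]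
  have hw0 : T.tau y w ≠ 0 := by
    intro h
    exact hw 0 (by rw [h, zero_smul])
  obtain ⟨s, hs⟩ := T.tau_shift hli hw0
  rw [T.tau_add hy] at hs
  have h1 : T.tau y y = (s - 1) • T.tau y w := by
    rw [sub_smul, one_smul, ← hs]
    abel
  have h2 : s - 1 ≠ 0 := by
    intro h
    rw [h, zero_smul] at h1
    exact h0 h1
  apply hw (s - 1)⁻¹
  rw [h1, smul_smul, inv_mul_cancel₀ h2, one_smul]

theorem tau_mem {y : Fin (4 + 1) → ℂ} (hy : y ≠ 0) (w : Fin (4 + 1) → ℂ) :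
    T.tau y w ∈ T.E.fib y := by
  by_cases hli : LinearIndependent ℂ ![y, w]
  · exact T.tau_mem_li hli
  · rw [LinearIndependent.pair_iff' hy] at hli
    push Not at hli
    obtain ⟨c, hc⟩ := hli
    rw [← hc, T.tau_smul hy, T.tau_self hy, smul_zero]
    exact Submodule.zero_mem _

/-- the alternating form -/
theorem exists_theta (w w' : Fin (4 + 1) → ℂ) :
    ∃ t : MvPolynomial (Fin (4 + 1)) ℂ, HomZ t 1 ∧
      ∀ i k, T.tp w i * T.tp w' k - T.tp w k * T.tp w' i = T.P i k * t := by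
  obtain ⟨g, hg⟩ := hartogs (by norm_num : 2 ≤ 4 + 1)
    (fun (x : Fin T.E.a × Fin T.E.a) (_ : Fin 1) => T.P x.1 x.2)
    (fun x => T.tp w x.1 * T.tp w' x.2 - T.tp w x.2 * T.tp w' x.1) T.inj_P (by
      intro y hy
      obtain ⟨κ, hκ⟩ := T.hPw y hy (T.tau y w) (T.tau y w')
        (by have := T.tau_mem hy w; simpa [fib] using this)
        (by have := T.tau_mem hy w'; simpa [fib] using this)
      refine ⟨fun _ => κ, ?_⟩
      funext x
      simp only [Matrix.mulVec, dotProduct, Fin.sum_univ_one]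
      change eval y (T.P x.1 x.2) * _ =
        eval y (T.tp w x.1 * T.tp w' x.2 - T.tp w x.2 * T.tp w' x.1)
      rw [map_sub, map_mul, map_mul, mul_comm, ← hκ]
      rfl)
  have h1 := hartogs_hom (by norm_num : 1 ≤ 4 + 1)
    (fun (x : Fin T.E.a × Fin T.E.a) (_ : Fin 1) => T.P x.1 x.2)
    (fun x => T.tp w x.1 * T.tp w' x.2 - T.tp w x.2 * T.tp w' x.1)
    (fun x => T.E.β x.1 + T.E.β x.2)
    (fun _ => 2 * T.a - 3) (2 * T.a - 4) (fun x _ => T.hP x.1 x.2)
    (fun x => by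
      have e1 := L2.HomZ_mul (T.tp_hom w x.1) (T.tp_hom w' x.2)
      have e2 := L2.HomZ_mul (T.tp_hom w x.2) (T.tp_hom w' x.1)
      exact L2.HomZ_sub (L2.HomZ_cast e1 (by ring)) (L2.HomZ_cast e2 (by ring))) T.inj_P g hg 0
  refine ⟨g 0, L2.HomZ_cast h1 (by ring), fun i k => ?_⟩
  have h2 := congrFun hg (i, k)
  simp only [Matrix.mulVec, dotProduct, Fin.sum_univ_one] at h2
  exact h2.symm

noncomputable def thp (w w' : Fin (4 + 1) → ℂ) : MvPolynomial (Fin (4 + 1)) ℂ :=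
  (T.exists_theta w w').choose

noncomputable def Th (y w w' : Fin (4 + 1) → ℂ) : ℂ := eval y (T.thp w w')

theorem th_spec (y w w' : Fin (4 + 1) → ℂ) (i k : Fin T.E.a) :
    T.tau y w i * T.tau y w' k - T.tau y w k * T.tau y w' i = eval y (T.P i k) * T.Th y w w' := by
  have h := (T.exists_theta w w').choose_spec.2 i k
  have h1 := congrArg (eval y) h
  rw [map_sub, map_mul, map_mul, map_mul] at h1
  exact h1

theorem th_add1 (y y' w w' : Fin (4 + 1) → ℂ) :
    T.Th (y + y') w w' = T.Th y w w' + T.Th y' w w' :=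
  eval_add_of_hom1 (T.exists_theta w w').choose_spec.1 y y'

theorem th_zero (w w' : Fin (4 + 1) → ℂ) : T.Th 0 w w' = 0 := by
  have h := T.th_add1 0 0 w w'
  rw [add_zero] at h
  exact left_eq_add.1 h

theorem th_smul1 (t : ℂ) (y w w' : Fin (4 + 1) → ℂ) : T.Th (t • y) w w' = t * T.Th y w w' := by
  rcases (T.exists_theta w w').choose_spec.1 with h | ⟨k, hk, h⟩
  · unfold Th thp
    rw [h]
    simp
  · obtain rfl : k = 1 := by exact_mod_cast hk
    have h1 := Y208PT.eval_smul_hom h t y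
    rw [pow_one] at h1
    exact h1

theorem th_skew23 (y w w' : Fin (4 + 1) → ℂ) : T.Th y w w' = -T.Th y w' w := by
  by_cases hy : y = 0
  · rw [hy, T.th_zero, T.th_zero, neg_zero]
  · obtain ⟨i, k, hik⟩ := T.hP0 y hy
    apply mul_left_cancel₀ hik
    rw [← th_spec, mul_neg, ← th_spec]
    ring

theorem th_add2 (y w₁ w₂ w' : Fin (4 + 1) → ℂ) :
    T.Th y (w₁ + w₂) w' = T.Th y w₁ w' + T.Th y w₂ w' := by
  by_cases hy : y = 0
  · rw [hy, T.th_zero, T.th_zero, T.th_zero, add_zero]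
  · obtain ⟨i, k, hik⟩ := T.hP0 y hy
    apply mul_left_cancel₀ hik
    rw [← th_spec, mul_add, ← th_spec, ← th_spec, T.tau_add hy]
    simp only [Pi.add_apply]
    ring

theorem th_smul2 (t : ℂ) (y w w' : Fin (4 + 1) → ℂ) : T.Th y (t • w) w' = t * T.Th y w w' := by
  by_cases hy : y = 0
  · rw [hy, T.th_zero, T.th_zero, mul_zero]
  · obtain ⟨i, k, hik⟩ := T.hP0 y hy
    apply mul_left_cancel₀ hik
    rw [← th_spec, mul_left_comm, ← th_spec, T.tau_smul hy]
    simp only [Pi.smul_apply, smul_eq_mul]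
    ring

theorem th_alt12 (y w : Fin (4 + 1) → ℂ) : T.Th y y w = 0 := by
  by_cases hy : y = 0
  · rw [hy, T.th_zero]
  · obtain ⟨i, k, hik⟩ := T.hP0 y hy
    apply mul_left_cancel₀ hik
    rw [← th_spec, T.tau_self hy]
    simp

theorem th_pl (u a b c d : Fin (4 + 1) → ℂ) :
    T.Th u a b * T.Th u c d - T.Th u a c * T.Th u b d + T.Th u a d * T.Th u b c = 0 := by
  by_cases hu : u = 0
  · simp [hu, T.th_zero]
  · obtain ⟨i, k, hik⟩ := T.hP0 u hu
    apply mul_left_cancel₀ (mul_ne_zero hik hik)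
    have e := fun w w' => T.th_spec u w w' i k
    have h : (eval u (T.P i k) * T.Th u a b) * (eval u (T.P i k) * T.Th u c d) -
        (eval u (T.P i k) * T.Th u a c) * (eval u (T.P i k) * T.Th u b d) +
        (eval u (T.P i k) * T.Th u a d) * (eval u (T.P i k) * T.Th u b c) = 0 := by
      rw [← e, ← e, ← e, ← e, ← e, ← e]
      ring
    linear_combination h

theorem th_nondeg {y : Fin (4 + 1) → ℂ} (hy : y ≠ 0) : ∃ w w', T.Th y w w' ≠ 0 := by
  by_contra hcon
  push Not at hcon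
  obtain ⟨w₀, hw₀⟩ : ∃ w₀, T.tau y w₀ ≠ 0 := by
    obtain ⟨ε, hε, hε0⟩ := exists_fib T.E hy
    obtain ⟨w, hw⟩ := T.rank1 hy hε hε0
    exact ⟨w, fun h => hw 0 (by rw [h, zero_smul])⟩
  obtain ⟨w, hw⟩ := T.rank1 hy (T.tau_mem hy w₀) hw₀
  have hli : LinearIndependent ℂ ![T.tau y w₀, T.tau y w] := by
    rw [LinearIndependent.pair_iff' hw₀]
    exact fun c hc => hw c hc.symm
  obtain ⟨i, k, hik⟩ := exists_minor_ne hli
  apply hik
  rw [T.th_spec, hcon, mul_zero]

/-- **the contradiction** -/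
theorem contra (T : Q3) : False := by
  have skew12 : ∀ y w v, T.Th y w v = -T.Th w y v := by
    intro y w v
    have h := T.th_alt12 (y + w) v
    rw [T.th_add1, T.th_add2, T.th_add2, T.th_alt12, T.th_alt12, zero_add, add_zero] at h
    exact eq_neg_of_add_eq_zero_left h
  have hy : (Pi.single 0 1 : Fin (4 + 1) → ℂ) ≠ 0 := by
    intro h
    have := congrFun h 0
    simp at this
  obtain ⟨y, hyy⟩ : ∃ y : Fin (4 + 1) → ℂ, y ≠ 0 := ⟨_, hy⟩
  obtain ⟨w₁, w₂, hD⟩ := T.th_nondeg hyy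
  let f : (Fin (4 + 1) → ℂ) →ₗ[ℂ] (Fin 3 → ℂ) :=
    { toFun := fun z => ![T.Th y z w₁, T.Th y z w₂, T.Th z w₁ w₂]
      map_add' := by
        intro z z'
        rw [T.th_add2, T.th_add2, T.th_add1]
        simp
      map_smul' := by
        intro c z
        rw [T.th_smul2, T.th_smul2, T.th_smul1]
        simp }
  obtain ⟨k, hk, hk0⟩ : ∃ k ∈ LinearMap.ker f, k ≠ 0 := by
    have h1 := LinearMap.finrank_range_add_finrank_ker f
    have h2 := Submodule.finrank_le (LinearMap.range f)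
    rw [Module.finrank_fin_fun] at h1 h2
    have h3 : 0 < Module.finrank ℂ (LinearMap.ker f) := by omega
    rw [Module.finrank_pos_iff_exists_ne_zero] at h3
    obtain ⟨⟨x, hx⟩, hx0⟩ := h3
    exact ⟨x, hx, fun h => hx0 (Subtype.ext h)⟩
  have hk' : ![T.Th y k w₁, T.Th y k w₂, T.Th k w₁ w₂] = 0 := hk
  have hk1 : T.Th y k w₁ = 0 := congrFun hk' 0
  have hk2 : T.Th y k w₂ = 0 := congrFun hk' 1
  have hk3 : T.Th k w₁ w₂ = 0 := congrFun hk' 2
  -- the kernel
  have hK : ∀ z, T.Th y z w₁ = 0 → T.Th y z w₂ = 0 → ∀ v, T.Th y z v = 0 := by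
    intro z h1 h2 v
    have h := T.th_pl y z v w₁ w₂
    rw [h1, h2, zero_mul, zero_mul, sub_zero, add_zero] at h
    exact (mul_eq_zero.1 h).resolve_right hD
  by_cases hA : ∃ z x u, (∀ v, T.Th y z v = 0) ∧ (∀ v, T.Th y x v = 0) ∧ T.Th z x u ≠ 0
  · obtain ⟨z, x, u, hz, hx, hzx⟩ := hA
    have h1 : ∀ u, T.Th z x u ≠ 0 → ∀ v, T.Th u y v = 0 := by
      intro u hu v
      have h := T.th_pl u z x y v
      have e1 : T.Th u z y = 0 := by
        rw [T.th_skew23, skew12, neg_neg, T.th_skew23, hz, neg_zero]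
      have e2 : T.Th u x y = 0 := by
        rw [T.th_skew23, skew12, neg_neg, T.th_skew23, hx, neg_zero]
      rw [e1, e2, zero_mul, mul_zero, sub_zero, add_zero] at h
      refine (mul_eq_zero.1 h).resolve_left ?_
      rw [skew12, T.th_skew23]
      simpa using hu
    apply T.th_nondeg hyy |>.elim
    rintro w ⟨w', hww⟩
    apply hww
    rw [skew12, neg_eq_zero]
    by_cases hw : T.Th z x w = 0
    · have e3 : T.Th z x (w + u) ≠ 0 := by
        rw [T.th_skew23, T.th_add2, neg_add, ← T.th_skew23, ← T.th_skew23, hw, zero_add]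
        exact hzx
      have e4 := h1 _ e3 w'
      rw [T.th_add1, h1 u hzx, add_zero] at e4
      exact e4
    · exact h1 w hw w'
  · push Not at hA
    -- the decomposition
    have hdec : ∀ v, ∃ c₁ c₂ : ℂ, ∃ v', v = v' + (c₁ • w₁ + c₂ • w₂) ∧ ∀ u, T.Th y v' u = 0 := by
      intro v
      refine ⟨T.Th y v w₂ / T.Th y w₁ w₂, T.Th y w₁ v / T.Th y w₁ w₂, v -
        ((T.Th y v w₂ / T.Th y w₁ w₂) • w₁ + (T.Th y w₁ v / T.Th y w₁ w₂) • w₂), by abel, ?_⟩
      have e0 : ∀ w, T.Th y w w = 0 := by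
        intro w
        have := T.th_skew23 y w w
        linear_combination this / 2
      have e5 : ∀ u, T.Th y (v - ((T.Th y v w₂ / T.Th y w₁ w₂) • w₁ +
          (T.Th y w₁ v / T.Th y w₁ w₂) • w₂)) u = T.Th y v u -
          ((T.Th y v w₂ / T.Th y w₁ w₂) * T.Th y w₁ u + (T.Th y w₁ v / T.Th y w₁ w₂) * T.Th y w₂ u) := by
        intro u
        rw [sub_eq_add_neg, ← neg_one_smul ℂ, T.th_add2, T.th_smul2, T.th_add2, T.th_smul2,
          T.th_smul2]
        ring
      apply hK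
      · rw [e5, e0, T.th_skew23 y w₂ w₁, T.th_skew23 y w₁ v]
        field_simp
        ring
      · rw [e5, e0]
        field_simp
        ring
    have hkK := hK k hk1 hk2
    apply T.th_nondeg hk0 |>.elim
    rintro w ⟨w', hww⟩
    apply hww
    obtain ⟨c₁, c₂, v, hv, hvK⟩ := hdec w
    obtain ⟨d₁, d₂, v', hv', hvK'⟩ := hdec w'
    have e6 : ∀ v, (∀ u, T.Th y v u = 0) → ∀ u, T.Th k v u = 0 := fun v hv u => hA k v u hkK hv
    have e0 : ∀ w, T.Th k w w = 0 := by
      intro w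
      have := T.th_skew23 k w w
      linear_combination this / 2
    have e7 : ∀ u, T.Th k u w' = d₁ * T.Th k u w₁ + d₂ * T.Th k u w₂ := by
      intro u
      rw [T.th_skew23, hv', T.th_add2, T.th_add2, T.th_smul2, T.th_smul2, e6 v' hvK',
        T.th_skew23 k w₁ u, T.th_skew23 k w₂ u]
      ring
    rw [hv, T.th_add2, e6 v hvK, zero_add, T.th_add2, T.th_smul2, T.th_smul2, e7, e7, e0, e0, hk3,
      T.th_skew23 k w₂ w₁, hk3]
    ring

end Q3

end H932W
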