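import Pool.Agent.H932.W.Fin
import Pool.Agent.H932.W.Q3b

/-!
# Rank two bundles on `P^4` all of whose lines have the gap at most three split
-/

open MvPolynomial H960VB H960VB.Bundle2 Y208PT Pool.Agent.H106R3.VB H932V

namespace H932W

theorem N0_three : N0 3 = 1 := by
  have h := N0_eq 3
  norm_num at h
  omega

/-- **The coordinate version.** -/
theorem coord_false4 (E : Bundle2 (3 + 1)) {c₁ : ℤ} (H : Hyp E c₁)
    {a' b' : ℤ} (hA : E.SplitsOn (Fin.cons 1 0) (Fin.cons 0 (Fin.cons 1 0)) a' b')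
    (hg : a' - b' = 1) : False := by
  classical
  -- the numbers
  obtain ⟨a, ha⟩ := H.parity (by omega)
  have hcA := H.hc _ _ (li_coord 3) _ _ hA
  push_cast at ha
  have ha' : a' = a - 1 := by omega
  have hb' : b' = a - 2 := by omega
  have hc₁ : c₁ = 2 * a - 3 := by omega
  subst ha' hb' hc₁
  have hty : ∀ y w : Fin (3 + 2) → ℂ, LinearIndependent ℂ ![y, w] → ∀ p q : ℤ,
      E.SplitsOn y w p q → p ≤ a ∧ q ≤ a ∧ p + q = 2 * a - 3 := by
    intro y w hyw p q hpq
    have h1 := H.gap y w hyw p q hpq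
    have h2 := H.gap y w hyw q p (SplitsOn.swap hpq)
    have h3 := H.hc y w hyw p q hpq
    push_cast at h1 h2
    refine ⟨?_, ?_, ?_⟩ <;> omega
  have hdim : ∀ y w : Fin (3 + 2) → ℂ, LinearIndependent ℂ ![y, w] →
      Module.finrank ℂ (LinearMap.ker (Matrix.mulVecLin (evm (fam2 E (-(a - 2)))
        (Sum.elim y w)))) = 3 := by
    intro y w hyw
    obtain ⟨p, q, hpq⟩ := splitsOn_exists E hyw
    obtain ⟨h1, h2, h3⟩ := hty y w hyw p q hpq
    rw [finrank_fam2 E hyw _ hpq]
    omega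
  obtain ⟨K⟩ := exists_plk (by omega) E (-(a - 2)) 3 hdim
  obtain ⟨g₁, g₂, hg₁, hg₂, hl⟩ := id hA
  let T : Dat 3 :=
    { E := E
      G := 3
      a := a
      b₀ := a - 3
      j := -(a - 2)
      α := a - 1
      hab := by push_cast; ring
      hj := by ring
      K := K
      hmax := fun y w hyw p q hpq => ⟨(hty y w hyw p q hpq).1, (hty y w hyw p q hpq).2.1⟩
      g₁ := g₁
      hg₁ := hg₁
      hg0 := fun z hz => (hl z hz).2.2.ne_zero 0 }
  -- the section through a point with a given value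
  have hsec : ∀ y : Fin (3 + 2) → ℂ, y ≠ 0 → ∀ ε ∈ E.fib y, ε ≠ 0 →
      ∃ w, LinearIndependent ℂ ![y, w] ∧ ∃ f : Idx E.β (-a) → ℂ, Kr E (-a) y w f ∧
        E.cf f 0 = ε := by
    intro y hy ε hε hε0
    obtain ⟨w, hyw, p, q, hpq, hgap, g, hgs, hge⟩ := H.dir (by omega) hy hε hε0
    have h3 := H.hc y w hyw p q hpq
    push_cast at hgap
    have hpa : p = a := by omega
    rw [hpa] at hgs
    obtain ⟨f, hf, -, hf2⟩ := mem_of_lineSec E hyw hgs
    exact ⟨w, hyw, f, hf, hf2.trans hge⟩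
  -- the bounds
  have he0 : (Fin.cons 1 0 : Fin (3 + 2) → ℂ) ≠ 0 := (li_coord 3).ne_zero 0
  obtain ⟨ε, hε, hε0⟩ := exists_fib E he0
  obtain ⟨w₂, hw₂, f, hf, hfε⟩ := hsec _ he0 ε hε hε0
  have hf0 : f ≠ 0 := by
    rintro rfl
    apply hε0
    rw [← hfε]
    ext i
    simp [cf]
  obtain ⟨w₁, hw₁, p, q, hpq, hqp, hpq1⟩ := H.low (by omega) he0
  have hs := (hty _ _ hw₁ p q hpq).2.2
  have hd1 := K.d1_bound (by omega) a (a - 3) (by push_cast; ring) (by ring) _
    (fun w hw => hdim _ w hw) w₁ hw₁ p q hpq hqp hpq1 (by omega) w₂ hw₂ f hf hf0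
  rw [N0_three] at hd1
  have hdeq := K.d_eq (by omega) hdim
  have hd10 : K.d1 = 0 := by
    by_contra hne
    have hlt : K.d1 < 0 := by omega
    refine T.contra ?_ ?_ ?_ ?_
    · change (∑ s : Fin 3, ((s : ℕ) : ℤ)) - (3 : ℕ) * (a - 1 + -(a - 2)) + K.d1 < 0
      rw [Fin.sum_univ_three]
      simp
      omega
    · change K.d2 - (∑ s : Fin 3, ((s : ℕ) : ℤ)) ≤ 0
      rw [Fin.sum_univ_three]
      simp
      omega
    · intro y w hy hw hyw f hf
      have h1 : E.SplitsOn y w (a - 1) (a - 2) :=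
        SplitsOn.lin hA (y 0) (y 1) (w 0) (w 1) (coord_pt y hy) (coord_pt w hw) hyw
      have h2 := finrank_fam2 E hyw (-a) h1
      have h3 : (a - 1 + -a + 1).toNat + (a - 2 + -a + 1).toNat = 0 := by omega
      rw [h3, Submodule.finrank_eq_zero] at h2
      have h4 : f ∈ LinearMap.ker (Matrix.mulVecLin (evm (fam2 E (-a)) (Sum.elim y w))) := by
        rw [LinearMap.mem_ker, Matrix.mulVecLin_apply]
        exact hf
      rw [h2, Submodule.mem_bot] at h4
      exact h4
    · intro y hy0 hy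
      have hz : (![y 0, y 1] : Fin 2 → ℂ) ≠ 0 := by
        intro h0
        apply hy0
        rw [coord_pt y hy]
        have h1 : y 0 = 0 := congrFun h0 0
        have h2 : y 1 = 0 := congrFun h0 1
        rw [h1, h2]
        simp
      refine hsec y hy0 (T.gv y) ?_ ?_
      · have h1 := (hl _ hz).1
        simp only [Matrix.cons_val_zero, Matrix.cons_val_one] at h1
        rw [← coord_pt y hy] at h1
        exact h1
      · exact (hl _ hz).2.2.ne_zero 0
  -- the alternating form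
  obtain ⟨c', P, hP, hP0, hPw⟩ := plucker (by omega : 2 ≤ 4 + 1) E.β E.γ E.B E.hom E.rank_two
  have hc' : c' = 2 * a - 3 := by
    have hv : (fun _ : Fin 4 => (1 : ℂ)) ≠ 0 := by
      intro h
      have := congrFun h 0
      simp at this
    have hli : LinearIndependent ℂ ![(Fin.cons 1 0 : Fin (4 + 1) → ℂ), Fin.cons 0 fun _ => 1] := by
      refine li_of_minor (i := 0) (k := 1) ?_
      have h1 : (Fin.cons 1 0 : Fin (4 + 1) → ℂ) 1 = 0 := rfl
      have h2 : (Fin.cons 0 (fun _ => 1) : Fin (4 + 1) → ℂ) 1 = 1 := rfl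
      rw [h1, h2]
      simp
    obtain ⟨p, q, hpq⟩ := splitsOn_exists E hli
    have h1 := splitsOn_sum E c' P hP hP0 hPw _ hv p q hpq
    have h2 := H.hc _ _ hli p q hpq
    omega
  subst hc'
  exact Q3.contra
    { E := E
      a := a
      K := K
      P := P
      hP := hP
      hP0 := hP0
      hPw := hPw
      hd1 := hd10
      hd2 := by rw [← hdeq]; exact hd10
      H := H }

/-- **The theorem on `P^4`.** -/
theorem thm4 (E : Bundle2 4)
    (h : ∀ A B : Fin (4 + 1) → ℂ, LinearIndependent ℂ ![A, B] →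
      ∀ a b : ℤ, E.SplitsOn A B a b → a - b ≤ 3) : E.Splits := by
  by_contra hns
  obtain ⟨c₁, hc⟩ := exists_chern (by omega) E
  have H : Hyp E c₁ := ⟨hns, hc, fun A B hAB a b hab => by
    have := h A B hAB a b hab
    push_cast
    omega⟩
  obtain ⟨Q, hPQ, a, b, hab, hg⟩ := H.mid (by omega) (P := Fin.cons 1 0) (by
    intro h
    have := congrFun h 0
    simp at this)
  obtain ⟨T, hT, hT0, hT1⟩ := exists_move2 hPQ
  refine coord_false4 (E.pull T hT) (H.pull (by omega) T hT) (a' := a) (b' := b) ?_ ?_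
  · apply splitsOn_pull
    rw [hT0, hT1]
    exact hab
  · push_cast at hg
    omega

end H932W
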