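import Pool.Agent.H932.W.Frame

/-!
# Expansion of a determinant along Plücker coordinates
-/

open MvPolynomial H960VB

namespace H932W

variable {I : Type}

theorem det_expand {A : Type*} [CommRing A] [Fintype I] [DecidableEq I] {r : ℕ}
    (N u : Fin r → I → A) :
    Matrix.det (Matrix.of fun a t => ∑ x, N t x * u a x) =
      ∑ J : Fin r → I, (∏ t, N t (J t)) * Wd u J := by
  unfold Wd
  simp only [Matrix.det_apply, Matrix.of_apply]
  have h1 : ∀ τ : Equiv.Perm (Fin r), ∏ i, ∑ x, N i x * u (τ i) x =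
      ∑ J : Fin r → I, ∏ i, N i (J i) * u (τ i) (J i) := by
    intro τ
    rw [Finset.prod_univ_sum]
    simp
  simp only [h1, Finset.smul_sum, Finset.mul_sum]
  rw [Finset.sum_comm]
  refine Finset.sum_congr rfl fun J _ => Finset.sum_congr rfl fun τ _ => ?_
  rw [Finset.prod_mul_distrib]
  rcases Int.units_eq_one_or (Equiv.Perm.sign τ) with h2 | h2
  · rw [h2, one_smul, one_smul]
  · rw [h2, Units.neg_smul, one_smul, Units.neg_smul, one_smul, mul_neg]

theorem exists_Wd_ne [Fintype I] [DecidableEq I] {r : ℕ} (u : Fin r → I → ℂ)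
    (hu : LinearIndependent ℂ u) : ∃ J, Wd u J ≠ 0 := by
  by_contra hcon
  push Not at hcon
  let T : (Fin r → ℂ) →ₗ[ℂ] (I → ℂ) := Fintype.linearCombination ℂ u
  have hT : LinearMap.ker T = ⊥ := by
    rw [LinearMap.ker_eq_bot]
    exact linearIndependent_iff_injective_fintypeLinearCombination.mp hu
  obtain ⟨S, hS⟩ := T.exists_leftInverse_of_injective hT
  have hdot : ∀ (s : Fin r) (v : I → ℂ), ∑ x, S (Pi.single x 1) s * v x = S v s := by
    intro s v
    have h1 : v = ∑ x, v x • (Pi.single x 1 : I → ℂ) := by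
      ext k
      simp [Finset.sum_apply, Pi.single_apply]
    conv_rhs => rw [h1, map_sum, Finset.sum_apply]
    refine Finset.sum_congr rfl fun x _ => ?_
    rw [map_smul, Pi.smul_apply, smul_eq_mul, mul_comm]
  have h2 := det_expand (fun t x => S (Pi.single x 1) t) u
  have h3 : (Matrix.of fun a t => ∑ x, (fun t x => S (Pi.single x 1) t) t x * u a x) =
      (1 : Matrix (Fin r) (Fin r) ℂ) := by
    ext a t
    rw [Matrix.of_apply, hdot]
    have h4 : u a = T (Pi.single a 1) := by
      simp [T, Fintype.linearCombination_apply_single]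
    rw [h4, ← LinearMap.comp_apply, hS, LinearMap.id_apply, Matrix.one_apply, Pi.single_apply]
    simp only [eq_comm]
  rw [h3, Matrix.det_one] at h2
  simp only [hcon, mul_zero, Finset.sum_const_zero] at h2
  exact one_ne_zero h2

/-- a basis of the kernel -/
theorem exists_ker_basis {Y : Type} [Fintype I] (A : Matrix Y I ℂ) {r : ℕ}
    (h : Module.finrank ℂ (LinearMap.ker (Matrix.mulVecLin A)) = r) :
    ∃ u : Fin r → I → ℂ, LinearIndependent ℂ u ∧ (∀ a, A.mulVec (u a) = 0) ∧
      ∀ g : I → ℂ, A.mulVec g = 0 → ∃ c : Fin r → ℂ, g = ∑ a, c a • u a := by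
  let b := Module.finBasisOfFinrankEq ℂ (LinearMap.ker (Matrix.mulVecLin A)) h
  refine ⟨fun a => (b a : I → ℂ), ?_, fun a => (b a).2, fun g hg => ?_⟩
  · exact b.linearIndependent.map' (Submodule.subtype _) (Submodule.ker_subtype _)
  · have h1 := b.sum_repr (⟨g, hg⟩ : LinearMap.ker (Matrix.mulVecLin A))
    refine ⟨fun a => b.repr (⟨g, hg⟩ : LinearMap.ker (Matrix.mulVecLin A)) a, ?_⟩
    have h2 := congrArg (LinearMap.ker (Matrix.mulVecLin A)).subtype h1
    rw [map_sum] at h2
    refine (Eq.trans ?_ h2.symm)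
    rfl

end H932W
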