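import Pool.Agent.H932.W.Fam2Ker
import Pool.Agent.H932.W.Expand

/-!
# Coefficient arrays of sections on lines: operations
-/

open MvPolynomial H960VB H960VB.Bundle2 Y208PT Pool.Agent.H106R3.VB

namespace H932W

variable {n : ℕ}

/-- `g` is the coefficient array of a section of `E(j)` on the line through `y` and `w` -/
def Kr (E : Bundle2 n) (j : ℤ) (y w : Fin (n + 1) → ℂ) (g : Idx E.β j → ℂ) : Prop :=
  (evm (fam2 E j) (Sum.elim y w)).mulVec g = 0

theorem kr_iff (E : Bundle2 n) {y w : Fin (n + 1) → ℂ} (h : LinearIndependent ℂ ![y, w]) (j : ℤ)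
    (g : Idx E.β j → ℂ) :
    Kr E j y w g ↔ g ∈ (E.pull (m := 1) (lineMap y w) (lineMap_injective h)).Hsec j (fun _ => 1) := by
  unfold Kr
  rw [evm_fam2 E h]
  exact Iff.rfl

theorem kr_cf (E : Bundle2 n) {y w : Fin (n + 1) → ℂ} (h : LinearIndependent ℂ ![y, w]) {j : ℤ}
    {g : Idx E.β j → ℂ} (hg : Kr E j y w g) (b : ℕ) (h0 : ∀ b' < b, E.cf g b' = 0) :
    E.cf g b ∈ E.fib y := by
  rw [kr_iff E h] at hg
  have h1 := (E.pull (m := 1) (lineMap y w) (lineMap_injective h)).cf_mem (fun _ => 1) g hg b h0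
  rw [fib_pull, lineMap_cons0] at h1
  exact h1

theorem kr_sh (E : Bundle2 n) {y w : Fin (n + 1) → ℂ} (h : LinearIndependent ℂ ![y, w]) {j j' : ℤ}
    {g : Idx E.β j → ℂ} (hg : Kr E j y w g) (b : ℕ) (hj : j' + b = j)
    (h0 : ∀ b' < b, E.cf g b' = 0) : Kr E j' y w (E.sh g b j') := by
  rw [kr_iff E h] at hg ⊢
  exact (E.pull (m := 1) (lineMap y w) (lineMap_injective h)).sh_mem (fun _ => 1) g hg b hj h0

/-- multiplication by `z₀ ^ e z₁ ^ b` -/
theorem lev_mt2 (E : Bundle2 n) {j j' : ℤ} (g : Idx E.β j → ℂ) (b e : ℕ) (hj : j + b + e = j')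
    (z : Fin 2 → ℂ) (i : Fin E.a) :
    E.lev (E.mt g b j') z i = z 0 ^ e * z 1 ^ b * E.lev g z i := by
  have hc : ∀ m, E.cf (E.mt g b j') m i =
      if m < (E.β i + j' + 1).toNat then (if b ≤ m then E.cf g (m - b) i else 0) else 0 := by
    intro m
    by_cases h : m < (E.β i + j' + 1).toNat
    · rw [if_pos h]
      have h5 : E.cf (E.mt g b j') m i = E.mt g b j' ⟨i, ⟨m, h⟩⟩ := dif_pos h
      rw [h5]
      rfl
    · rw [if_neg h]
      exact dif_neg h
  have hz : ∀ m, (E.β i + j + 1).toNat ≤ m → E.cf g m i = 0 := by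
    intro m hm
    unfold cf
    rw [dif_neg (by omega)]
  rw [lev_eq, lev_eq, Finset.mul_sum]
  by_cases hb : (E.β i + j + 1).toNat = 0
  · rw [hb, Finset.range_zero, Finset.sum_empty]
    apply Finset.sum_eq_zero
    intro x _
    rw [hc]
    split_ifs
    · rw [hz _ (by omega)]; simp
    · simp
    · simp
  · have e3 : (E.β i + j' + 1).toNat = b + (E.β i + j + 1).toNat + e := by omega
    rw [e3, Finset.sum_range_add _ (b + (E.β i + j + 1).toNat) e,
      Finset.sum_range_add _ b (E.β i + j + 1).toNat]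
    have h1 : ∑ x ∈ Finset.range b,
        E.cf (E.mt g b j') x i * z 0 ^ ((E.β i + j').toNat - x) * z 1 ^ x = 0 := by
      apply Finset.sum_eq_zero
      intro x hx
      rw [hc, if_pos (by have := Finset.mem_range.mp hx; omega),
        if_neg (by have := Finset.mem_range.mp hx; omega)]
      simp
    have h2 : ∑ x ∈ Finset.range e, E.cf (E.mt g b j') (b + (E.β i + j + 1).toNat + x) i *
        z 0 ^ ((E.β i + j').toNat - (b + (E.β i + j + 1).toNat + x)) *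
          z 1 ^ (b + (E.β i + j + 1).toNat + x) = 0 := by
      apply Finset.sum_eq_zero
      intro x hx
      rw [hc]
      split_ifs
      · rw [hz _ (by omega)]; simp
      · simp
      · simp
    rw [h1, h2, zero_add, add_zero]
    apply Finset.sum_congr rfl
    intro x hx
    have hx' := Finset.mem_range.mp hx
    rw [hc, if_pos (by omega), if_pos (by omega)]
    have e1 : (E.β i + j').toNat - (b + x) = e + ((E.β i + j).toNat - x) := by omega
    have e2 : b + x - b = x := by omega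
    rw [e1, e2, pow_add, pow_add]
    ring

theorem kr_mt (E : Bundle2 n) {y w : Fin (n + 1) → ℂ} (h : LinearIndependent ℂ ![y, w]) {j j' : ℤ}
    {g : Idx E.β j → ℂ} (hg : Kr E j y w g) (b e : ℕ) (hj : j + b + e = j') :
    Kr E j' y w (E.mt g b j') := by
  unfold Kr at hg ⊢
  rw [mem_fam2 E h] at hg ⊢
  intro z
  have h1 : E.lev (E.mt g b j') z = (z 0 ^ e * z 1 ^ b) • E.lev g z := by
    ext i
    rw [lev_mt2 E g b e hj]
    rfl
  rw [h1, Matrix.mulVec_smul, hg z, smul_zero]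

theorem cf_mt (E : Bundle2 n) {j : ℤ} (j' : ℤ) (g : Idx E.β j → ℂ) (b m : ℕ) (i : Fin E.a)
    (h : m < (E.β i + j' + 1).toNat) :
    E.cf (E.mt g b j') m i = if b ≤ m then E.cf g (m - b) i else 0 := by
  have h5 : E.cf (E.mt g b j') m i = E.mt g b j' ⟨i, ⟨m, h⟩⟩ := dif_pos h
  rw [h5]
  rfl

theorem cf_mt_lt (E : Bundle2 n) {j : ℤ} (j' : ℤ) (g : Idx E.β j → ℂ) (b m : ℕ) (hm : m < b) :
    E.cf (E.mt g b j') m = 0 := by
  ext i
  by_cases h : m < (E.β i + j' + 1).toNat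
  · rw [cf_mt E j' g b m i h, if_neg (by omega)]
    rfl
  · exact dif_neg h

theorem mt_ne_zero (E : Bundle2 n) {j j' : ℤ} (g : Idx E.β j → ℂ) (b e : ℕ) (hj : j + b + e = j')
    (hg : g ≠ 0) : E.mt g b j' ≠ 0 := by
  obtain ⟨⟨i, m⟩, hm⟩ := Function.ne_iff.1 hg
  intro h0
  apply hm
  have hm2 : (m : ℕ) < (E.β i + j + 1).toNat := m.2
  have h1 := congrFun h0 ⟨i, ⟨(m : ℕ) + b, by omega⟩⟩
  simp only [Bundle2.mt, Pi.zero_apply] at h1
  rw [if_pos (by omega), Nat.add_sub_cancel] at h1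
  have h2 : E.cf g m i = g ⟨i, m⟩ := dif_pos m.2
  rw [h2] at h1
  exact h1

theorem gp_eq_zero (E : Bundle2 n) {j : ℤ} {g : Idx E.β j → ℂ} (h : L2.gp E g = 0) : g = 0 := by
  ext ⟨i, b⟩
  have h1 := congrFun h i
  have h2 : (fun b => g ⟨i, b⟩) = 0 := by
    apply L2.toPoly_injective (E.β i + j)
    rw [map_zero]
    exact h1
  exact congrFun h2 b

theorem evv_gp_zero (E : Bundle2 n) {j : ℤ} (g : Idx E.β j → ℂ) :
    evv (L2.gp E g) ![1, 0] = E.cf g 0 := by
  rw [L2.evv_gp]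
  ext i
  rw [lev_at_zero E g _ (by simp)]
  simp

/-- injectivity of the jets on a line of gap at most one -/
theorem kr_inj (E : Bundle2 n) {y w : Fin (n + 1) → ℂ} (h : LinearIndependent ℂ ![y, w])
    {p q b₀ : ℤ} {g₁ g₂ : Fin E.a → MvPolynomial (Fin 2) ℂ} (hg₁ : LineSec E y w p g₁)
    (hg₂ : LineSec E y w q g₂)
    (hli : ∀ z : Fin 2 → ℂ, z ≠ 0 → LinearIndependent ℂ ![evv g₁ z, evv g₂ z])
    (hqp : q ≤ p) (hpq : p ≤ q + 1) (u₁ u₂ : ℕ) (hu₁ : (u₁ : ℤ) = p - b₀) (hu₂ : (u₂ : ℤ) = q - b₀)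
    (μ lam : Fin E.a → ℂ) (hμ : μ ⬝ᵥ evv g₁ ![1, 0] ≠ 0)
    (hinj : ∀ u ∈ E.fib y, μ ⬝ᵥ u = 0 → lam ⬝ᵥ u = 0 → u = 0)
    {j : ℤ} (hj : j = -b₀ - 1) (g : Idx E.β j → ℂ) (hg : Kr E j y w g)
    (hμg : ∀ b < u₁, μ ⬝ᵥ E.cf g b = 0) (hlg : ∀ b < u₂, lam ⬝ᵥ E.cf g b = 0) : g = 0 := by
  have key : ∀ b, b < u₂ → E.cf g b = 0 := by
    intro b
    induction b using Nat.strong_induction_on with
    | _ b ih =>
      intro hb
      exact hinj _ (kr_cf E h hg b (fun b' hb' => ih b' hb' (hb'.trans hb))) (hμg b (by omega))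
        (hlg b hb)
  apply eq_zero_of_sh E g u₂ (j' := -(q + 1)) (by omega) key
  have h1 := kr_sh E h (j' := -(q + 1)) hg u₂ (by omega) key
  have h2 := lineSec_of_mem E h h1
  rw [neg_neg] at h2
  obtain ⟨H₁, H₂, h3, h4, h5⟩ := h2.decomp h hg₁ hg₂ hli
  have h6 : H₂ = 0 := HomZ.eq_zero_of_neg h4 (by omega)
  apply gp_eq_zero
  rcases hqp.eq_or_lt with h7 | h7
  · have h8 : H₁ = 0 := HomZ.eq_zero_of_neg h3 (by omega)
    funext i
    rw [h5, h6, h8]
    simp
  · have h8 : p - (q + 1) = 0 := by omega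
    rw [h8] at h3
    have h9 : evv (L2.gp E (E.sh g u₂ (-(q + 1)))) ![1, 0] = eval ![1, 0] H₁ • evv g₁ ![1, 0] := by
      ext i
      simp only [evv, h5, h6, zero_mul, add_zero, map_mul, Pi.smul_apply, smul_eq_mul]
    rw [evv_gp_zero, cf_zero_sh E g u₂ (by omega)] at h9
    have h10 := hμg u₂ (by omega)
    rw [h9, dotProduct_smul, smul_eq_mul] at h10
    have h11 : eval ![1, 0] H₁ = 0 := (mul_eq_zero.1 h10).resolve_right hμ
    have h12 : H₁ = 0 := by
      apply MvPolynomial.funext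
      intro x
      rw [HomZ.eval_const h3 x ![1, 0], h11, map_zero]
    funext i
    rw [h5, h6, h12]
    simp

end H932W
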