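import Pool.Agent.H932.V.Level
import Pool.Agent.H932.W.Kr

/-!
# Nonsplit bundles all of whose lines have the gap at most `n - 1`
-/

open MvPolynomial H960VB H960VB.Bundle2 Y208PT Pool.Agent.H106R3.VB H932V

namespace H932W

variable {n : ℕ}

/-- `E` does not split, the first Chern class is `c₁`, all lines have the gap at most `n - 1`. -/
structure Hyp (E : Bundle2 n) (c₁ : ℤ) : Prop where
  ns : ¬ E.Splits
  hc : ∀ A B : Fin (n + 1) → ℂ, LinearIndependent ℂ ![A, B] →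
      ∀ a b : ℤ, E.SplitsOn A B a b → a + b = c₁
  gap : ∀ A B : Fin (n + 1) → ℂ, LinearIndependent ℂ ![A, B] →
      ∀ a b : ℤ, E.SplitsOn A B a b → a - b ≤ (n : ℤ) - 1

theorem exists_fib (E : Bundle2 n) {P : Fin (n + 1) → ℂ} (hP : P ≠ 0) :
    ∃ ε ∈ E.fib P, ε ≠ 0 := by
  have h := E.rank_two P hP
  have h1 : 0 < Module.finrank ℂ (E.fib P) := by
    change 0 < Module.finrank ℂ (LinearMap.ker (Matrix.mulVecLin (evm E.B P)))
    omega
  rw [Module.finrank_pos_iff_exists_ne_zero] at h1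
  obtain ⟨⟨x, hx⟩, hx0⟩ := h1
  exact ⟨x, hx, fun h => hx0 (Subtype.ext h)⟩

/-- a type with `b ≤ a` -/
theorem exists_type (E : Bundle2 n) {P Q : Fin (n + 1) → ℂ} (hPQ : LinearIndependent ℂ ![P, Q]) :
    ∃ a b : ℤ, E.SplitsOn P Q a b ∧ b ≤ a := by
  obtain ⟨a, b, hab⟩ := splitsOn_exists E hPQ
  rcases le_total b a with h | h
  · exact ⟨a, b, hab, h⟩
  · exact ⟨b, a, SplitsOn.swap hab, h⟩

theorem lv_zero (E : Bundle2 n) {P Q : Fin (n + 1) → ℂ} (hPQ : LinearIndependent ℂ ![P, Q])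
    (ε : Fin E.a → ℂ) : Lv E P Q ε 0 := by
  obtain ⟨a, b, hab, hba⟩ := exists_type E hPQ
  refine ⟨a, b, hab, hba, ?_⟩
  rcases eq_or_lt_of_le hba with h | h
  · exact Or.inr ⟨by push_cast; omega, Or.inl rfl⟩
  · exact Or.inl (by push_cast; omega)

variable {E : Bundle2 n} {c₁ : ℤ}

/-- a line of the gap `n - 1` with the prescribed direction through every point -/
theorem Hyp.dir (H : Hyp E c₁) (hn : 2 ≤ n) {P : Fin (n + 1) → ℂ} (hP : P ≠ 0) {ε : Fin E.a → ℂ}
    (hε : ε ∈ E.fib P) (hε0 : ε ≠ 0) :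
    ∃ Q, LinearIndependent ℂ ![P, Q] ∧ ∃ a b : ℤ, E.SplitsOn P Q a b ∧ a - b = (n : ℤ) - 1 ∧
      ∃ g : Fin E.a → MvPolynomial (Fin 2) ℂ, LineSec E P Q a g ∧ evv g ![1, 0] = ε := by
  obtain ⟨Q, -, hPQ, a, b, hab, hba, h⟩ := level E H.ns c₁ H.hc P hP ε hε hε0 0 (n - 1) ⊤
    trivial (by rw [finrank_top, Module.finrank_fin_fun]; omega) (fun Q _ hPQ => lv_zero E hPQ ε)
  have h1 := H.gap P Q hPQ a b hab
  refine ⟨Q, hPQ, a, b, hab, ?_, ?_⟩
  · rcases h with h | ⟨h, -⟩ <;> push_cast at h <;> omega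
  · rcases h with h | ⟨-, h | h⟩
    · push_cast at h
      omega
    · omega
    · exact h

/-- the parity -/
theorem Hyp.parity (H : Hyp E c₁) (hn : 2 ≤ n) : ∃ q : ℤ, 2 * q = c₁ + ((n : ℤ) - 1) := by
  have hP : (Fin.cons 1 0 : Fin (n + 1) → ℂ) ≠ 0 := by
    intro h
    have := congrFun h 0
    simp at this
  obtain ⟨ε, hε, hε0⟩ := exists_fib E hP
  obtain ⟨Q, hPQ, a, b, hab, hg, -⟩ := H.dir hn hP hε hε0
  have := H.hc _ _ hPQ a b hab
  exact ⟨a, by omega⟩

/-- a line of the gap at most one through every point -/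
theorem Hyp.low (H : Hyp E c₁) (hn : 2 ≤ n) {P : Fin (n + 1) → ℂ} (hP : P ≠ 0) :
    ∃ Q, LinearIndependent ℂ ![P, Q] ∧ ∃ a b : ℤ, E.SplitsOn P Q a b ∧ b ≤ a ∧ a ≤ b + 1 := by
  obtain ⟨ε, hε, hε0⟩ := exists_fib E hP
  by_contra hcon
  push Not at hcon
  obtain ⟨Q, -, hPQ, a, b, hab, hba, h⟩ := level E H.ns c₁ H.hc P hP ε hε hε0 1 (n - 1) ⊤
    trivial (by rw [finrank_top, Module.finrank_fin_fun]; omega) (by
      intro Q _ hPQ
      obtain ⟨a, b, hab, hba⟩ := exists_type E hPQ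
      have h1 := hcon Q hPQ a b hab hba
      exact ⟨a, b, hab, hba, Or.inl (by push_cast; omega)⟩)
  have h1 := H.gap P Q hPQ a b hab
  rcases h with h | ⟨h, -⟩ <;> push_cast at h <;> omega

/-- a line of the gap `n - 3` -/
theorem Hyp.mid (H : Hyp E c₁) (hn : 4 ≤ n) {P : Fin (n + 1) → ℂ} (hP : P ≠ 0) :
    ∃ Q, LinearIndependent ℂ ![P, Q] ∧ ∃ a b : ℤ, E.SplitsOn P Q a b ∧ a - b = (n : ℤ) - 3 := by
  obtain ⟨ε, hε, hε0⟩ := exists_fib E hP
  obtain ⟨q, hq⟩ := H.parity (by omega)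
  by_contra hcon
  push Not at hcon
  -- subspaces of codimension two
  have h2 : ∀ M : Submodule ℂ (Fin (n + 1) → ℂ), P ∈ M → Module.finrank ℂ M = n - 1 →
      ∃ Q ∈ M, LinearIndependent ℂ ![P, Q] ∧ Lv E P Q ε (n - 2) := by
    intro M hPM hM
    obtain ⟨Q, hQM, hPQ, a, b, hab, hba, h⟩ := level E H.ns c₁ H.hc P hP ε hε hε0 0 (n - 3) M
      hPM (by omega) (fun Q _ hPQ => lv_zero E hPQ ε)
    refine ⟨Q, hQM, hPQ, a, b, hab, hba, Or.inl ?_⟩
    have h1 := hcon Q hPQ a b hab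
    have h3 := H.hc P Q hPQ a b hab
    rcases h with h | ⟨h, -⟩ <;> push_cast at h <;> push_cast <;> omega
  have h1 : ∀ M : Submodule ℂ (Fin (n + 1) → ℂ), P ∈ M → Module.finrank ℂ M = n →
      ∃ Q ∈ M, LinearIndependent ℂ ![P, Q] ∧ Lv E P Q ε (n - 1) := by
    intro M hPM hM
    obtain ⟨Q, hQ, hQi⟩ := exists_lines M hPM hP (by omega) (fun Q => Lv E P Q ε (n - 2)) (by
      intro M' hM' hPM' hMf
      exact h2 M' hPM' (by omega))
    have h := step E H.ns c₁ H.hc P hP ε hε hε0 (n - 2) M hPM (by omega) Q hQ hQi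
    rwa [show n - 2 + 1 = n - 1 by omega] at h
  obtain ⟨Q, hQ, hQi⟩ := exists_lines (⊤ : Submodule ℂ (Fin (n + 1) → ℂ)) trivial hP
    (by rw [finrank_top, Module.finrank_fin_fun]; omega) (fun Q => Lv E P Q ε (n - 1)) (by
      intro M' hM' hPM' hMf
      rw [finrank_top, Module.finrank_fin_fun] at hMf
      exact h1 M' hPM' (by omega))
  obtain ⟨Q, -, hPQ, a, b, hab, hba, h⟩ := step E H.ns c₁ H.hc P hP ε hε hε0 (n - 1) ⊤ trivial
    (by rw [finrank_top, Module.finrank_fin_fun]; omega) Q hQ hQi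
  have h3 := H.gap P Q hPQ a b hab
  rcases h with h | ⟨h, -⟩ <;> push_cast at h <;> omega

/-- restriction to a linear subspace of the same dimension (a change of coordinates) -/
theorem Hyp.pull (H : Hyp E c₁) (hn : 2 ≤ n) (T : (Fin (n + 1) → ℂ) →ₗ[ℂ] (Fin (n + 1) → ℂ))
    (hT : Function.Injective T) : Hyp (E.pull T hT) c₁ := by
  have hli : ∀ A B : Fin (n + 1) → ℂ, LinearIndependent ℂ ![A, B] →
      LinearIndependent ℂ ![T A, T B] := by
    intro A B h
    have h2 := h.map' T (LinearMap.ker_eq_bot.mpr hT)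
    have h3 : (T ∘ ![A, B]) = ![T A, T B] := by
      ext i
      fin_cases i <;> simp
    rwa [h3] at h2
  refine ⟨fun h => H.ns (splits_of_pull 0 n n hn (by omega) E T hT h), ?_, ?_⟩
  · intro A B hAB a b hab
    exact H.hc _ _ (hli A B hAB) a b (splitsOn_of_pull E T hT A B a b hab)
  · intro A B hAB a b hab
    exact H.gap _ _ (hli A B hAB) a b (splitsOn_of_pull E T hT A B a b hab)

/-- move a line to the coordinate line -/
theorem exists_move2 {m : ℕ} {A B : Fin (m + 2) → ℂ} (h : LinearIndependent ℂ ![A, B]) :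
    ∃ T : (Fin (m + 2) → ℂ) →ₗ[ℂ] (Fin (m + 2) → ℂ), Function.Injective T ∧
      T (Fin.cons 1 0) = A ∧ T (Fin.cons 0 (Fin.cons 1 0)) = B := by
  obtain ⟨T₁, hT₁⟩ := exists_move A (h.ne_zero 0)
  have hB : Fin.tail (T₁.symm B) ≠ 0 := by
    intro h0
    have h1 : T₁.symm B = (T₁.symm B) 0 • (Fin.cons 1 0 : Fin (m + 2) → ℂ) := by
      ext i
      refine Fin.cases ?_ (fun i => ?_) i
      · simp
      · have := congrFun h0 i
        simpa [Fin.tail] using this
    have h2 : B = (T₁.symm B) 0 • A := by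
      rw [← hT₁, ← map_smul, ← h1, LinearEquiv.apply_symm_apply]
    rw [LinearIndependent.pair_iff] at h
    have h3 := h ((T₁.symm B) 0) (-1) (by rw [← h2]; simp)
    have h4 := h3.2
    norm_num at h4
  obtain ⟨T₂, hT₂⟩ := exists_move (Fin.tail (T₁.symm B)) hB
  let S : (Fin (m + 2) → ℂ) →ₗ[ℂ] (Fin (m + 2) → ℂ) :=
    { toFun := fun x => Fin.cons (x 0 + x 1 * (T₁.symm B) 0) (T₂ (Fin.tail x))
      map_add' := by
        intro x y
        have h1 : Fin.tail (x + y) = Fin.tail x + Fin.tail y := rfl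
        rw [h1, map_add]
        ext i
        refine Fin.cases ?_ (fun i => ?_) i
        · simp
          ring
        · simp
      map_smul' := by
        intro c x
        have h1 : Fin.tail (c • x) = c • Fin.tail x := rfl
        rw [h1, map_smul]
        ext i
        refine Fin.cases ?_ (fun i => ?_) i
        · simp
          ring
        · simp }
  have hS : ∀ x, S x = Fin.cons (x 0 + x 1 * (T₁.symm B) 0) (T₂ (Fin.tail x)) := fun x => rfl
  refine ⟨T₁.toLinearMap ∘ₗ S, ?_, ?_, ?_⟩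
  · refine T₁.injective.comp ?_
    rw [injective_iff_map_eq_zero]
    intro x hx
    rw [hS] at hx
    have h1 : T₂ (Fin.tail x) = 0 := by
      ext i
      have := congrFun hx i.succ
      simpa using this
    have h2 : Fin.tail x = 0 := by simpa using h1
    have h3 : x 1 = 0 := congrFun h2 0
    have h4 := congrFun hx 0
    simp only [Fin.cons_zero, Pi.zero_apply, h3, zero_mul, add_zero] at h4
    ext i
    refine Fin.cases ?_ (fun i => ?_) i
    · exact h4
    · exact congrFun h2 i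
  · rw [LinearMap.comp_apply, hS]
    have h1 : Fin.tail (Fin.cons 1 0 : Fin (m + 2) → ℂ) = 0 := rfl
    have h2 : (Fin.cons 1 0 : Fin (m + 2) → ℂ) 1 = 0 := rfl
    rw [h1, map_zero, h2]
    simp [hT₁]
  · rw [LinearMap.comp_apply, hS]
    have h1 : Fin.tail (Fin.cons 0 (Fin.cons 1 0) : Fin (m + 2) → ℂ) = Fin.cons 1 0 := rfl
    have h2 : (Fin.cons 0 (Fin.cons 1 0) : Fin (m + 2) → ℂ) 1 = 1 := rfl
    rw [h1, hT₂, h2]
    have h3 : (Fin.cons ((Fin.cons 0 (Fin.cons 1 0) : Fin (m + 2) → ℂ) 0 + 1 * T₁.symm B 0)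
        (Fin.tail (T₁.symm B)) : Fin (m + 2) → ℂ) = T₁.symm B := by
      ext i
      refine Fin.cases ?_ (fun i => ?_) i
      · simp
      · simp [Fin.tail]
    rw [h3]
    simp

/-- the type does not depend on the choice of the two points of the line -/
theorem SplitsOn.lin {E : Bundle2 n} {P Q y w : Fin (n + 1) → ℂ} {a b : ℤ}
    (h : E.SplitsOn P Q a b) (y0 y1 w0 w1 : ℂ) (hy : y = y0 • P + y1 • Q)
    (hw : w = w0 • P + w1 • Q) (hyw : LinearIndependent ℂ ![y, w]) : E.SplitsOn y w a b := by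
  obtain ⟨g₁, g₂, hg₁, hg₂, hl⟩ := h
  let M : (Fin (1 + 1) → ℂ) →ₗ[ℂ] (Fin (1 + 1) → ℂ) :=
    { toFun := fun z => ![y0 * z 0 + w0 * z 1, y1 * z 0 + w1 * z 1]
      map_add' := by
        intro x y
        ext i
        fin_cases i <;> simp <;> ring
      map_smul' := by
        intro c x
        ext i
        fin_cases i <;> simp <;> ring }
  have hM : ∀ z, M z = ![y0 * z 0 + w0 * z 1, y1 * z 0 + w1 * z 1] := fun z => rfl
  have hMp : ∀ z : Fin 2 → ℂ, (M z) 0 • P + (M z) 1 • Q = z 0 • y + z 1 • w := by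
    intro z
    rw [hM, hy, hw]
    ext i
    simp
    ring
  have hM0 : ∀ z : Fin 2 → ℂ, z ≠ 0 → M z ≠ 0 := by
    intro z hz h0
    have h1 := hMp z
    rw [h0] at h1
    simp only [Pi.zero_apply, zero_smul, add_zero] at h1
    exact line_ne_zero hyw hz h1.symm
  have hev : ∀ (g : Fin E.a → MvPolynomial (Fin 2) ℂ) (z : Fin 2 → ℂ),
      evv (fun i => lsub (m := 1) (n := 1) M (g i)) z = evv g (M z) := by
    intro g z
    ext i
    exact eval_lsub M z (g i)
  refine ⟨fun i => lsub (m := 1) (n := 1) M (g₁ i), fun i => lsub (m := 1) (n := 1) M (g₂ i),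
    fun i => homZ_lsub M (hg₁ i), fun i => homZ_lsub M (hg₂ i), fun z hz => ?_⟩
  obtain ⟨h1, h2, h3⟩ := hl (M z) (hM0 z hz)
  rw [hMp] at h1 h2
  refine ⟨?_, ?_, ?_⟩
  · rw [hev]
    exact h1
  · rw [hev]
    exact h2
  · rw [hev, hev]
    exact h3

end H932W
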