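import Pool.Agent.H932.W.Kr

/-!
# The bound for the degree of the Plücker vector, from the lines through one point
-/

open MvPolynomial H960VB H960VB.Bundle2 Y208PT Pool.Agent.H106R3.VB

namespace H932W

variable {n : ℕ}

/-- the order of the coefficient in the row `s` -/
def bs (G : ℕ) (s : Fin G) : ℕ := if (s : ℕ) < (G + 1) / 2 then (s : ℕ) else (s : ℕ) - (G + 1) / 2

/-- sum of the orders -/
def N0 (G : ℕ) : ℤ := ∑ s : Fin G, (bs G s : ℤ)

theorem N0_eq (G : ℕ) : 2 * N0 G = (((G + 1) / 2 : ℕ) : ℤ) * ((((G + 1) / 2 : ℕ) : ℤ) - 1) +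
    ((G / 2 : ℕ) : ℤ) * (((G / 2 : ℕ) : ℤ) - 1) := by
  have hsum : ∀ m : ℕ, 2 * ∑ i ∈ Finset.range m, (i : ℤ) = (m : ℤ) * ((m : ℤ) - 1) := by
    intro m
    induction m with
    | zero => simp
    | succ m ih =>
      rw [Finset.sum_range_succ, mul_add, ih]
      push_cast
      ring
  unfold N0 bs
  rw [Fin.sum_univ_eq_sum_range (fun s : ℕ => (((if s < (G + 1) / 2 then s else s - (G + 1) / 2) : ℕ) : ℤ)) G]
  have hG : G = (G + 1) / 2 + G / 2 := by omega
  conv_lhs => rw [show Finset.range G = Finset.range ((G + 1) / 2 + G / 2) by rw [← hG]]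
  rw [Finset.sum_range_add, mul_add, ← hsum, ← hsum]
  congr 1
  · congr 1
    refine Finset.sum_congr rfl fun s hs => ?_
    rw [if_pos (Finset.mem_range.1 hs)]
  · congr 1
    refine Finset.sum_congr rfl fun s _ => ?_
    rw [if_neg (by omega), Nat.add_sub_cancel_left]

theorem poly_zero_of {q : Polynomial ℂ} {c : ℂ} {k : ℤ} (hk : k < 0) 
    (h : ∀ t : ℂ, t ≠ 0 → q.eval t = t ^ k * c) : c = 0 := by
  obtain ⟨m, hm⟩ : ∃ m : ℕ, k = -((m : ℤ) + 1) := ⟨(-k - 1).toNat, by omega⟩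
  have h1 : Polynomial.X ^ (m + 1) * q = Polynomial.C c := by
    apply Polynomial.eq_of_infinite_eval_eq
    apply Set.Infinite.mono (s := {t : ℂ | t ≠ 0})
    · intro t ht
      change Polynomial.eval t _ = Polynomial.eval t _
      rw [Polynomial.eval_mul, Polynomial.eval_pow, Polynomial.eval_X, Polynomial.eval_C, h t ht,
        hm, zpow_neg, ← mul_assoc]
      have h2 : t ^ ((m : ℤ) + 1) = t ^ (m + 1) := by exact_mod_cast zpow_natCast t (m + 1)
      rw [h2, mul_inv_cancel₀ (pow_ne_zero _ ht), one_mul]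
    · exact (Set.finite_singleton (0 : ℂ)).infinite_compl
  have h3 := congrArg (Polynomial.eval 0) h1
  simpa using h3.symm

theorem nu_bound (E : Bundle2 n) (x₀ : Fin (n + 1) → ℂ) (G : ℕ) (hG : 2 ≤ G) (a b₀ j : ℤ)
    (hab : a - b₀ = G) (hj : j = -b₀ - 1)
    (P : (Fin G → Idx E.β j) → (Fin (n + 1) → ℂ) → ℂ) (δ : ℤ)
    (hray : ∀ J w, ∃ q : Polynomial ℂ, ∀ t, q.eval t = P J (t • w))
    (hsc : ∀ J w (t : ℂ), t ≠ 0 → P J (t • w) = t ^ ((∑ s, (((J s).2 : ℕ) : ℤ)) - δ) * P J w)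
    (hwed : ∀ w, LinearIndependent ℂ ![x₀, w] → ∀ u : Fin G → Idx E.β j → ℂ,
      (∀ s, Kr E j x₀ w (u s)) → ∃ κ : ℂ, ∀ J, Wd u J = κ * P J w)
    (hdim : ∀ w, LinearIndependent ℂ ![x₀, w] →
      Module.finrank ℂ (LinearMap.ker (Matrix.mulVecLin (evm (fam2 E j) (Sum.elim x₀ w)))) = G)
    (w₁ : Fin (n + 1) → ℂ) (hw₁ : LinearIndependent ℂ ![x₀, w₁]) (p q : ℤ)
    (hpq : E.SplitsOn x₀ w₁ p q) (hp : q ≤ p) (hq : p ≤ q + 1) (hs : p + q = a + b₀)
    (w₂ : Fin (n + 1) → ℂ) (hw₂ : LinearIndependent ℂ ![x₀, w₂]) (f : Idx E.β (-a) → ℂ)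
    (hf : Kr E (-a) x₀ w₂ f) (hf0 : f ≠ 0) : δ + 1 ≤ N0 G := by
  classical
  obtain ⟨g₁, g₂, hg₁', hg₂', hl⟩ := hpq
  have hg₁ : LineSec E x₀ w₁ p g₁ := ⟨hg₁', fun z hz => (hl z hz).1⟩
  have hg₂ : LineSec E x₀ w₁ q g₂ := ⟨hg₂', fun z hz => (hl z hz).2.1⟩
  have hz10 : (![1, 0] : Fin 2 → ℂ) ≠ 0 := by
    intro h
    have := congrFun h 0
    simp at this
  have he1 : evv g₁ ![1, 0] ∈ E.fib x₀ := by
    have := (hl _ hz10).1
    simpa using this
  have he10 : evv g₁ ![1, 0] ≠ 0 := (hl _ hz10).2.2.ne_zero 0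
  -- functionals
  obtain ⟨μ, lam, hμ, hinj⟩ : ∃ μ lam : Fin E.a → ℂ, μ ⬝ᵥ evv g₁ ![1, 0] ≠ 0 ∧
      ∀ u ∈ E.fib x₀, μ ⬝ᵥ u = 0 → lam ⬝ᵥ u = 0 → u = 0 := by
    obtain ⟨e', μ, lam, -, h1, -, -, -, h5⟩ :=
      (E.pull (m := 1) (lineMap x₀ w₁) (lineMap_injective hw₁)).exists_dual (evv g₁ ![1, 0])
        (by rw [fib_pull, lineMap_cons0]; exact he1) he10
    refine ⟨μ, lam, ?_, ?_⟩
    · intro h
      exact one_ne_zero (h1.symm.trans h)
    · intro u hu h2 h3
      refine h5 u ?_ h2 h3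
      rw [fib_pull, lineMap_cons0]
      exact hu
  set u₁ : ℕ := (G + 1) / 2 with hu₁
  set u₂ : ℕ := G / 2 with hu₂
  let fs : Fin G → Fin E.a → ℂ := fun s => if (s : ℕ) < u₁ then μ else lam
  let N : Fin G → Idx E.β j → ℂ := fun s => E.row j (bs G s) (fs s)
  have hN : ∀ s (g : Idx E.β j → ℂ), ∑ x, N s x * g x = fs s ⬝ᵥ E.cf g (bs G s) :=
    fun s g => E.row_sum _ _ g
  let ν : (Fin (n + 1) → ℂ) → ℂ := fun w => ∑ J : Fin G → Idx E.β j, (∏ s, N s (J s)) * P J w
  have hνsc : ∀ w (t : ℂ), t ≠ 0 → ν (t • w) = t ^ (N0 G - δ) * ν w := by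
    intro w t ht
    simp only [ν, Finset.mul_sum]
    refine Finset.sum_congr rfl fun J _ => ?_
    by_cases h0 : ∏ s, N s (J s) = 0
    · rw [h0]; ring
    · rw [hsc J w t ht]
      have h1 : ∑ s, (((J s).2 : ℕ) : ℤ) = N0 G := by
        unfold N0
        refine Finset.sum_congr rfl fun s _ => ?_
        have h2 := (Finset.prod_ne_zero_iff.1 h0) s (Finset.mem_univ s)
        simp only [N, row] at h2
        by_contra h3
        apply h2
        rw [if_neg]
        intro h4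
        exact h3 (by rw [h4])
      rw [h1]
      ring
  have hνray : ∀ w, ∃ q : Polynomial ℂ, ∀ t, q.eval t = ν (t • w) := by
    intro w
    choose qq hqq using fun J => hray J w
    refine ⟨∑ J : Fin G → Idx E.β j, Polynomial.C (∏ s, N s (J s)) * qq J, fun t => ?_⟩
    rw [Polynomial.eval_finsetSum]
    refine Finset.sum_congr rfl fun J _ => ?_
    rw [Polynomial.eval_mul, Polynomial.eval_C, hqq]
  -- the determinant of the rows on a frame
  have hdet : ∀ w, LinearIndependent ℂ ![x₀, w] → ∀ u : Fin G → Idx E.β j → ℂ,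
      (∀ s, Kr E j x₀ w (u s)) → ∃ κ : ℂ, (∀ J, Wd u J = κ * P J w) ∧
        Matrix.det (Matrix.of fun a t => ∑ x, N t x * u a x) = κ * ν w := by
    intro w hw u hu
    obtain ⟨κ, hκ⟩ := hwed w hw u hu
    refine ⟨κ, hκ, ?_⟩
    rw [det_expand]
    simp only [ν, Finset.mul_sum]
    refine Finset.sum_congr rfl fun J _ => ?_
    rw [hκ]
    ring
  have hsumN : ∀ (u : Fin G → Idx E.β j → ℂ) (c : Fin G → ℂ) t,
      ∑ x, N t x * (∑ a, c a • u a) x = ∑ a, c a * ∑ x, N t x * u a x := by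
    intro u c t
    simp only [Finset.sum_apply, Pi.smul_apply, smul_eq_mul, Finset.mul_sum]
    rw [Finset.sum_comm]
    refine Finset.sum_congr rfl fun a _ => Finset.sum_congr rfl fun x _ => ?_
    ring
  -- not zero at `w₁`
  have hν1 : ν w₁ ≠ 0 := by
    intro h0
    obtain ⟨u, hu1, hu2, -⟩ := exists_ker_basis _ (hdim w₁ hw₁)
    obtain ⟨κ, -, hκ⟩ := hdet w₁ hw₁ u hu2
    rw [h0, mul_zero, ← Matrix.exists_vecMul_eq_zero_iff] at hκ
    obtain ⟨c, hc0, hc⟩ := hκ
    apply hc0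
    have h1 : ∀ t, ∑ x, N t x * (∑ a, c a • u a) x = 0 := by
      intro t
      rw [hsumN]
      have h2 := congrFun hc t
      simpa [Matrix.vecMul, dotProduct] using h2
    have h2 : ∑ a, c a • u a = 0 := by
      refine kr_inj E hw₁ (b₀ := b₀) hg₁ hg₂ (fun z hz => (hl z hz).2.2) hp hq u₁ u₂ (by omega)
        (by omega) μ lam hμ hinj hj _ ?_ ?_ ?_
      · unfold Kr
        rw [Matrix.mulVec_sum]
        refine Finset.sum_eq_zero fun a _ => ?_
        rw [Matrix.mulVec_smul, hu2, smul_zero]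
      · intro b hb
        have h3 := h1 ⟨b, by omega⟩
        rw [hN] at h3
        simp only [fs, bs] at h3
        rw [if_pos hb, if_pos (by omega)] at h3
        exact h3
      · intro b hb
        have h3 := h1 ⟨b + u₁, by omega⟩
        rw [hN] at h3
        simp only [fs, bs] at h3
        rw [if_neg (by omega), if_neg (by omega), ← hu₁, Nat.add_sub_cancel] at h3
        exact h3
    have h3 := Fintype.linearIndependent_iff.1 hu1 c h2
    funext a
    exact h3 a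
  -- zero at `w₂`
  have hν2 : ν w₂ = 0 := by
    obtain ⟨u, hu1, hu2, hu3⟩ := exists_ker_basis _ (hdim w₂ hw₂)
    obtain ⟨κ, hκ1, hκ⟩ := hdet w₂ hw₂ u hu2
    have hg : Kr E j x₀ w₂ (E.mt f u₁ j) := kr_mt E hw₂ hf u₁ (G - 1 - u₁) (by omega)
    obtain ⟨c, hc⟩ := hu3 _ hg
    have h1 : Matrix.det (Matrix.of fun a t => ∑ x, N t x * u a x) = 0 := by
      rw [← Matrix.exists_vecMul_eq_zero_iff]
      refine ⟨c, ?_, ?_⟩
      · rintro rfl
        apply mt_ne_zero E (j' := j) f u₁ (G - 1 - u₁) (by omega) hf0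
        rw [hc]
        simp
      · funext t
        have h2 := hsumN u c t
        rw [← hc, hN, cf_mt_lt, dotProduct_zero] at h2
        · simp only [Matrix.vecMul, dotProduct, Matrix.of_apply, Pi.zero_apply]
          exact h2.symm
        · simp only [bs]
          have := t.2
          split_ifs <;> omega
    rw [h1] at hκ
    obtain ⟨J, hJ⟩ := exists_Wd_ne u hu1
    rcases mul_eq_zero.1 hκ.symm with h2 | h2
    · exfalso
      apply hJ
      rw [hκ1, h2, zero_mul]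
    · exact h2
  by_contra hcon
  push Not at hcon
  obtain ⟨q₁, hq₁⟩ := hνray w₁
  rcases (show N0 G - δ < 0 ∨ N0 G - δ = 0 by omega) with h1 | h1
  · apply hν1
    refine poly_zero_of h1 (q := q₁) fun t ht => ?_
    rw [hq₁, hνsc _ _ ht]
  · obtain ⟨q₂, hq₂⟩ := hνray w₂
    have hconst : ∀ (q : Polynomial ℂ) (c : ℂ), (∀ t, t ≠ 0 → q.eval t = c) → q.eval 0 = c := by
      intro q c h
      have h2 : q = Polynomial.C c := by
        apply Polynomial.eq_of_infinite_eval_eq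
        apply Set.Infinite.mono (s := {t : ℂ | t ≠ 0})
        · intro t ht
          change Polynomial.eval t _ = Polynomial.eval t _
          rw [h t ht, Polynomial.eval_C]
        · exact (Set.finite_singleton (0 : ℂ)).infinite_compl
      rw [h2, Polynomial.eval_C]
    have h2 := hconst q₁ (ν w₁) (fun t ht => by rw [hq₁, hνsc _ _ ht, h1, zpow_zero, one_mul])
    have h3 := hconst q₂ (ν w₂) (fun t ht => by rw [hq₂, hνsc _ _ ht, h1, zpow_zero, one_mul])
    rw [hq₁, zero_smul] at h2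
    rw [hq₂, zero_smul, h2] at h3
    rw [hν2] at h3
    exact hν1 h3

end H932W
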