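import Pool.Agent.H932.W.Plu
import Pool.Agent.H932.V.Dir

/-!
# Sections on all lines as the kernel of a polynomial matrix in the coordinates of two points
-/

open MvPolynomial H960VB H960VB.Bundle2 Y208PT Pool.Agent.H106R3.VB

namespace H932W

variable {n : ℕ}

/-- the variables: coordinates of two points -/
abbrev V2 (n : ℕ) : Type := Fin (n + 1) ⊕ Fin (n + 1)

/-- substitution of the point `Y + T W` -/
noncomputable def sb (n : ℕ) : MvPolynomial (Fin (n + 1)) ℂ →ₐ[ℂ]
    Polynomial (MvPolynomial (V2 n) ℂ) :=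
  aeval (fun l => Polynomial.C (X (Sum.inl l)) + Polynomial.C (X (Sum.inr l)) * Polynomial.X)

/-- substitution of the point `y + T w` -/
noncomputable def lp (y w : Fin (n + 1) → ℂ) : MvPolynomial (Fin (n + 1)) ℂ →ₐ[ℂ] Polynomial ℂ :=
  aeval (fun l => Polynomial.C (y l) + Polynomial.C (w l) * Polynomial.X)

theorem sb_map (y w : Fin (n + 1) → ℂ) (p : MvPolynomial (Fin (n + 1)) ℂ) :
    (sb n p).map (eval (Sum.elim y w)) = lp y w p := by
  have h : (Polynomial.mapRingHom (eval (Sum.elim y w))).comp (sb n).toRingHom =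
      (lp y w).toRingHom := by
    apply MvPolynomial.ringHom_ext
    · intro c
      have h1 : (sb n).toRingHom (C c) = Polynomial.C (C c) := AlgHom.commutes (sb n) c
      have h2 : (lp y w).toRingHom (C c) = Polynomial.C c := AlgHom.commutes (lp y w) c
      rw [RingHom.comp_apply, h1, h2]
      simp
    · intro i
      have h1 : (sb n).toRingHom (X i) = Polynomial.C (X (Sum.inl i)) +
          Polynomial.C (X (Sum.inr i)) * Polynomial.X := by
        change sb n (X i) = _
        rw [sb, aeval_X]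
      have h2 : (lp y w).toRingHom (X i) = Polynomial.C (y i) + Polynomial.C (w i) * Polynomial.X := by
        change lp y w (X i) = _
        rw [lp, aeval_X]
      rw [RingHom.comp_apply, h1, h2]
      simp
  exact congrArg (fun f => f p) h

theorem eval_lp (y w : Fin (n + 1) → ℂ) (t : ℂ) (p : MvPolynomial (Fin (n + 1)) ℂ) :
    (lp y w p).eval t = eval (fun l => y l + w l * t) p := by
  have h : (Polynomial.evalRingHom t).comp (lp y w).toRingHom =
      (eval (fun l => y l + w l * t) : MvPolynomial (Fin (n + 1)) ℂ →+* ℂ) := by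
    apply MvPolynomial.ringHom_ext
    · intro c
      have h2 : (lp y w).toRingHom (C c) = Polynomial.C c := AlgHom.commutes (lp y w) c
      rw [RingHom.comp_apply, h2]
      simp
    · intro i
      have h2 : (lp y w).toRingHom (X i) = Polynomial.C (y i) + Polynomial.C (w i) * Polynomial.X := by
        change lp y w (X i) = _
        rw [lp, aeval_X]
      rw [RingHom.comp_apply, h2]
      simp
  exact congrArg (fun f => f p) h

theorem coeff_eval_sb (y w : Fin (n + 1) → ℂ) (m : ℕ) (p : MvPolynomial (Fin (n + 1)) ℂ) :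
    eval (Sum.elim y w) ((sb n p).coeff m) = (lp y w p).coeff m := by
  rw [← sb_map, Polynomial.coeff_map]

theorem natDegree_lp (y w : Fin (n + 1) → ℂ) {p : MvPolynomial (Fin (n + 1)) ℂ} {d : ℕ}
    (hp : p.IsHomogeneous d) : (lp y w p).natDegree ≤ d := by
  have h := aeval_natDegree_le (m := d) (n := 1) p hp.totalDegree_le
    (fun l => Polynomial.C (y l) + Polynomial.C (w l) * Polynomial.X) (fun i => by
      refine (Polynomial.natDegree_add_le _ _).trans ?_
      rw [Polynomial.natDegree_C]
      exact max_le (by omega) ((Polynomial.natDegree_C_mul_le _ _).trans Polynomial.natDegree_X_le))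
  rw [mul_one] at h
  exact h

/-- The matrix of the linear system of the sections of `E(j)` on the line through two points,
polynomial in the coordinates of the points. -/
noncomputable def fam2 (E : Bundle2 n) (j : ℤ) :
    Matrix (Idx E.γ j) (Idx E.β j) (MvPolynomial (V2 n) ℂ) := fun c b =>
  if (b.2 : ℕ) ≤ (c.2 : ℕ) then (sb n (E.B c.1 b.1)).coeff ((c.2 : ℕ) - (b.2 : ℕ)) else 0

/-- weight of the first point -/
def wtY (n : ℕ) : V2 n → ℕ := Sum.elim (fun _ => 1) (fun _ => 0)

/-- weight of the second point -/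
def wtW (n : ℕ) : V2 n → ℕ := Sum.elim (fun _ => 0) (fun _ => 1)

theorem wtY_act (t : ℂ) (x : V2 n → ℂ) : (fun i => t ^ wtY n i * x i) =
    Sum.elim (t • (x ∘ Sum.inl)) (x ∘ Sum.inr) := by
  funext i
  rcases i with i | i <;> simp [wtY]

theorem wtW_act (t : ℂ) (x : V2 n → ℂ) : (fun i => t ^ wtW n i * x i) =
    Sum.elim (x ∘ Sum.inl) (t • (x ∘ Sum.inr)) := by
  funext i
  rcases i with i | i <;> simp [wtW]

theorem elim_self (x : V2 n → ℂ) : Sum.elim (x ∘ Sum.inl) (x ∘ Sum.inr) = x := by
  funext i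
  rcases i with i | i <;> rfl

theorem coeff_lp_smul_right (y w : Fin (n + 1) → ℂ) (t : ℂ) (m : ℕ)
    (p : MvPolynomial (Fin (n + 1)) ℂ) :
    (lp y (t • w) p).coeff m = t ^ m * (lp y w p).coeff m := by
  have h : lp y (t • w) p = (lp y w p).comp (Polynomial.C t * Polynomial.X) := by
    apply Polynomial.funext
    intro s
    rw [Polynomial.eval_comp, eval_lp, eval_lp]
    congr 1
    congr 1
    funext l
    simp
    ring
  rw [h, Polynomial.comp_C_mul_X_coeff, mul_comm]

theorem coeff_lp_smul_left (y w : Fin (n + 1) → ℂ) (t : ℂ) (ht : t ≠ 0) (m : ℕ)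
    {p : MvPolynomial (Fin (n + 1)) ℂ} {d : ℕ} (hp : p.IsHomogeneous d) (hm : m ≤ d) :
    (lp (t • y) w p).coeff m = t ^ (d - m) * (lp y w p).coeff m := by
  have h : lp (t • y) w p = Polynomial.C (t ^ d) * lp y (t⁻¹ • w) p := by
    apply Polynomial.funext
    intro s
    rw [Polynomial.eval_mul, Polynomial.eval_C, eval_lp, eval_lp]
    have h1 : (fun l => (t • y) l + w l * s) = t • (fun l => y l + (t⁻¹ • w) l * s) := by
      funext l
      simp
      field_simp
    rw [h1]
    have h2 := Y208PT.eval_smul_hom hp t (fun l => y l + (t⁻¹ • w) l * s)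
    exact h2
  rw [h, Polynomial.coeff_C_mul, coeff_lp_smul_right, ← mul_assoc]
  congr 1
  rw [inv_pow, ← div_eq_mul_inv, pow_sub₀ t ht hm, div_eq_mul_inv]

theorem fam2_homW (E : Bundle2 n) (j : ℤ) (c : Idx E.γ j) (b : Idx E.β j) :
    HomW (wtW n) (fam2 E j c b) (((c.2 : ℕ) : ℤ) - ((b.2 : ℕ) : ℤ)) := by
  unfold fam2
  split_ifs with h
  · refine (HomW.of_eval (k := (c.2 : ℕ) - (b.2 : ℕ)) ?_).cast (by push_cast [Nat.cast_sub h]; ring)
    intro t _ x
    rw [wtW_act, coeff_eval_sb, coeff_lp_smul_right, ← coeff_eval_sb, elim_self]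
  · exact HomW.zero _ _

theorem fam2_homY (E : Bundle2 n) (j : ℤ) (c : Idx E.γ j) (b : Idx E.β j) :
    HomW (wtY n) (fam2 E j c b)
      ((E.γ c.1 + j - ((c.2 : ℕ) : ℤ)) - (E.β b.1 + j - ((b.2 : ℕ) : ℤ))) := by
  unfold fam2
  split_ifs with h
  · rcases E.hom c.1 b.1 with h0 | ⟨d, hd, hp⟩
    · rw [h0, map_zero, Polynomial.coeff_zero]
      exact HomW.zero _ _
    by_cases hm : (c.2 : ℕ) - (b.2 : ℕ) ≤ d
    · refine (HomW.of_eval (k := d - ((c.2 : ℕ) - (b.2 : ℕ))) ?_).cast
        (by push_cast [Nat.cast_sub hm, Nat.cast_sub h]; rw [hd]; ring)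
      intro t ht x
      rw [wtY_act, coeff_eval_sb, coeff_lp_smul_left _ _ t ht _ hp hm, ← coeff_eval_sb, elim_self]
    · left
      apply MvPolynomial.funext_set (fun _ => Set.univ) (fun _ => Set.infinite_univ)
      intro x _
      rw [← elim_self x, coeff_eval_sb, map_zero]
      apply Polynomial.coeff_eq_zero_of_natDegree_lt
      have := natDegree_lp (x ∘ Sum.inl) (x ∘ Sum.inr) hp
      omega
  · exact HomW.zero _ _

end H932W
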