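import Pool.Agent.H932.W.Fam2

/-!
# The kernel of the matrix `fam2` is the space of the sections on the line
-/

open MvPolynomial H960VB H960VB.Bundle2 Y208PT Pool.Agent.H106R3.VB

namespace H932W

variable {n : ℕ}

theorem coeff_one_var (g : MvPolynomial (Fin 1) ℂ) (m : ℕ) :
    eval (fun _ => (1 : ℂ)) (homogeneousComponent m g) =
      (aeval (fun _ => (Polynomial.X : Polynomial ℂ)) g).coeff m := by
  induction g using MvPolynomial.induction_on' with
  | monomial u a =>
    rw [aeval_monomial, Finsupp.prod_fintype _ _ (by intro i; simp)]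
    simp only [Fin.prod_univ_one]
    have h1 : Polynomial.coeff ((algebraMap ℂ (Polynomial ℂ)) a * Polynomial.X ^ u 0) m =
        if m = u 0 then a else 0 := by
      rw [Polynomial.algebraMap_eq, Polynomial.coeff_C_mul_X_pow]
    rw [h1]
    have h2 : u.degree = u 0 := by
      rw [Finsupp.degree_eq_sum]
      simp
    rw [homogeneousComponent_of_mem (n := u.degree) (m := m) (isHomogeneous_monomial a rfl), h2]
    split_ifs with h
    · rw [eval_monomial]
      simp
    · simp
  | add p q hp hq => rw [map_add, map_add, map_add, Polynomial.coeff_add, hp, hq]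

theorem lp_dehom (y w : Fin (n + 1) → ℂ) (p : MvPolynomial (Fin (n + 1)) ℂ) :
    aeval (fun _ => (Polynomial.X : Polynomial ℂ)) (dehom (n := 1) (lsub (m := 1) (lineMap y w) p)) =
      lp y w p := by
  have h : ((aeval (fun _ => (Polynomial.X : Polynomial ℂ)) :
      MvPolynomial (Fin 1) ℂ →ₐ[ℂ] Polynomial ℂ).comp
      ((aeval (Fin.cons (1 : MvPolynomial (Fin 1) ℂ) (fun i => (X i : MvPolynomial (Fin 1) ℂ))) :
        MvPolynomial (Fin (1 + 1)) ℂ →ₐ[ℂ] MvPolynomial (Fin 1) ℂ).comp
        (lsub (m := 1) (lineMap y w)))) = lp y w := by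
    apply MvPolynomial.algHom_ext
    intro i
    simp only [AlgHom.comp_apply, lsub, aeval_X, lp]
    rw [map_sum, map_sum, Fin.sum_univ_two]
    simp only [map_mul, aeval_X, aeval_C, Fin.cons_zero, mul_one, Fin.cons_one]
    have h0 : (lineMap y w) (Pi.single 0 1) i = y i := by
      simp [lineMap]
    have h1 : (lineMap y w) (Pi.single 1 1) i = w i := by
      simp [lineMap]
    have h2 : aeval (R := ℂ) (fun _ => (Polynomial.X : Polynomial ℂ))
        ((algebraMap ℂ (MvPolynomial (Fin 1) ℂ)) (y i)) = Polynomial.C (y i) := by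
      rw [AlgHom.commutes]
      rfl
    have h3 : aeval (R := ℂ) (fun _ => (Polynomial.X : Polynomial ℂ))
        ((algebraMap ℂ (MvPolynomial (Fin 1) ℂ)) (w i)) = Polynomial.C (w i) := by
      rw [AlgHom.commutes]
      rfl
    rw [h0, h1, h2, h3]
  exact congrArg (fun f => f p) h

theorem evm_fam2 (E : Bundle2 n) {y w : Fin (n + 1) → ℂ} (h : LinearIndependent ℂ ![y, w]) (j : ℤ) :
    evm (fam2 E j) (Sum.elim y w) =
      evm ((E.pull (m := 1) (lineMap y w) (lineMap_injective h)).fam j) (fun _ => 1) := by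
  ext c b
  change eval (Sum.elim y w) (fam2 E j c b) =
    eval (fun _ => (1 : ℂ)) ((E.pull (m := 1) (lineMap y w) (lineMap_injective h)).fam j c b)
  unfold fam2 fam
  split_ifs with h1
  · rw [coeff_eval_sb, coeff_one_var]
    change _ = (aeval (fun _ => (Polynomial.X : Polynomial ℂ))
      (dehom (n := 1) (lsub (m := 1) (lineMap y w) (E.B c.1 b.1)))).coeff _
    rw [lp_dehom]
  · rw [map_zero, map_zero]

theorem one_ne_zero' : (fun _ : Fin 1 => (1 : ℂ)) ≠ 0 := by
  intro h
  have := congrFun h 0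
  simp at this

theorem lineMap_cons0 (y w : Fin (n + 1) → ℂ) :
    lineMap y w (Fin.cons 1 0 : Fin (1 + 1) → ℂ) = y := by
  simp [lineMap]

theorem lineMap_cons1 (y w : Fin (n + 1) → ℂ) :
    lineMap y w (Fin.cons 0 (fun _ => 1) : Fin (1 + 1) → ℂ) = w := by
  simp [lineMap]

theorem finrank_fam2 (E : Bundle2 n) {y w : Fin (n + 1) → ℂ} (h : LinearIndependent ℂ ![y, w])
    (j : ℤ) {p q : ℤ} (hs : E.SplitsOn y w p q) :
    Module.finrank ℂ (LinearMap.ker (Matrix.mulVecLin (evm (fam2 E j) (Sum.elim y w)))) =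
      (p + j + 1).toNat + (q + j + 1).toNat := by
  rw [evm_fam2 E h]
  refine (E.pull (m := 1) (lineMap y w) (lineMap_injective h)).finrank_Hsec (fun _ => 1)
    one_ne_zero' p q ?_ j
  apply splitsOn_pull
  rw [lineMap_cons0, lineMap_cons1]
  exact hs

theorem lpt_one (z : Fin 2 → ℂ) : lpt (fun _ : Fin 1 => (1 : ℂ)) z = z := by
  ext i
  fin_cases i
  · rfl
  · simp [lpt]

/-- the kernel consists of the coefficient arrays of the sections -/
theorem mem_fam2 (E : Bundle2 n) {y w : Fin (n + 1) → ℂ} (h : LinearIndependent ℂ ![y, w])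
    (j : ℤ) (g : Idx E.β j → ℂ) :
    (evm (fam2 E j) (Sum.elim y w)).mulVec g = 0 ↔
      ∀ z : Fin 2 → ℂ, (evm E.B (z 0 • y + z 1 • w)).mulVec (E.lev g z) = 0 := by
  have h2 : (evm (fam2 E j) (Sum.elim y w)).mulVec g = 0 ↔
      g ∈ (E.pull (m := 1) (lineMap y w) (lineMap_injective h)).Hsec j (fun _ => 1) := by
    rw [evm_fam2 E h]
    exact Iff.rfl
  have h1 := mem_Hsec (E.pull (m := 1) (lineMap y w) (lineMap_injective h)) j (fun _ => 1) g
  refine h2.trans (h1.trans ?_)
  constructor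
  · intro h3 z
    have h4 := h3 z
    rw [lpt_one, evm_pull] at h4
    exact h4
  · intro h3 z
    rw [lpt_one, evm_pull]
    exact h3 z

/-- the section with a coefficient array in the kernel -/
theorem lineSec_of_mem (E : Bundle2 n) {y w : Fin (n + 1) → ℂ} (h : LinearIndependent ℂ ![y, w])
    {j : ℤ} {g : Idx E.β j → ℂ} (hg : (evm (fam2 E j) (Sum.elim y w)).mulVec g = 0) :
    LineSec E y w (-j) (L2.gp E g) := by
  rw [mem_fam2 E h] at hg
  refine ⟨fun i => L2.HomZ_cast (L2.homZ_gp E g i) (by ring), fun z _ => ?_⟩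
  rw [L2.evv_gp]
  exact hg z

/-- the coefficient array of a section -/
theorem mem_of_lineSec (E : Bundle2 n) {y w : Fin (n + 1) → ℂ} (h : LinearIndependent ℂ ![y, w])
    {q : ℤ} {g : Fin E.a → MvPolynomial (Fin 2) ℂ} (hg : LineSec E y w q g) :
    ∃ f : Idx E.β (-q) → ℂ, (evm (fam2 E (-q)) (Sum.elim y w)).mulVec f = 0 ∧
      L2.gp E f = g ∧ E.cf f 0 = evv g ![1, 0] := by
  have h1 := (lineSec_pull E (m := 1) (lineMap y w) (lineMap_injective h) (Fin.cons 1 0)
    (Fin.cons 0 (fun _ => 1)) q g).2 (by rw [lineMap_cons0, lineMap_cons1]; exact hg)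
  obtain ⟨f, hf, hf2, hf3⟩ := exists_Hsec (E.pull (m := 1) (lineMap y w) (lineMap_injective h))
    (fun _ => 1) q g h1
  refine ⟨f, ?_, ?_, hf3⟩
  · rw [evm_fam2 E h]
    exact hf
  · funext i
    apply MvPolynomial.funext_set (fun _ => Set.univ) (fun _ => Set.infinite_univ)
    intro z _
    have h4 := congrFun (hf2 z) i
    have h5 := congrFun (L2.evv_gp E f z) i
    exact h5.trans h4

end H932W
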