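import Pool.Agent.H932.W.Main

/-!
# Linear subspaces all of whose lines have small gaps
-/

open MvPolynomial H960VB H960VB.Bundle2 Y208PT Pool.Agent.H106R3.VB H932V

namespace H932W

/-- the type of a line is unique -/
theorem type_unique {n : ℕ} (E : Bundle2 n) {P Q : Fin (n + 1) → ℂ}
    (hPQ : LinearIndependent ℂ ![P, Q]) {a b a' b' : ℤ} (h : E.SplitsOn P Q a b)
    (h' : E.SplitsOn P Q a' b') : |a - b| = |a' - b'| := by
  have key : ∀ a b a' b' : ℤ, b ≤ a → b' ≤ a' → E.SplitsOn P Q a b → E.SplitsOn P Q a' b' →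
      a = a' ∧ b = b' := by
    intro a b a' b' hba hba' h h'
    have h1 := finrank_fam2 E hPQ (-a) h
    have h2 := finrank_fam2 E hPQ (-a) h'
    have h3 := finrank_fam2 E hPQ (-a') h
    have h4 := finrank_fam2 E hPQ (-a') h'
    have h5 := finrank_fam2 E hPQ (-b) h
    have h6 := finrank_fam2 E hPQ (-b) h'
    have h7 := finrank_fam2 E hPQ (-b') h
    have h8 := finrank_fam2 E hPQ (-b') h'
    constructor <;> omega
  rcases le_total b a with h1 | h1 <;> rcases le_total b' a' with h2 | h2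
  · obtain ⟨rfl, rfl⟩ := key a b a' b' h1 h2 h h'
    rfl
  · obtain ⟨rfl, rfl⟩ := key a b b' a' h1 h2 h (SplitsOn.swap h')
    exact abs_sub_comm _ _
  · obtain ⟨rfl, rfl⟩ := key b a a' b' h1 h2 (SplitsOn.swap h) h'
    exact abs_sub_comm _ _
  · obtain ⟨rfl, rfl⟩ := key b a b' a' h1 h2 (SplitsOn.swap h) (SplitsOn.swap h')
    rfl

/-- **Theorem N for linear subspaces.** -/
theorem thmN_subspace {n : ℕ} (E : Bundle2 n) (m : ℕ) (hm : 5 ≤ m)
    (Λ : Submodule ℂ (Fin (n + 1) → ℂ)) (hΛ : Module.finrank ℂ Λ = m + 1)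
    (h : ∀ A ∈ Λ, ∀ B ∈ Λ, LinearIndependent ℂ ![A, B] →
      ∃ a b : ℤ, E.SplitsOn A B a b ∧ |a - b| ≤ (m : ℤ) - 1) :
    E.Splits := by
  obtain ⟨P, hPΛ, hP⟩ : ∃ P ∈ Λ, P ≠ 0 := by
    have h1 : 0 < Module.finrank ℂ Λ := by omega
    rw [Module.finrank_pos_iff_exists_ne_zero] at h1
    obtain ⟨⟨x, hx⟩, hx0⟩ := h1
    exact ⟨x, hx, fun h => hx0 (Subtype.ext h)⟩
  obtain ⟨m', hm', T, hT, hTΛ, -⟩ := exists_param Λ P hPΛ hP
  obtain rfl : m' = m := by omega
  have hmn : m' + 1 ≤ n + 1 := by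
    have := Submodule.finrank_le Λ
    rw [hΛ] at this
    simpa using this
  have hTm : ∀ x, T x ∈ Λ := fun x => hTΛ ▸ LinearMap.mem_range_self T x
  refine splits_of_pull (n - m') m' n (by omega) (by omega) E T hT ?_
  refine thmN hm (E.pull T hT) ?_
  intro A B hAB a b hab
  have hli : LinearIndependent ℂ ![T A, T B] := by
    have h2 := hAB.map' T (LinearMap.ker_eq_bot.mpr hT)
    have h3 : (T ∘ ![A, B]) = ![T A, T B] := by
      ext i
      fin_cases i <;> simp
    rwa [h3] at h2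
  obtain ⟨a', b', hab', h1⟩ := h _ (hTm A) _ (hTm B) hli
  have h2 := type_unique E hli (splitsOn_of_pull E T hT A B a b hab) hab'
  have h3 := le_abs_self (a - b)
  omega

end H932W
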