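import Pool.Agent.H932.W.HomW
import Pool.Graph.R_seed8.H960R2.VB.TaskD

/-!
# Polynomial frames of the kernel of a polynomial matrix, and their Plücker coordinates
-/

open MvPolynomial H960VB

namespace H932W

variable {σ Y I : Type}

/-- the Plücker coordinates -/
def Wd {A : Type*} [CommRing A] {r : ℕ} (u : Fin r → I → A) (J : Fin r → I) : A :=
  Matrix.det (Matrix.of fun a b => u a (J b))

theorem Wd_mul {A : Type*} [CommRing A] {r : ℕ} (P : Matrix (Fin r) (Fin r) A)
    (u : Fin r → I → A) (J : Fin r → I) :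
    Wd (fun a i => ∑ c, P a c * u c i) J = P.det * Wd u J := by
  unfold Wd
  rw [← Matrix.det_mul]
  rfl

theorem Wd_map {A B : Type*} [CommRing A] [CommRing B] (f : A →+* B) {r : ℕ}
    (u : Fin r → I → A) (J : Fin r → I) :
    f (Wd u J) = Wd (fun a i => f (u a i)) J := by
  unfold Wd
  rw [RingHom.map_det]
  rfl

theorem Wd_eval {r : ℕ} (K : Fin r → I → MvPolynomial σ ℂ) (J : Fin r → I) (v : σ → ℂ) :
    eval v (Wd K J) = Wd (fun a => evv (K a) v) J := Wd_map (eval v) K J

theorem eq_zero_of_dense {Φ p : MvPolynomial σ ℂ} (hΦ : Φ ≠ 0)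
    (h : ∀ v, eval v Φ ≠ 0 → eval v p = 0) : p = 0 := by
  have h1 : Φ * p = 0 := by
    apply MvPolynomial.funext_set (fun _ => Set.univ) (fun _ => Set.infinite_univ)
    intro v _
    rw [map_mul, map_zero]
    by_cases h2 : eval v Φ = 0
    · rw [h2, zero_mul]
    · rw [h v h2, mul_zero]
  exact (mul_eq_zero.1 h1).resolve_left hΦ

theorem exists_eval_ne {Φ : MvPolynomial σ ℂ} (hΦ : Φ ≠ 0) : ∃ v, eval v Φ ≠ 0 := by
  by_contra hcon
  push Not at hcon
  exact hΦ (eq_zero_of_dense (Φ := 1) one_ne_zero (fun v _ => hcon v))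

theorem exists_frame [Fintype Y] [Fintype I] [DecidableEq I]
    (M : Matrix Y I (MvPolynomial σ ℂ)) (r : ℕ) (Φ : MvPolynomial σ ℂ) (hΦ : Φ ≠ 0)
    (hg : ∀ v, eval v Φ ≠ 0 → Module.finrank ℂ (LinearMap.ker (Matrix.mulVecLin (evm M v))) = r)
    (v₁ : σ → ℂ) (h₁ : Module.finrank ℂ (LinearMap.ker (Matrix.mulVecLin (evm M v₁))) = r) :
    ∃ (K : Fin r → I → MvPolynomial σ ℂ) (D : MvPolynomial σ ℂ),
      eval v₁ D ≠ 0 ∧ (∀ c, M.mulVec (K c) = 0) ∧ (∃ J, Wd K J = D ^ r) ∧
      (∀ v, eval v D ≠ 0 → Module.finrank ℂ (LinearMap.ker (Matrix.mulVecLin (evm M v))) = r →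
        ∀ u : I → ℂ, (evm M v).mulVec u = 0 → ∃ P : Fin r → ℂ, u = fun i => ∑ c, P c * evv (K c) v i) ∧
      (∀ (wt : σ → ℕ) (dY : Y → ℤ) (dI : I → ℤ), (∀ y i, HomW wt (M y i) (dY y - dI i)) →
        ∃ ε : Fin r → ℤ, ∀ c i, HomW wt (K c i) (dI i - ε c)) := by
  classical
  obtain ⟨R', W', e', hR', hW', hdet'⟩ := td_local_rows (evm M v₁) (1 : Matrix I I ℂ) r h₁
    (fun g _ h => by rwa [Matrix.one_mulVec] at h)
  let T : Matrix I I (MvPolynomial σ ℂ) :=
    Matrix.of fun i => Sum.elim (fun r : R' => M r)
      (fun z : W' => fun j => C ((1 : Matrix I I ℂ) z j)) (e' i)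
  have hTm : ∀ v, evm T v = Matrix.of fun i => Sum.elim (fun r : R' => evm M v r)
        (fun z : W' => (1 : Matrix I I ℂ) z) (e' i) := by
    intro v
    ext i j
    simp only [T, evm, Matrix.map_apply, Matrix.of_apply]
    rcases e' i with r | z
    · rfl
    · simp
  have hT : ∀ v, eval v T.det = (Matrix.of fun i => Sum.elim (fun r : R' => evm M v r)
        (fun z : W' => (1 : Matrix I I ℂ) z) (e' i)).det := by
    intro v
    rw [RingHom.map_det, ← hTm]
    rfl
  have hcard : Fintype.card W' = r := by rw [Fintype.card_coe, hW']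
  let τ : Fin r ≃ W' := (Fintype.equivFinOfCardEq hcard).symm
  let K : Fin r → I → MvPolynomial σ ℂ := fun c i => T.adjugate i (e'.symm (Sum.inr (τ c)))
  have hTK : ∀ c i', T.mulVec (K c) i' = if i' = e'.symm (Sum.inr (τ c)) then T.det else 0 := by
    intro c i'
    have h2 : (T * T.adjugate) i' (e'.symm (Sum.inr (τ c))) =
        (T.det • (1 : Matrix I I (MvPolynomial σ ℂ))) i' (e'.symm (Sum.inr (τ c))) := by
      rw [Matrix.mul_adjugate]
    rw [Matrix.mul_apply] at h2
    simp only [Matrix.mulVec, dotProduct, K]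
    rw [h2, Matrix.smul_apply, Matrix.one_apply]
    split_ifs <;> simp
  have hKrow : ∀ c, ∀ y : R', M.mulVec (K c) y = 0 := by
    intro c y
    have h2 := hTK c (e'.symm (Sum.inl y))
    rw [if_neg (by simp)] at h2
    rw [← h2]
    simp [Matrix.mulVec, dotProduct, T]
  have hKz : ∀ c, ∀ z : W', K c z = if z = τ c then T.det else 0 := by
    intro c z
    have h2 := hTK c (e'.symm (Sum.inr z))
    simp only [e'.symm.injective.eq_iff, Sum.inr.injEq] at h2
    rw [← h2]
    simp only [Matrix.mulVec, dotProduct, T, Matrix.of_apply, Equiv.apply_symm_apply, Sum.elim_inr]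
    rw [Finset.sum_eq_single (z : I)]
    · simp
    · intro j _ hj
      rw [Matrix.one_apply_ne (Ne.symm hj), C_0, zero_mul]
    · intro h
      exact absurd (Finset.mem_univ _) h
  have hdetne : T.det ≠ 0 := by
    intro h
    apply hdet'
    rw [← hT, h, map_zero]
  have hMK : ∀ c, M.mulVec (K c) = 0 := by
    intro c
    funext y
    apply eq_zero_of_dense (mul_ne_zero hΦ hdetne)
    intro v hv
    rw [map_mul] at hv
    have h2 := td_ker_rows (evm M v) (1 : Matrix I I ℂ) r (hg v (left_ne_zero_of_mul hv)) R' W' e'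
      hR' (by rw [← hT]; exact right_ne_zero_of_mul hv) (evv (K c) v) (by
        intro y hy
        have h3 := congrArg (eval v) (hKrow c ⟨y, hy⟩)
        simp only [Matrix.mulVec, dotProduct, map_sum, map_mul, map_zero] at h3
        simpa [Matrix.mulVec, dotProduct, evm, evv] using h3)
    have h3 := congrFun h2 y
    simpa [Matrix.mulVec, dotProduct, evm, evv] using h3
  refine ⟨K, T.det, by rw [hT]; exact hdet', hMK, ?_, ?_, ?_⟩
  · refine ⟨fun b => (τ b : I), ?_⟩
    unfold Wd
    have h2 : (Matrix.of fun a b => K a (τ b : I)) = Matrix.diagonal (fun _ : Fin r => T.det) := by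
      ext1 a b
      rw [Matrix.of_apply, hKz, Matrix.diagonal_apply]
      by_cases hab : a = b
      · subst hab; simp
      · rw [if_neg hab, if_neg]
        intro h
        exact hab (τ.injective h).symm
    rw [h2, Matrix.det_diagonal]
    simp
  · intro v hv hker u hu
    refine ⟨fun c => u (τ c : I) / eval v T.det, ?_⟩
    have hv' := hv
    rw [hT] at hv'
    have h3 : (evm T v).mulVec
        (u - fun i => ∑ c, u (τ c : I) / eval v T.det * evv (K c) v i) = 0 := by
      have hu2 : (evm M v).mulVec
          (u - fun i => ∑ c, u (τ c : I) / eval v T.det * evv (K c) v i) = 0 := by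
        rw [Matrix.mulVec_sub, hu, zero_sub, neg_eq_zero]
        funext y
        simp only [Matrix.mulVec, dotProduct, Finset.mul_sum, Pi.zero_apply]
        rw [Finset.sum_comm]
        refine Finset.sum_eq_zero fun c _ => ?_
        have h4 := congrArg (eval v) (congrFun (hMK c) y)
        simp only [Matrix.mulVec, dotProduct, map_sum, map_mul, Pi.zero_apply, map_zero] at h4
        calc ∑ i, evm M v y i * (u (τ c : I) / eval v T.det * evv (K c) v i) =
            u (τ c : I) / eval v T.det * ∑ i, eval v (M y i) * eval v (K c i) := by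
              rw [Finset.mul_sum]
              refine Finset.sum_congr rfl fun i _ => ?_
              simp only [evm, evv, Matrix.map_apply]
              ring
          _ = 0 := by rw [h4, mul_zero]
      rw [hTm]
      funext i'
      obtain ⟨s, rfl⟩ := e'.symm.surjective i'
      rcases s with y | z
      · have h4 := congrFun hu2 y
        simpa [Matrix.mulVec, dotProduct] using h4
      · simp only [Matrix.mulVec, dotProduct, Matrix.of_apply, Equiv.apply_symm_apply,
          Sum.elim_inr, Pi.zero_apply]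
        rw [Finset.sum_eq_single (z : I)]
        · rw [Matrix.one_apply_eq, one_mul, Pi.sub_apply, sub_eq_zero,
            Finset.sum_eq_single (τ.symm z)]
          · simp only [Equiv.apply_symm_apply, evv]
            rw [hKz, if_pos (by simp)]
            field_simp
          · intro c _ hc
            simp only [evv]
            rw [hKz, if_neg, map_zero, mul_zero]
            intro h
            exact hc (by rw [h]; simp)
          · intro h
            exact absurd (Finset.mem_univ _) h
        · intro j _ hj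
          rw [Matrix.one_apply_ne (Ne.symm hj), zero_mul]
        · intro h
          exact absurd (Finset.mem_univ _) h
    have h5 := Matrix.eq_zero_of_mulVec_eq_zero (by rw [hTm]; exact hv') h3
    exact sub_eq_zero.1 h5
  · intro wt dY dI hM
    let dR : I → ℤ := fun i => Sum.elim (fun r : R' => dY r) (fun z : W' => dI z) (e' i)
    have hTh : ∀ i j, HomW wt (T i j) (dR i - dI j) := by
      intro i j
      simp only [T, dR, Matrix.of_apply]
      rcases e' i with y | z
      · exact hM y j
      · by_cases h : (z : I) = j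
        · rw [Sum.elim_inr, Sum.elim_inr, ← h, Matrix.one_apply_eq, sub_self]
          exact HomW.const wt 1
        · rw [Sum.elim_inr, Matrix.one_apply_ne h, C_0]
          exact HomW.zero _ _
    refine ⟨fun c => dR (e'.symm (Sum.inr (τ c))) - (∑ i, dR i - ∑ j, dI j), fun c i => ?_⟩
    exact (HomW.adjugate T dR dI hTh i _).cast (by ring)

end H932W
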