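import Pool.Agent.H932.W.Plk
import Pool.Agent.H932.W.RegFun

/-!
# Lines of maximal gap with a prescribed direction: the comparison of the two frames
-/

open MvPolynomial H960VB H960VB.Bundle2 Y208PT Pool.Agent.H106R3.VB

namespace H932W

/-- The data: a bundle `E`, all lines have the type `(a, b)` with `a ≤ T.a`, and a vector of binary
forms on the line of the first two coordinates which vanishes nowhere. -/
structure Dat (m : ℕ) where
  E : Bundle2 (m + 1)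
  G : ℕ
  a : ℤ
  b₀ : ℤ
  j : ℤ
  α : ℤ
  hab : a - b₀ = G
  hj : j = -b₀ - 1
  K : Plk E j G
  hmax : ∀ y w : Fin (m + 2) → ℂ, LinearIndependent ℂ ![y, w] → ∀ p q : ℤ,
    E.SplitsOn y w p q → p ≤ a ∧ q ≤ a
  g₁ : Fin E.a → MvPolynomial (Fin 2) ℂ
  hg₁ : ∀ i, HomZ (g₁ i) (E.β i - α)
  hg0 : ∀ z : Fin 2 → ℂ, z ≠ 0 → evv g₁ z ≠ 0

namespace Dat

variable {m : ℕ} (T : Dat m)

/-- the prescribed direction at a point of the line -/
noncomputable def gv (y : Fin (m + 2) → ℂ) : Fin T.E.a → ℂ := evv T.g₁ ![y 0, y 1]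

/-- comparison of the frame given by the section with the Plücker vector -/
def RelH (y w : Fin (m + 2) → ℂ) (h : ℂ) : Prop :=
  ∃ f : Idx T.E.β (-T.a) → ℂ, Kr T.E (-T.a) y w f ∧ T.E.cf f 0 = T.gv y ∧
    ∀ J, Wd (fun s : Fin T.G => T.E.mt f s T.j) J = h * eval (Sum.elim y w) (T.K.pi J)

theorem uniq_f {y w : Fin (m + 2) → ℂ} (h : LinearIndependent ℂ ![y, w])
    {f : Idx T.E.β (-T.a) → ℂ} (hf : Kr T.E (-T.a) y w f) (h0 : T.E.cf f 0 = 0) : f = 0 := by
  have h0' : ∀ b' < 1, T.E.cf f b' = 0 := by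
    intro b' hb'
    obtain rfl : b' = 0 := by omega
    exact h0
  apply eq_zero_of_sh T.E f 1 (j' := -T.a - 1) (by push_cast; ring) h0'
  have h1 := kr_sh T.E h (j' := -T.a - 1) hf 1 (by push_cast; ring) h0'
  obtain ⟨p, q, hpq⟩ := splitsOn_exists T.E h
  obtain ⟨hp, hq⟩ := T.hmax y w h p q hpq
  have h2 := finrank_fam2 T.E h (-T.a - 1) hpq
  have h3 : (p + (-T.a - 1) + 1).toNat + (q + (-T.a - 1) + 1).toNat = 0 := by omega
  rw [h3, Submodule.finrank_eq_zero] at h2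
  have h4 : T.E.sh f 1 (-T.a - 1) ∈
      LinearMap.ker (Matrix.mulVecLin (evm (fam2 T.E (-T.a - 1)) (Sum.elim y w))) := by
    rw [LinearMap.mem_ker, Matrix.mulVecLin_apply]
    exact h1
  rw [h2, Submodule.mem_bot] at h4
  exact h4

theorem cf_sub {n : ℕ} (E : Bundle2 n) {j : ℤ} (f f' : Idx E.β j → ℂ) (b : ℕ) :
    E.cf (f - f') b = E.cf f b - E.cf f' b := by
  ext i
  unfold cf
  simp only [Pi.sub_apply]
  split_ifs <;> simp

theorem eq_f {y w : Fin (m + 2) → ℂ} (h : LinearIndependent ℂ ![y, w])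
    {f f' : Idx T.E.β (-T.a) → ℂ} (hf : Kr T.E (-T.a) y w f) (hf' : Kr T.E (-T.a) y w f')
    (h0 : T.E.cf f 0 = T.E.cf f' 0) : f = f' := by
  rw [← sub_eq_zero]
  apply T.uniq_f h
  · unfold Kr at hf hf' ⊢
    rw [Matrix.mulVec_sub, hf, hf', sub_zero]
  · rw [cf_sub, h0, sub_self]

theorem li_mt {f : Idx T.E.β (-T.a) → ℂ} (h0 : T.E.cf f 0 ≠ 0) :
    LinearIndependent ℂ (fun s : Fin T.G => T.E.mt f s T.j) := by
  rw [Fintype.linearIndependent_iff]
  intro c hc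
  obtain ⟨i, hi⟩ := Function.ne_iff.1 h0
  have hi1 : 0 < (T.E.β i + -T.a + 1).toNat := by
    by_contra hcon
    apply hi
    exact dif_neg hcon
  have key : ∀ b, ∀ hb : b < T.G, c ⟨b, hb⟩ = 0 := by
    intro b
    induction b using Nat.strong_induction_on with
    | _ b ih =>
      intro hb
      have h1 : b < (T.E.β i + T.j + 1).toNat := by
        have := T.hab
        have := T.hj
        omega
      have h2 := congrFun hc ⟨i, ⟨b, h1⟩⟩
      rw [Finset.sum_apply, Finset.sum_eq_single ⟨b, hb⟩] at h2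
      · simp only [Pi.smul_apply, Bundle2.mt, le_refl, if_true, Nat.sub_self, smul_eq_mul,
          Pi.zero_apply] at h2
        exact (mul_eq_zero.1 h2).resolve_right hi
      · intro s _ hs
        simp only [Pi.smul_apply, smul_eq_mul]
        rcases lt_or_gt_of_ne (fun h => hs (Fin.ext h) : (s : ℕ) ≠ b) with h3 | h3
        · rw [ih s h3 s.2, zero_mul]
        · simp only [Bundle2.mt]
          rw [if_neg (by omega), mul_zero]
      · intro h3
        exact absurd (Finset.mem_univ _) h3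
  exact fun s => key s s.2

theorem relH_exists {y w : Fin (m + 2) → ℂ} (h : LinearIndependent ℂ ![y, w])
    (hy : T.gv y ≠ 0) {f : Idx T.E.β (-T.a) → ℂ} (hf : Kr T.E (-T.a) y w f)
    (hf0 : T.E.cf f 0 = T.gv y) : ∃ c : ℂ, c ≠ 0 ∧ T.RelH y w c := by
  obtain ⟨κ, hκ⟩ := T.K.wed y w h (fun s : Fin T.G => T.E.mt f s T.j) (fun s => by
    refine kr_mt T.E h hf s (T.G - 1 - s) ?_
    have := T.hab
    have := T.hj
    have := s.2
    omega)
  refine ⟨κ, ?_, f, hf, hf0, hκ⟩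
  rintro rfl
  obtain ⟨J, hJ⟩ := exists_Wd_ne _ (T.li_mt (f := f) (by rw [hf0]; exact hy))
  apply hJ
  rw [hκ, zero_mul]

theorem relH_unique {y w : Fin (m + 2) → ℂ} (h : LinearIndependent ℂ ![y, w]) {c c' : ℂ}
    (hc : T.RelH y w c) (hc' : T.RelH y w c') : c = c' := by
  obtain ⟨f, hf, hf0, hfJ⟩ := hc
  obtain ⟨f', hf', hf0', hfJ'⟩ := hc'
  have h1 : f = f' := T.eq_f h hf hf' (by rw [hf0, hf0'])
  subst h1
  obtain ⟨J, hJ⟩ := T.K.ne y w h
  have h2 := (hfJ J).symm.trans (hfJ' J)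
  exact mul_right_cancel₀ hJ h2

theorem relH_ne {y w : Fin (m + 2) → ℂ} (h : LinearIndependent ℂ ![y, w]) (hy : T.gv y ≠ 0)
    {c : ℂ} (hc : T.RelH y w c) : c ≠ 0 := by
  obtain ⟨f, hf, hf0, hfJ⟩ := hc
  obtain ⟨c', hc'0, hc'⟩ := T.relH_exists h hy hf hf0
  rw [T.relH_unique h ⟨f, hf, hf0, hfJ⟩ hc']
  exact hc'0

theorem Wd_scale {I : Type} {r : ℕ} (ρ : Fin r → ℂ) (c : I → ℂ) (u : Fin r → I → ℂ)
    (J : Fin r → I) :
    Wd (fun s x => ρ s * (c x * u s x)) J = (∏ s, ρ s) * ((∏ s, c (J s)) * Wd u J) := by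
  unfold Wd
  rw [← Matrix.det_mul_row, ← Matrix.det_mul_column]
  rfl

theorem prod_zp {t : ℂ} (ht : t ≠ 0) {ι : Type*} [Fintype ι] (e : ι → ℤ) :
    ∏ s, t ^ e s = t ^ ∑ s, e s := by
  classical
  have key : ∀ S : Finset ι, ∏ s ∈ S, t ^ e s = t ^ ∑ s ∈ S, e s := by
    intro S
    induction S using Finset.induction_on with
    | empty => simp
    | insert a S ha ih => rw [Finset.prod_insert ha, Finset.sum_insert ha, zpow_add₀ ht, ih]
  exact key Finset.univ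

/-- the sum of the orders -/
def S1 : ℤ := ∑ s : Fin T.G, ((s : ℕ) : ℤ)

/-- the degree in the first point -/
def dp : ℤ := T.S1 - T.G * (T.α + T.j) + T.K.d1

/-- the degree in the second point -/
def dq : ℤ := T.K.d2 - T.S1

theorem gv_smul (t : ℂ) (y : Fin (m + 2) → ℂ) (i : Fin T.E.a) :
    T.gv (t • y) i = t ^ (T.E.β i - T.α) * T.gv y i := by
  unfold gv evv
  rcases T.hg₁ i with h0 | ⟨k, hk, hp⟩
  · rw [h0]
    simp
  · have h1 : (![(t • y) 0, (t • y) 1] : Fin 2 → ℂ) = t • ![y 0, y 1] := by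
      ext l
      fin_cases l <;> simp
    rw [h1, Y208PT.eval_smul_hom hp, ← hk, zpow_natCast]

theorem relH_smul_left {y w : Fin (m + 2) → ℂ} (h : LinearIndependent ℂ ![y, w]) {c : ℂ}
    (hc : T.RelH y w c) (t : ℂ) (ht : t ≠ 0) : T.RelH (t • y) w (t ^ T.dp * c) := by
  obtain ⟨f, hf, hf0, hfJ⟩ := hc
  have hli : LinearIndependent ℂ ![t • y, w] := by
    rw [LinearIndependent.pair_iff] at h ⊢
    intro s r hsr
    have h1 := h (s * t) r (by rw [← hsr, smul_smul])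
    exact ⟨(mul_eq_zero.1 h1.1).resolve_right ht, h1.2⟩
  let f' : Idx T.E.β (-T.a) → ℂ := fun x => t ^ (T.E.β x.1 - T.α - ((x.2 : ℕ) : ℤ)) * f x
  have hcf : ∀ b i, T.E.cf f' b i = t ^ (T.E.β i - T.α - (b : ℤ)) * T.E.cf f b i := by
    intro b i
    unfold cf
    split_ifs with h1
    · rfl
    · rw [mul_zero]
  have hlev : ∀ z, T.E.lev f' z = t ^ (T.a - T.α) • T.E.lev f ![t * z 0, z 1] := by
    intro z
    ext i
    rw [Pi.smul_apply, smul_eq_mul]
    unfold lev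
    rw [Finset.mul_sum]
    refine Finset.sum_congr rfl fun b _ => ?_
    have hb := b.2
    simp only [f', Matrix.cons_val_zero, Matrix.cons_val_one]
    have h1 : T.E.β i - T.α - ((b : ℕ) : ℤ) =
        (T.a - T.α) + (((T.E.β i + -T.a).toNat - (b : ℕ) : ℕ) : ℤ) := by omega
    rw [h1, zpow_add₀ ht, zpow_natCast, mul_pow]
    ring
  refine ⟨f', ?_, ?_, ?_⟩
  · unfold Kr at hf ⊢
    rw [mem_fam2 T.E h] at hf
    rw [mem_fam2 T.E hli]
    intro z
    rw [hlev, Matrix.mulVec_smul]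
    have h1 := hf ![t * z 0, z 1]
    have h2 : z 0 • (t • y) + z 1 • w = (![t * z 0, z 1] : Fin 2 → ℂ) 0 • y +
        (![t * z 0, z 1] : Fin 2 → ℂ) 1 • w := by
      simp only [Matrix.cons_val_zero, Matrix.cons_val_one, smul_smul]
      rw [mul_comm]
    rw [h2, h1, smul_zero]
  · ext i
    rw [hcf, hf0, T.gv_smul t]
    simp
  · intro J
    have h1 : (fun s : Fin T.G => T.E.mt f' s T.j) = fun (s : Fin T.G) x =>
        t ^ ((s : ℕ) : ℤ) * (t ^ (T.E.β x.1 - T.α - ((x.2 : ℕ) : ℤ)) * T.E.mt f s T.j x) := by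
      funext s x
      simp only [Bundle2.mt]
      split_ifs with h2
      · rw [hcf, ← mul_assoc, ← zpow_add₀ ht]
        congr 2
        push_cast [Nat.cast_sub h2]
        ring
      · simp
    rw [h1, Wd_scale (fun s : Fin T.G => t ^ ((s : ℕ) : ℤ))
      (fun x : Idx T.E.β T.j => t ^ (T.E.β x.1 - T.α - ((x.2 : ℕ) : ℤ))), hfJ J]
    have h2 := (T.K.homY J).eval t (Sum.elim y w)
    rw [wtY_act] at h2
    have h3 : (Sum.elim (t • (Sum.elim y w ∘ Sum.inl)) (Sum.elim y w ∘ Sum.inr) : V2 (m + 1) → ℂ) =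
        Sum.elim (t • y) w := rfl
    rw [h3] at h2
    rw [h2, prod_zp ht, prod_zp ht]
    have h4 : ∑ s, (T.E.β (J s).1 - T.α - (((J s).2 : ℕ) : ℤ)) =
        ∑ s, (T.E.β (J s).1 + T.j - (((J s).2 : ℕ) : ℤ)) - T.G * (T.α + T.j) := by
      rw [eq_sub_iff_add_eq]
      have h5 : (T.G : ℤ) * (T.α + T.j) = ∑ _s : Fin T.G, (T.α + T.j) := by simp
      rw [h5, ← Finset.sum_add_distrib]
      exact Finset.sum_congr rfl fun s _ => by ring
    have h6 : t ^ (∑ s : Fin T.G, ((s : ℕ) : ℤ)) *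
        t ^ (∑ s, (T.E.β (J s).1 - T.α - (((J s).2 : ℕ) : ℤ))) = t ^ T.dp *
        t ^ (∑ s, (T.E.β (J s).1 + T.j - (((J s).2 : ℕ) : ℤ)) - T.K.d1) := by
      rw [← zpow_add₀ ht, ← zpow_add₀ ht, h4]
      congr 1
      unfold dp S1
      ring
    linear_combination (c * eval (Sum.elim y w) (T.K.pi J)) * h6

theorem relH_smul_right {y w : Fin (m + 2) → ℂ} (h : LinearIndependent ℂ ![y, w]) {c : ℂ}
    (hc : T.RelH y w c) (t : ℂ) (ht : t ≠ 0) : T.RelH y (t • w) (t ^ T.dq * c) := by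
  obtain ⟨f, hf, hf0, hfJ⟩ := hc
  have hli : LinearIndependent ℂ ![y, t • w] := by
    rw [LinearIndependent.pair_iff] at h ⊢
    intro s r hsr
    have h1 := h s (r * t) (by rw [← hsr, smul_smul])
    exact ⟨h1.1, (mul_eq_zero.1 h1.2).resolve_right ht⟩
  let f' : Idx T.E.β (-T.a) → ℂ := fun x => t ^ (((x.2 : ℕ) : ℤ)) * f x
  have hcf : ∀ b i, T.E.cf f' b i = t ^ ((b : ℤ)) * T.E.cf f b i := by
    intro b i
    unfold cf
    split_ifs with h1
    · rfl
    · rw [mul_zero]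
  have hlev : ∀ z, T.E.lev f' z = T.E.lev f ![z 0, t * z 1] := by
    intro z
    ext i
    unfold lev
    refine Finset.sum_congr rfl fun b _ => ?_
    simp only [f', Matrix.cons_val_zero, Matrix.cons_val_one]
    rw [zpow_natCast, mul_pow]
    ring
  refine ⟨f', ?_, ?_, ?_⟩
  · unfold Kr at hf ⊢
    rw [mem_fam2 T.E h] at hf
    rw [mem_fam2 T.E hli]
    intro z
    rw [hlev]
    have h1 := hf ![z 0, t * z 1]
    have h2 : z 0 • y + z 1 • (t • w) = (![z 0, t * z 1] : Fin 2 → ℂ) 0 • y +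
        (![z 0, t * z 1] : Fin 2 → ℂ) 1 • w := by
      simp only [Matrix.cons_val_zero, Matrix.cons_val_one, smul_smul]
      rw [mul_comm]
    rw [h2, h1]
  · rw [← hf0]
    ext i
    rw [hcf]
    simp
  · intro J
    have h1 : (fun s : Fin T.G => T.E.mt f' s T.j) = fun (s : Fin T.G) x =>
        t ^ (-((s : ℕ) : ℤ)) * (t ^ (((x.2 : ℕ) : ℤ)) * T.E.mt f s T.j x) := by
      funext s x
      simp only [Bundle2.mt]
      split_ifs with h2
      · rw [hcf, ← mul_assoc, ← zpow_add₀ ht]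
        congr 2
        push_cast [Nat.cast_sub h2]
        ring
      · simp
    rw [h1, Wd_scale (fun s : Fin T.G => t ^ (-((s : ℕ) : ℤ)))
      (fun x : Idx T.E.β T.j => t ^ (((x.2 : ℕ) : ℤ))), hfJ J]
    have h2 := (T.K.homW J).eval t (Sum.elim y w)
    rw [wtW_act] at h2
    have h3 : (Sum.elim (Sum.elim y w ∘ Sum.inl) (t • (Sum.elim y w ∘ Sum.inr)) : V2 (m + 1) → ℂ) =
        Sum.elim y (t • w) := rfl
    rw [h3] at h2
    rw [h2, prod_zp ht, prod_zp ht]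
    have h6 : t ^ (∑ s : Fin T.G, (-((s : ℕ) : ℤ))) * t ^ (∑ s, (((J s).2 : ℕ) : ℤ)) = t ^ T.dq *
        t ^ (∑ s, (((J s).2 : ℕ) : ℤ) - T.K.d2) := by
      rw [← zpow_add₀ ht, ← zpow_add₀ ht, Finset.sum_neg_distrib]
      congr 1
      unfold dq S1
      ring
    linear_combination (c * eval (Sum.elim y w) (T.K.pi J)) * h6

end Dat

end H932W
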