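import Pool.Agent.H932.W.Good

/-!
# The comparison function is locally a fraction, and it does not depend on the second point
-/

open MvPolynomial H960VB H960VB.Bundle2 Y208PT Pool.Agent.H106R3.VB

namespace H932W

theorem exists_line_poly {σ : Type} (u v : σ → ℂ) (D : MvPolynomial σ ℂ) :
    ∃ q : Polynomial ℂ, ∀ s : ℂ, q.eval s = eval (fun i => u i + s * v i) D := by
  refine ⟨aeval (fun l => Polynomial.C (u l) + Polynomial.X * Polynomial.C (v l)) D, fun s => ?_⟩
  have h : (Polynomial.evalRingHom s).comp (aeval (R := ℂ)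
      (fun l => Polynomial.C (u l) + Polynomial.X * Polynomial.C (v l))).toRingHom =
      (eval (fun l => u l + s * v l) : MvPolynomial σ ℂ →+* ℂ) := by
    apply MvPolynomial.ringHom_ext
    · intro c
      have h2 : (aeval (R := ℂ) (fun l => Polynomial.C (u l) + Polynomial.X *
        Polynomial.C (v l))).toRingHom (C c : MvPolynomial σ ℂ) = Polynomial.C c :=
          AlgHom.commutes (aeval (R := ℂ) (fun l => Polynomial.C (u l) + Polynomial.X *
        Polynomial.C (v l))) c
      rw [RingHom.comp_apply, h2]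
      simp
    · intro i
      have h2 : (aeval (R := ℂ) (fun l => Polynomial.C (u l) + Polynomial.X *
        Polynomial.C (v l))).toRingHom (X i : MvPolynomial σ ℂ) = Polynomial.C (u i) +
          Polynomial.X * Polynomial.C (v i) := by
        change aeval _ (X i) = _
        rw [aeval_X]
      rw [RingHom.comp_apply, h2]
      simp only [Polynomial.coe_evalRingHom, Polynomial.eval_add, Polynomial.eval_mul,
        Polynomial.eval_C, Polynomial.eval_X, eval_X]
  exact congrArg (fun f => f D) h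

theorem eval_aeval_mv {σ τ : Type} (g : τ → MvPolynomial σ ℂ) (v : σ → ℂ)
    (p : MvPolynomial τ ℂ) : eval v (aeval g p) = eval (fun i => eval v (g i)) p := by
  have h : (eval v : MvPolynomial σ ℂ →+* ℂ).comp (aeval (R := ℂ) g).toRingHom =
      (eval (fun i => eval v (g i)) : MvPolynomial τ ℂ →+* ℂ) := by
    apply MvPolynomial.ringHom_ext
    · intro c
      have h2 : (aeval (R := ℂ) g).toRingHom (C c : MvPolynomial τ ℂ) = C c :=
        AlgHom.commutes (aeval (R := ℂ) g) c
      rw [RingHom.comp_apply, h2]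
      simp
    · intro i
      have h2 : (aeval (R := ℂ) g).toRingHom (X i : MvPolynomial τ ℂ) = g i := by
        change aeval _ (X i) = _
        rw [aeval_X]
      rw [RingHom.comp_apply, h2]
      simp
  exact congrArg (fun f => f p) h

namespace Dat

variable {m : ℕ} (T : Dat m)

/-- the system for the section with the prescribed value -/
noncomputable def VV : Matrix (Idx T.E.γ (-T.a) ⊕ Fin T.E.a) (Idx T.E.β (-T.a))
    (MvPolynomial (V2 (m + 1)) ℂ) :=
  Matrix.fromRows (fam2 T.E (-T.a)) (fun p x => C (T.E.row (-T.a) 0 (Pi.single p 1) x))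

theorem evm_VV (v : V2 (m + 1) → ℂ) (f : Idx T.E.β (-T.a) → ℂ) :
    (evm T.VV v).mulVec f =
      Sum.elim ((evm (fam2 T.E (-T.a)) v).mulVec f) (fun p => T.E.cf f 0 p) := by
  funext r
  rcases r with c | p
  · rfl
  · have h1 : T.E.cf f 0 p = (Pi.single p 1 : Fin T.E.a → ℂ) ⬝ᵥ T.E.cf f 0 := by simp
    rw [Sum.elim_inr, h1, ← row_sum]
    refine Finset.sum_congr rfl fun x _ => ?_
    have h2 : evm T.VV v (Sum.inr p) x = T.E.row (-T.a) 0 (Pi.single p 1) x := eval_C _
    exact congrArg (· * f x) h2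

/-- the right hand side -/
noncomputable def rhs : Idx T.E.γ (-T.a) ⊕ Fin T.E.a → MvPolynomial (V2 (m + 1)) ℂ :=
  Sum.elim (fun _ => 0) (fun p => aeval ![X (Sum.inl 0), X (Sum.inl 1)] (T.g₁ p))

theorem eval_rhs (y w : Fin (m + 2) → ℂ) (r) : eval (Sum.elim y w) (T.rhs r) =
    Sum.elim (fun _ => 0) (T.gv y) r := by
  rcases r with c | p
  · simp [rhs]
  · simp only [rhs, Sum.elim_inr, gv, evv]
    rw [eval_aeval_mv]
    congr 1
    congr 1
    funext i
    fin_cases i <;> simp

/-- the comparison function is locally a fraction of polynomials -/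
theorem frac {y₀ w₀ : Fin (m + 2) → ℂ} (h₀ : LinearIndependent ℂ ![y₀, w₀]) :
    ∃ D N : MvPolynomial (V2 (m + 1)) ℂ, eval (Sum.elim y₀ w₀) D ≠ 0 ∧
      ∀ (y w : Fin (m + 2) → ℂ) (c : ℂ), T.RelH y w c →
        c * eval (Sum.elim y w) D = eval (Sum.elim y w) N := by
  classical
  obtain ⟨ρ, hρ⟩ : ∃ ρ : Idx T.E.β (-T.a) → Idx T.E.γ (-T.a) ⊕ Fin T.E.a,
      ((evm T.VV (Sum.elim y₀ w₀)).submatrix ρ id).det ≠ 0 := by
    by_contra hcon
    push Not at hcon
    obtain ⟨f, hf0, hf⟩ := td_maxmin _ hcon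
    rw [evm_VV] at hf
    apply hf0
    refine T.uniq_f h₀ ?_ ?_
    · funext c
      exact congrFun hf (Sum.inl c)
    · funext p
      exact congrFun hf (Sum.inr p)
  obtain ⟨J₀, hJ₀⟩ := T.K.ne y₀ w₀ h₀
  let Sb : Matrix (Idx T.E.β (-T.a)) (Idx T.E.β (-T.a)) (MvPolynomial (V2 (m + 1)) ℂ) :=
    T.VV.submatrix ρ id
  let Nf : Idx T.E.β (-T.a) → MvPolynomial (V2 (m + 1)) ℂ :=
    Sb.adjugate.mulVec (fun x => T.rhs (ρ x))
  let Kp : Fin T.G → Idx T.E.β T.j → MvPolynomial (V2 (m + 1)) ℂ := fun s x =>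
    if (s : ℕ) ≤ (x.2 : ℕ) then
      (if h : (x.2 : ℕ) - (s : ℕ) < (T.E.β x.1 + -T.a + 1).toNat then
        Nf ⟨x.1, ⟨(x.2 : ℕ) - (s : ℕ), h⟩⟩ else 0) else 0
  have hSb : ∀ v, eval v Sb.det = ((evm T.VV v).submatrix ρ id).det := by
    intro v
    rw [RingHom.map_det]
    rfl
  refine ⟨Sb.det ^ T.G * T.K.pi J₀, Wd Kp J₀, ?_, ?_⟩
  · rw [map_mul, map_pow]
    refine mul_ne_zero (pow_ne_zero _ ?_) hJ₀
    rw [hSb]
    exact hρ
  · rintro y w c ⟨f, hf, hf0, hfJ⟩
    have hV : (evm T.VV (Sum.elim y w)).mulVec f = fun r => eval (Sum.elim y w) (T.rhs r) := by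
      rw [evm_VV]
      funext r
      rw [eval_rhs]
      rcases r with x | p
      · exact congrFun hf x
      · exact congrFun hf0 p
    have hNf : ∀ x, eval (Sum.elim y w) (Nf x) = eval (Sum.elim y w) Sb.det * f x := by
      intro x
      have h1 : ((eval (Sum.elim y w)).mapMatrix Sb).mulVec f =
          fun x => eval (Sum.elim y w) (T.rhs (ρ x)) := by
        funext x
        exact congrFun hV (ρ x)
      have h2 : ((eval (Sum.elim y w)).mapMatrix Sb).adjugate.mulVec
          (((eval (Sum.elim y w)).mapMatrix Sb).mulVec f) =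
          ((eval (Sum.elim y w)).mapMatrix Sb).det • f := by
        rw [Matrix.mulVec_mulVec, Matrix.adjugate_mul, Matrix.smul_mulVec, Matrix.one_mulVec]
      rw [h1, ← RingHom.map_adjugate, ← RingHom.map_det] at h2
      have h3 := congrFun h2 x
      rw [Pi.smul_apply, smul_eq_mul] at h3
      rw [← h3]
      simp only [Nf, Matrix.mulVec, dotProduct, map_sum, map_mul]
      rfl
    have hKp : ∀ s x, eval (Sum.elim y w) (Kp s x) =
        eval (Sum.elim y w) Sb.det * (1 * T.E.mt f s T.j x) := by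
      intro s x
      simp only [Kp, Bundle2.mt, cf]
      split_ifs
      · rw [hNf]
        ring
      · simp
      · simp
    rw [map_mul, map_pow, Wd_map]
    have h4 : (fun a i => (eval (Sum.elim y w)) (Kp a i)) = fun (s : Fin T.G) x =>
        eval (Sum.elim y w) Sb.det * (1 * T.E.mt f s T.j x) := by
      funext s x
      exact hKp s x
    rw [h4, Wd_scale (fun _ : Fin T.G => eval (Sum.elim y w) Sb.det)
      (fun _ : Idx T.E.β T.j => (1 : ℂ)), hfJ J₀]
    simp only [Finset.prod_const, Finset.card_univ, Fintype.card_fin, one_pow, one_mul]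
    ring

/-- change of the second point -/
theorem good_comb {y w : Fin (m + 2) → ℂ} (h : LinearIndependent ℂ ![y, w])
    {f : Idx T.E.β (-T.a) → ℂ} (hf : Kr T.E (-T.a) y w f) (s : ℂ) :
    LinearIndependent ℂ ![y, w + s • y] ∧
    ∃ f' : Idx T.E.β (-T.a) → ℂ, Kr T.E (-T.a) y (w + s • y) f' ∧ T.E.cf f' 0 = T.E.cf f 0 := by
  have hli : LinearIndependent ℂ ![y, w + s • y] := by
    rw [LinearIndependent.pair_iff] at h ⊢
    intro u v huv
    have h1 := h (u + v * s) v (by rw [← huv]; module)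
    have h2 : v = 0 := h1.2
    refine ⟨?_, h2⟩
    have h3 := h1.1
    rw [h2, zero_mul, add_zero] at h3
    exact h3
  refine ⟨hli, ?_⟩
  have h1 := lineSec_of_mem T.E h hf
  have h2 := h1.shear (Q' := w + s • y) (-s) (by module)
  rw [neg_neg] at h2
  obtain ⟨f', hf', -, hf'0⟩ := mem_of_lineSec T.E hli h2
  refine ⟨f', hf', ?_⟩
  rw [hf'0, evv_shear_zero, evv_gp_zero]

theorem relH_shift {y w : Fin (m + 2) → ℂ} (h : LinearIndependent ℂ ![y, w])
    (hy : T.gv y ≠ 0) {c : ℂ} (hc : T.RelH y w c) (s : ℂ) : T.RelH y (w + s • y) c := by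
  obtain ⟨f, hf, hf0, hfJ⟩ := hc
  have hex : ∀ s : ℂ, ∃ c : ℂ, c ≠ 0 ∧ T.RelH y (w + s • y) c := by
    intro s
    obtain ⟨hli, f', hf', hf'0⟩ := T.good_comb h hf s
    exact T.relH_exists hli hy hf' (hf'0.trans hf0)
  choose hs hs0 hsR using hex
  have hconst := reg_line hs hs0 (by
    intro s₀
    obtain ⟨hli, -⟩ := T.good_comb h hf s₀
    obtain ⟨D, N, hD, hDN⟩ := T.frac hli
    obtain ⟨D', hD'⟩ := exists_line_poly (Sum.elim y w) (Sum.elim (fun _ => 0) y) D
    obtain ⟨N', hN'⟩ := exists_line_poly (Sum.elim y w) (Sum.elim (fun _ => 0) y) N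
    have hpt : ∀ s : ℂ, (fun i => (Sum.elim y w : V2 (m + 1) → ℂ) i + s * Sum.elim (fun _ => 0) y i) =
        Sum.elim y (w + s • y) := by
      intro s
      funext i
      rcases i with i | i <;> simp
    refine ⟨D', N', ?_, fun s => ?_⟩
    · rw [hD', hpt]
      exact hD
    · rw [hD', hN', hpt]
      exact hDN _ _ _ (hsR s))
  have h1 : hs 0 = c := by
    apply T.relH_unique h _ ⟨f, hf, hf0, hfJ⟩
    have := hsR 0
    rwa [zero_smul, add_zero] at this
  rw [← h1, hconst 0 s]
  exact hsR s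

end Dat

end H932W
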