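import Mathlib

/-!
# Polynomials which are homogeneous for a weight
-/

open MvPolynomial

namespace H932W

variable {σ : Type}

/-- the substitution `X i ↦ X i * T ^ wt i` -/
noncomputable def Ph (wt : σ → ℕ) : MvPolynomial σ ℂ →ₐ[ℂ] Polynomial (MvPolynomial σ ℂ) :=
  aeval (fun i => Polynomial.C (X i) * Polynomial.X ^ wt i)

/-- `p` is homogeneous of the integer degree `d` for the weight `wt` (zero is of every degree) -/
def HomW (wt : σ → ℕ) (p : MvPolynomial σ ℂ) (d : ℤ) : Prop :=
  p = 0 ∨ ∃ k : ℕ, (k : ℤ) = d ∧ Ph wt p = Polynomial.C p * Polynomial.X ^ k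

theorem HomW.zero (wt : σ → ℕ) (d : ℤ) : HomW wt 0 d := Or.inl rfl

theorem HomW.const (wt : σ → ℕ) (c : ℂ) : HomW wt (C c) 0 := by
  refine Or.inr ⟨0, rfl, ?_⟩
  rw [pow_zero, mul_one]
  exact AlgHom.commutes (Ph wt) c

theorem HomW.one (wt : σ → ℕ) : HomW wt 1 0 := by
  have := HomW.const wt 1
  rwa [C_1] at this

theorem HomW.cast {wt : σ → ℕ} {p : MvPolynomial σ ℂ} {d e : ℤ} (h : HomW wt p d) (hd : d = e) :
    HomW wt p e := hd ▸ h

theorem HomW.mul {wt : σ → ℕ} {p q : MvPolynomial σ ℂ} {d e : ℤ} (hp : HomW wt p d)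
    (hq : HomW wt q e) : HomW wt (p * q) (d + e) := by
  rcases hp with rfl | ⟨k, rfl, hk⟩
  · rw [zero_mul]; exact HomW.zero _ _
  rcases hq with rfl | ⟨l, rfl, hl⟩
  · rw [mul_zero]; exact HomW.zero _ _
  refine Or.inr ⟨k + l, by push_cast; rfl, ?_⟩
  rw [map_mul, hk, hl, map_mul, pow_add]
  ring

theorem HomW.add {wt : σ → ℕ} {p q : MvPolynomial σ ℂ} {d : ℤ} (hp : HomW wt p d)
    (hq : HomW wt q d) : HomW wt (p + q) d := by
  rcases hp with rfl | ⟨k, hk1, hk⟩
  · rw [zero_add]; exact hq
  rcases hq with rfl | ⟨l, hl1, hl⟩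
  · rw [add_zero]; exact Or.inr ⟨k, hk1, hk⟩
  have : l = k := by exact_mod_cast hl1.trans hk1.symm
  subst this
  refine Or.inr ⟨l, hk1, ?_⟩
  rw [map_add, hk, hl, map_add]
  ring

theorem HomW.sum {wt : σ → ℕ} {ι : Type*} (s : Finset ι) {f : ι → MvPolynomial σ ℂ} {d : ℤ}
    (h : ∀ i ∈ s, HomW wt (f i) d) : HomW wt (∑ i ∈ s, f i) d := by
  classical
  induction s using Finset.induction_on with
  | empty => rw [Finset.sum_empty]; exact HomW.zero _ _
  | insert a s ha ih =>
    rw [Finset.sum_insert ha]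
    exact (h a (Finset.mem_insert_self a s)).add
      (ih fun i hi => h i (Finset.mem_insert_of_mem hi))

theorem HomW.prod {wt : σ → ℕ} {ι : Type*} (s : Finset ι) {f : ι → MvPolynomial σ ℂ} {d : ι → ℤ}
    (h : ∀ i ∈ s, HomW wt (f i) (d i)) : HomW wt (∏ i ∈ s, f i) (∑ i ∈ s, d i) := by
  classical
  induction s using Finset.induction_on with
  | empty => rw [Finset.prod_empty, Finset.sum_empty]; exact HomW.one _
  | insert a s ha ih =>
    rw [Finset.prod_insert ha, Finset.sum_insert ha]
    exact (h a (Finset.mem_insert_self a s)).mul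
      (ih fun i hi => h i (Finset.mem_insert_of_mem hi))

theorem HomW.neg {wt : σ → ℕ} {p : MvPolynomial σ ℂ} {d : ℤ} (hp : HomW wt p d) :
    HomW wt (-p) d := by
  have h := (HomW.const wt (-1)).mul hp
  rw [zero_add] at h
  simpa using h

theorem HomW.det {wt : σ → ℕ} {I : Type*} [Fintype I] [DecidableEq I]
    (M : Matrix I I (MvPolynomial σ ℂ)) (r c : I → ℤ) (h : ∀ i j, HomW wt (M i j) (r i - c j)) :
    HomW wt M.det (∑ i, r i - ∑ j, c j) := by
  rw [Matrix.det_apply]
  refine HomW.sum _ fun τ _ => ?_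
  have h1 : HomW wt (∏ i, M (τ i) i) (∑ i, (r (τ i) - c i)) :=
    HomW.prod _ fun i _ => h (τ i) i
  rw [Finset.sum_sub_distrib, Equiv.sum_comp τ r] at h1
  rcases Int.units_eq_one_or (Equiv.Perm.sign τ) with h2 | h2
  · rw [h2, one_smul]; exact h1
  · rw [h2, Units.neg_smul, one_smul]; exact h1.neg

theorem HomW.adjugate {wt : σ → ℕ} {I : Type*} [Fintype I] [DecidableEq I]
    (M : Matrix I I (MvPolynomial σ ℂ)) (r c : I → ℤ) (h : ∀ i j, HomW wt (M i j) (r i - c j))
    (i j : I) : HomW wt (M.adjugate i j) (c i - r j + (∑ i, r i - ∑ j, c j)) := by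
  rw [Matrix.adjugate_apply]
  have h1 := HomW.det (wt := wt) (M.updateRow j (Pi.single i 1)) (Function.update r j (c i)) c (by
    intro i' j'
    by_cases hi : i' = j
    · subst hi
      rw [Matrix.updateRow_self, Function.update_self]
      by_cases hj : j' = i
      · subst hj
        rw [Pi.single_eq_same, sub_self]
        exact HomW.one wt
      · rw [Pi.single_eq_of_ne hj]
        exact HomW.zero _ _
    · rw [Matrix.updateRow_ne hi, Function.update_of_ne hi]
      exact h i' j')
  refine h1.cast ?_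
  have h2 : ∑ i', Function.update r j (c i) i' = ∑ i', r i' - r j + c i := by
    rw [Finset.sum_update_of_mem (Finset.mem_univ j), Finset.sdiff_singleton_eq_erase,
      ← Finset.add_sum_erase _ _ (Finset.mem_univ j)]
    ring
  rw [h2]
  ring

/-- recover the polynomial -/
theorem Ph_eval_one (wt : σ → ℕ) (p : MvPolynomial σ ℂ) : (Ph wt p).eval 1 = p := by
  have h : ((Polynomial.aeval (1 : MvPolynomial σ ℂ)).restrictScalars ℂ).comp (Ph wt) =
      AlgHom.id ℂ (MvPolynomial σ ℂ) := by
    apply MvPolynomial.algHom_ext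
    intro i
    simp [Ph]
  have h2 := congrArg (fun f => f p) h
  simpa [Polynomial.aeval_def, Polynomial.eval₂_eq_eval_map] using h2

theorem Ph_ne_zero (wt : σ → ℕ) {p : MvPolynomial σ ℂ} (hp : p ≠ 0) : Ph wt p ≠ 0 := by
  intro h
  apply hp
  rw [← Ph_eval_one wt p, h, Polynomial.eval_zero]

theorem Ph_eval (wt : σ → ℕ) (p : MvPolynomial σ ℂ) (t : ℂ) (x : σ → ℂ) :
    ((Ph wt p).map (eval x)).eval t = eval (fun i => t ^ wt i * x i) p := by
  have h : (Polynomial.evalRingHom t).comp ((Polynomial.mapRingHom (eval x)).comp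
      (Ph wt).toRingHom) = (eval (fun i => t ^ wt i * x i) : MvPolynomial σ ℂ →+* ℂ) := by
    apply MvPolynomial.ringHom_ext
    · intro c
      have : (Ph wt).toRingHom (C c) = Polynomial.C (C c) := AlgHom.commutes (Ph wt) c
      simp only [RingHom.comp_apply, this]
      simp
    · intro i
      have : (Ph wt).toRingHom (X i) = Polynomial.C (X i) * Polynomial.X ^ wt i := by
        change Ph wt (X i) = _
        rw [Ph, aeval_X]
      simp only [RingHom.comp_apply, this]
      simp only [map_mul, map_pow, Polynomial.coe_mapRingHom, Polynomial.map_C, Polynomial.map_X,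
        Polynomial.coe_evalRingHom, Polynomial.eval_C, Polynomial.eval_X, eval_X]
      ring
  have h2 := congrArg (fun f => f p) h
  simpa using h2

theorem HomW.eval {wt : σ → ℕ} {p : MvPolynomial σ ℂ} {d : ℤ} (hp : HomW wt p d) (t : ℂ)
    (x : σ → ℂ) :
    MvPolynomial.eval (fun i => t ^ wt i * x i) p = t ^ d * MvPolynomial.eval x p := by
  rcases hp with rfl | ⟨k, rfl, hk⟩
  · simp
  · rw [← Ph_eval, hk]
    simp only [Polynomial.map_mul, Polynomial.map_pow, Polynomial.map_C, Polynomial.map_X,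
      Polynomial.eval_mul, Polynomial.eval_pow, Polynomial.eval_C, Polynomial.eval_X, zpow_natCast]
    ring

theorem HomW.of_eval {wt : σ → ℕ} {p : MvPolynomial σ ℂ} {k : ℕ}
    (h : ∀ t : ℂ, t ≠ 0 → ∀ x : σ → ℂ,
      MvPolynomial.eval (fun i => t ^ wt i * x i) p = t ^ k * MvPolynomial.eval x p) :
    HomW wt p k := by
  refine Or.inr ⟨k, rfl, ?_⟩
  have h1 : ∀ x : σ → ℂ, (Ph wt p).map (MvPolynomial.eval x) =
      (Polynomial.C p * Polynomial.X ^ k).map (MvPolynomial.eval x) := by
    intro x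
    apply Polynomial.eq_of_infinite_eval_eq
    apply Set.Infinite.mono (s := {t : ℂ | t ≠ 0})
    · intro t ht
      change Polynomial.eval t _ = Polynomial.eval t _
      rw [Ph_eval, h t ht x]
      simp only [Polynomial.map_mul, Polynomial.map_pow, Polynomial.map_C, Polynomial.map_X,
        Polynomial.eval_mul, Polynomial.eval_pow, Polynomial.eval_C, Polynomial.eval_X]
      ring
    · exact (Set.finite_singleton (0 : ℂ)).infinite_compl
  ext1 m
  apply MvPolynomial.funext_set (fun _ => Set.univ) (fun _ => Set.infinite_univ)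
  intro x _
  have h2 := congrArg (fun q => Polynomial.coeff q m) (h1 x)
  simp only [Polynomial.coeff_map] at h2
  exact h2

theorem HomW.unique {wt : σ → ℕ} {p : MvPolynomial σ ℂ} {d e : ℤ} (hd : HomW wt p d)
    (he : HomW wt p e) (hp : p ≠ 0) : d = e := by
  rcases hd with h | ⟨k, rfl, hk⟩
  · exact absurd h hp
  rcases he with h | ⟨l, rfl, hl⟩
  · exact absurd h hp
  have h1 := congrArg Polynomial.natDegree (hk.symm.trans hl)
  rw [Polynomial.natDegree_C_mul_X_pow _ _ hp, Polynomial.natDegree_C_mul_X_pow _ _ hp] at h1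
  rw [h1]

theorem HomW.of_mul {wt : σ → ℕ} {f g : MvPolynomial σ ℂ} {d : ℤ} (hfg : HomW wt (f * g) d)
    (hne : f * g ≠ 0) : ∃ a b, a + b = d ∧ HomW wt f a ∧ HomW wt g b := by
  rcases hfg with h | ⟨n, rfl, hfg⟩
  · exact absurd h hne
  have key : ∀ f : MvPolynomial σ ℂ, (Ph wt f).natDegree = (Ph wt f).natTrailingDegree →
      HomW wt f ((Ph wt f).natDegree : ℤ) := by
    intro f hf
    refine Or.inr ⟨_, rfl, ?_⟩
    have h1 : Ph wt f = Polynomial.C ((Ph wt f).coeff (Ph wt f).natDegree) *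
        Polynomial.X ^ (Ph wt f).natDegree := by
      ext1 k
      rw [Polynomial.coeff_C_mul_X_pow]
      split_ifs with h
      · rw [h]
      · rcases lt_or_gt_of_ne h with h | h
        · exact Polynomial.coeff_eq_zero_of_lt_natTrailingDegree (by omega)
        · exact Polynomial.coeff_eq_zero_of_natDegree_lt h
    have h2 : (Ph wt f).coeff (Ph wt f).natDegree = f := by
      conv_rhs => rw [← Ph_eval_one wt f, h1]
      simp
    rw [h2] at h1
    exact h1
  have hP : Ph wt f * Ph wt g = Polynomial.C (f * g) * Polynomial.X ^ n := by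
    rw [← map_mul]
    exact hfg
  have hne' : Ph wt f * Ph wt g ≠ 0 := by
    rw [hP]
    exact mul_ne_zero (by simpa using hne) (pow_ne_zero _ Polynomial.X_ne_zero)
  have hf0 : Ph wt f ≠ 0 := left_ne_zero_of_mul hne'
  have hg0 : Ph wt g ≠ 0 := right_ne_zero_of_mul hne'
  have e1 : (Ph wt f).natDegree + (Ph wt g).natDegree = n := by
    rw [← Polynomial.natDegree_mul hf0 hg0, hP, Polynomial.natDegree_C_mul_X_pow n _ hne]
  have e2 : (Ph wt f).natTrailingDegree + (Ph wt g).natTrailingDegree = n := by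
    rw [← Polynomial.natTrailingDegree_mul hf0 hg0, hP,
      Polynomial.natTrailingDegree_mul_X_pow (by simpa using hne), Polynomial.natTrailingDegree_C,
      zero_add]
  have l1 := Polynomial.natTrailingDegree_le_natDegree (Ph wt f)
  have l2 := Polynomial.natTrailingDegree_le_natDegree (Ph wt g)
  exact ⟨_, _, by exact_mod_cast e1, key f (by omega), key g (by omega)⟩

end H932W
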