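import Pool.Agent.H932.W.Good2

/-!
# Homogeneous polynomials from scaling, linear polynomials; the two degrees of the Plücker vector
-/

open MvPolynomial H960VB H960VB.Bundle2 Y208PT Pool.Agent.H106R3.VB

namespace H932W

theorem homZ_of_homW {N : ℕ} {p : MvPolynomial (Fin N) ℂ} {d : ℤ}
    (h : HomW (fun _ => 1) p d) : HomZ p d := by
  rcases h with h | ⟨k, hk, h⟩
  · exact Or.inl h
  · refine Or.inr ⟨k, hk, ?_⟩
    intro u hu
    have h1 := coeff_Ph (fun _ : Fin N => 1) p (ws (fun _ => 1) u) u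
    rw [if_pos rfl, h, Polynomial.coeff_C_mul, Polynomial.coeff_X_pow] at h1
    have h2 : ws (fun _ : Fin N => 1) u = k := by
      by_contra hne
      rw [if_neg hne, mul_zero, coeff_zero] at h1
      exact hu h1.symm
    rw [← h2]
    simp [ws, Finsupp.weight_apply, Finsupp.sum_fintype]

theorem homZ_of_scale {N : ℕ} (p : MvPolynomial (Fin N) ℂ) (d : ℤ)
    (h : ∀ t : ℂ, t ≠ 0 → ∀ x : Fin N → ℂ, eval (t • x) p = t ^ d * eval x p) : HomZ p d := by
  rcases le_or_gt 0 d with hd | hd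
  · obtain ⟨k, rfl⟩ := Int.eq_ofNat_of_zero_le hd
    apply homZ_of_homW
    apply HomW.of_eval
    intro t ht x
    have h1 := h t ht x
    have h2 : (fun i => t ^ 1 * x i) = t • x := by
      ext i
      simp
    rw [h2, h1]
    exact congrArg (· * eval x p) (zpow_natCast t k)
  · left
    apply MvPolynomial.funext
    intro x
    obtain ⟨q, hq⟩ : ∃ q : Polynomial ℂ, ∀ t, q.eval t = eval (t • x) p := by
      refine ⟨aeval (fun i => Polynomial.X * Polynomial.C (x i)) p, fun t => ?_⟩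
      have h1 : ((Polynomial.evalRingHom t).comp
          (aeval (fun i => (Polynomial.X * Polynomial.C (x i) : Polynomial ℂ)) :
            MvPolynomial (Fin N) ℂ →ₐ[ℂ] Polynomial ℂ).toRingHom) =
          (eval (t • x) : MvPolynomial (Fin N) ℂ →+* ℂ) := by
        apply MvPolynomial.ringHom_ext
        · intro r
          simp
        · intro i
          simp
          ring
      exact congrArg (fun f => f p) h1
    have h1 := poly_zero_of (q := q) (c := eval x p) hd (fun t ht => by rw [hq, h t ht])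
    rw [h1, map_zero]

theorem eval_add_of_hom1 {N : ℕ} {p : MvPolynomial (Fin N) ℂ} (hp : HomZ p 1)
    (x y : Fin N → ℂ) : eval (x + y) p = eval x p + eval y p := by
  rcases hp with rfl | ⟨k, hk, hp⟩
  · simp
  · have hk1 : k = 1 := by exact_mod_cast hk
    subst hk1
    have h1 : p ∈ homogeneousSubmodule (Fin N) ℂ 1 := hp
    rw [homogeneousSubmodule_one_eq_span_X] at h1
    clear hp
    induction h1 using Submodule.span_induction with
    | mem p hp =>
      obtain ⟨i, rfl⟩ := hp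
      simp
    | zero => simp
    | add p q _ _ h1 h2 =>
      rw [map_add, map_add, map_add, h1, h2]
      ring
    | smul c p _ h1 =>
      rw [smul_eval, smul_eval, smul_eval, h1]
      ring

theorem le_of_prop {Y : Type} [Fintype Y] (u v : Y → MvPolynomial (Fin 2) ℂ) (dY : Y → ℤ)
    (d e : ℤ) (hu : ∀ J, HomZ (u J) (dY J - d)) (hv : ∀ J, HomZ (v J) (dY J - e))
    (hu0 : ∀ z : Fin 2 → ℂ, z ≠ 0 → ∃ J, eval z (u J) ≠ 0)
    (hv0 : ∀ z : Fin 2 → ℂ, z ≠ 0 → ∃ J, eval z (v J) ≠ 0)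
    (h : ∀ z : Fin 2 → ℂ, z ≠ 0 → ∃ c : ℂ, ∀ J, eval z (v J) = c * eval z (u J)) : e ≤ d := by
  by_contra hcon
  push Not at hcon
  let S : Matrix Y (Fin 1) (MvPolynomial (Fin 2) ℂ) := fun J _ => u J
  have hS : ∀ (z : Fin 2 → ℂ) (g : Fin 1 → ℂ), (evm S z).mulVec g = fun J => eval z (u J) * g 0 := by
    intro z g
    funext J
    simp only [Matrix.mulVec, dotProduct, Fin.sum_univ_one]
    rfl
  have hinj : ∀ z : Fin 2 → ℂ, z ≠ 0 → ∀ g : Fin 1 → ℂ, (evm S z).mulVec g = 0 → g = 0 := by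
    intro z hz g hg
    rw [hS] at hg
    obtain ⟨J, hJ⟩ := hu0 z hz
    have h1 := (mul_eq_zero.1 (congrFun hg J)).resolve_left hJ
    ext i
    fin_cases i
    exact h1
  obtain ⟨g, hg⟩ := hartogs (le_refl 2) S v hinj (by
    intro z hz
    obtain ⟨c, hc⟩ := h z hz
    refine ⟨fun _ => c, ?_⟩
    rw [hS]
    funext J
    exact (mul_comm _ _).trans (hc J).symm)
  have h1 := hartogs_hom (by norm_num : 1 ≤ 2) S v dY (fun _ => d) e (fun J _ => hu J) hv hinj g hg 0
  have h2 : g 0 = 0 := HomZ.eq_zero_of_neg h1 (by omega)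
  have hz : (![1, 0] : Fin 2 → ℂ) ≠ 0 := by
    intro h0
    have := congrFun h0 0
    simp at this
  obtain ⟨J, hJ⟩ := hv0 _ hz
  apply hJ
  rw [← hg]
  simp [Matrix.mulVec, dotProduct, h2]

/-- the two degrees of the Plücker vector are equal -/
theorem Plk.d_eq {n : ℕ} (hn : 2 ≤ n) {E : Bundle2 n} {j : ℤ} {G : ℕ} (K : Plk E j G)
    (hdim : ∀ y w : Fin (n + 1) → ℂ, LinearIndependent ℂ ![y, w] →
      Module.finrank ℂ (LinearMap.ker (Matrix.mulVecLin (evm (fam2 E j) (Sum.elim y w)))) = G) :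
    K.d1 = K.d2 := by
  classical
  let i0 : Fin (n + 1) := ⟨0, by omega⟩
  let i1 : Fin (n + 1) := ⟨1, by omega⟩
  let i2 : Fin (n + 1) := ⟨2, by omega⟩
  have h01 : i0 ≠ i1 := fun h => by simpa [i0, i1] using congrArg Fin.val h
  have h02 : i0 ≠ i2 := fun h => by simpa [i0, i2] using congrArg Fin.val h
  have h12 : i1 ≠ i2 := fun h => by simpa [i1, i2] using congrArg Fin.val h
  let x₀ : Fin (n + 1) → ℂ := Pi.single i0 1
  let w : (Fin 2 → ℂ) → Fin (n + 1) → ℂ := fun z => Pi.single i1 (z 0) + Pi.single i2 (z 1)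
  have hwt : ∀ (t : ℂ) (z : Fin 2 → ℂ), w (t • z) = t • w z := by
    intro t z
    ext i
    simp only [w, Pi.add_apply, Pi.smul_apply, Pi.single_apply, smul_eq_mul]
    split_ifs <;> ring
  have hli : ∀ z : Fin 2 → ℂ, z ≠ 0 → LinearIndependent ℂ ![x₀, w z] := by
    intro z hz
    by_cases h0 : z 0 = 0
    · have h1 : z 1 ≠ 0 := by
        intro h1
        apply hz
        ext i
        fin_cases i
        · exact h0
        · exact h1
      refine li_of_minor (i := i0) (k := i2) ?_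
      simpa [x₀, w, h02, h02.symm, h12.symm, h01] using h1
    · refine li_of_minor (i := i0) (k := i1) ?_
      simpa [x₀, w, h01, h01.symm, h12, h02] using h0
  let wp : Fin (n + 1) → MvPolynomial (Fin 2) ℂ := fun i =>
    C ((Pi.single i1 1 : Fin (n + 1) → ℂ) i) * X 0 + C ((Pi.single i2 1 : Fin (n + 1) → ℂ) i) * X 1
  have hwp : ∀ z i, eval z (wp i) = w z i := by
    intro z i
    simp only [wp, w, Pi.add_apply, Pi.single_apply, map_add, map_mul, eval_C, eval_X]
    split_ifs <;> ring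
  let sL : MvPolynomial (V2 n) ℂ →ₐ[ℂ] MvPolynomial (Fin 2) ℂ :=
    aeval (Sum.elim (fun i => C (x₀ i)) wp)
  let sR : MvPolynomial (V2 n) ℂ →ₐ[ℂ] MvPolynomial (Fin 2) ℂ :=
    aeval (Sum.elim wp (fun i => C (x₀ i)))
  have hsL : ∀ z p, eval z (sL p) = eval (Sum.elim x₀ (w z)) p := by
    intro z p
    rw [eval_aeval_mv]
    congr 1
    congr 1
    funext i
    rcases i with i | i
    · simp
    · exact hwp z i
  have hsR : ∀ z p, eval z (sR p) = eval (Sum.elim (w z) x₀) p := by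
    intro z p
    rw [eval_aeval_mv]
    congr 1
    congr 1
    funext i
    rcases i with i | i
    · exact hwp z i
    · simp
  have hu : ∀ J, HomZ (sL (K.pi J)) ((∑ s, (((J s).2 : ℕ) : ℤ)) - K.d2) := by
    intro J
    apply homZ_of_scale
    intro t ht z
    rw [hsL, hsL, hwt]
    have h1 := (K.homW J).eval t (Sum.elim x₀ (w z))
    rw [wtW_act] at h1
    exact h1
  have hv : ∀ J, HomZ (sR (K.pi (rv ∘ J))) ((∑ s, (((J s).2 : ℕ) : ℤ)) - K.d1) := by
    intro J
    apply homZ_of_scale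
    intro t ht z
    rw [hsR, hsR, hwt]
    have h1 := (K.homY (rv ∘ J)).eval t (Sum.elim (w z) x₀)
    rw [wtY_act] at h1
    have h2 : (∑ s, (E.β ((rv ∘ J) s).1 + j - ((((rv ∘ J) s).2 : ℕ) : ℤ)) - K.d1) =
        (∑ s, (((J s).2 : ℕ) : ℤ)) - K.d1 := by
      congr 1
      refine Finset.sum_congr rfl fun s _ => ?_
      have h3 := rv_val (J s)
      change E.β (J s).1 + j - (((rv (J s)).2 : ℕ) : ℤ) = _
      rw [h3]
      ring
    rw [h2] at h1
    exact h1
  have hprop : ∀ z : Fin 2 → ℂ, z ≠ 0 → ∃ c : ℂ, c ≠ 0 ∧ ∀ J,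
      eval z (sR (K.pi (rv ∘ J))) = c * eval z (sL (K.pi J)) := by
    intro z hz
    have h := hli z hz
    obtain ⟨b, hb, hbk, -⟩ := exists_ker_basis _ (hdim _ _ h)
    obtain ⟨κ₁, h1⟩ := K.wed _ _ h b hbk
    obtain ⟨κ₂, h2⟩ := K.wed _ _ (li_symm h) (fun s => b s ∘ rv) (fun s => kr_rv E h (hbk s))
    obtain ⟨J₀, hJ₀⟩ := exists_Wd_ne b hb
    have h3 : ∀ J, Wd b J = κ₂ * eval z (sR (K.pi (rv ∘ J))) := by
      intro J
      rw [hsR, ← h2]
      unfold Wd
      congr 1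
      ext a c
      simp only [Matrix.of_apply, Function.comp_apply, rv_rv]
    have h4 : κ₁ ≠ 0 := by
      rintro rfl
      apply hJ₀
      rw [h1, zero_mul]
    have h5 : κ₂ ≠ 0 := by
      rintro rfl
      apply hJ₀
      rw [h3, zero_mul]
    refine ⟨κ₂⁻¹ * κ₁, mul_ne_zero (inv_ne_zero h5) h4, fun J => ?_⟩
    rw [hsL, mul_assoc, ← h1, h3, ← mul_assoc, inv_mul_cancel₀ h5, one_mul]
  have hu0 : ∀ z : Fin 2 → ℂ, z ≠ 0 → ∃ J, eval z (sL (K.pi J)) ≠ 0 := by
    intro z hz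
    obtain ⟨J, hJ⟩ := K.ne _ _ (hli z hz)
    exact ⟨J, by rw [hsL]; exact hJ⟩
  have hv0 : ∀ z : Fin 2 → ℂ, z ≠ 0 → ∃ J, eval z (sR (K.pi (rv ∘ J))) ≠ 0 := by
    intro z hz
    obtain ⟨J, hJ⟩ := hu0 z hz
    obtain ⟨c, hc, h⟩ := hprop z hz
    exact ⟨J, by rw [h]; exact mul_ne_zero hc hJ⟩
  apply le_antisymm
  · exact le_of_prop _ _ (fun J => ∑ s, (((J s).2 : ℕ) : ℤ)) _ _ hu hv hu0 hv0 (fun z hz => by
      obtain ⟨c, -, h⟩ := hprop z hz
      exact ⟨c, h⟩)
  · exact le_of_prop _ _ (fun J => ∑ s, (((J s).2 : ℕ) : ℤ)) _ _ hv hu hv0 hu0 (fun z hz => by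
      obtain ⟨c, hc, h⟩ := hprop z hz
      refine ⟨c⁻¹, fun J => ?_⟩
      rw [h, ← mul_assoc, inv_mul_cancel₀ hc, one_mul])

end H932W
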