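import Pool.Agent.H932.W.Hyp
import Pool.Agent.H932.W.Contra

/-!
# Rank two bundles on `P^n` all of whose lines have the gap at most `n - 1` split
-/

open MvPolynomial H960VB H960VB.Bundle2 Y208PT Pool.Agent.H106R3.VB H932V

namespace H932W

theorem coord_pt {m : ℕ} (y : Fin (m + 2) → ℂ) (hy : ∀ k : Fin m, y k.succ.succ = 0) :
    y = y 0 • (Fin.cons 1 0 : Fin (m + 2) → ℂ) + y 1 • (Fin.cons 0 (Fin.cons 1 0)) := by
  ext i
  refine Fin.cases ?_ (fun i => ?_) i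
  · simp
  · refine Fin.cases ?_ (fun i => ?_) i
    · simp
    · simp [hy]

theorem li_coord (m : ℕ) :
    LinearIndependent ℂ ![(Fin.cons 1 0 : Fin (m + 2) → ℂ), Fin.cons 0 (Fin.cons 1 0)] := by
  refine li_of_minor (i := 0) (k := 1) ?_
  have h1 : (Fin.cons 1 0 : Fin (m + 2) → ℂ) 1 = 0 := rfl
  have h2 : (Fin.cons 0 (Fin.cons 1 0) : Fin (m + 2) → ℂ) 1 = 1 := rfl
  rw [h1, h2]
  simp

theorem mul_le_of_sq {k d : ℤ} (h : 2 * d ≤ -2 * (k - 1) * (k - 1)) (hk : 2 ≤ k) : d < 0 := by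
  nlinarith

/-- **The coordinate version.** -/
theorem coord_false {m : ℕ} (E : Bundle2 (m + 1)) {c₁ : ℤ} (H : Hyp E c₁) (hm : 4 ≤ m)
    {a' b' : ℤ} (hA : E.SplitsOn (Fin.cons 1 0) (Fin.cons 0 (Fin.cons 1 0)) a' b')
    (hg : a' - b' = (m : ℤ) - 2) : False := by
  classical
  -- the numbers
  obtain ⟨a, ha⟩ := H.parity (by omega)
  have hcA := H.hc _ _ (li_coord m) _ _ hA
  push_cast at ha
  obtain ⟨b₀, hb₀⟩ : ∃ b₀ : ℤ, b₀ = a - m := ⟨_, rfl⟩
  have ha' : a' = a - 1 := by omega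
  have hb' : b' = b₀ + 1 := by omega
  subst ha' hb'
  have hty : ∀ y w : Fin (m + 2) → ℂ, LinearIndependent ℂ ![y, w] → ∀ p q : ℤ,
      E.SplitsOn y w p q → p ≤ a ∧ q ≤ a ∧ p + q = a + b₀ := by
    intro y w hyw p q hpq
    have h1 := H.gap y w hyw p q hpq
    have h2 := H.gap y w hyw q p (SplitsOn.swap hpq)
    have h3 := H.hc y w hyw p q hpq
    push_cast at h1 h2
    refine ⟨?_, ?_, ?_⟩ <;> omega
  have hdim : ∀ y w : Fin (m + 2) → ℂ, LinearIndependent ℂ ![y, w] →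
      Module.finrank ℂ (LinearMap.ker (Matrix.mulVecLin (evm (fam2 E (-b₀ - 1))
        (Sum.elim y w)))) = m := by
    intro y w hyw
    obtain ⟨p, q, hpq⟩ := splitsOn_exists E hyw
    obtain ⟨h1, h2, h3⟩ := hty y w hyw p q hpq
    rw [finrank_fam2 E hyw _ hpq]
    omega
  obtain ⟨K⟩ := exists_plk (by omega) E (-b₀ - 1) m hdim
  obtain ⟨g₁, g₂, hg₁, hg₂, hl⟩ := id hA
  let T : Dat m :=
    { E := E
      G := m
      a := a
      b₀ := b₀
      j := -b₀ - 1
      α := a - 1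
      hab := by omega
      hj := rfl
      K := K
      hmax := fun y w hyw p q hpq => ⟨(hty y w hyw p q hpq).1, (hty y w hyw p q hpq).2.1⟩
      g₁ := g₁
      hg₁ := hg₁
      hg0 := fun z hz => (hl z hz).2.2.ne_zero 0 }
  -- the section through a point with a given value
  have hsec : ∀ y : Fin (m + 2) → ℂ, y ≠ 0 → ∀ ε ∈ E.fib y, ε ≠ 0 →
      ∃ w, LinearIndependent ℂ ![y, w] ∧ ∃ f : Idx E.β (-a) → ℂ, Kr E (-a) y w f ∧
        E.cf f 0 = ε := by
    intro y hy ε hε hε0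
    obtain ⟨w, hyw, p, q, hpq, hgap, g, hgs, hge⟩ := H.dir (by omega) hy hε hε0
    have h3 := H.hc y w hyw p q hpq
    push_cast at hgap
    have hpa : p = a := by omega
    rw [hpa] at hgs
    obtain ⟨f, hf, -, hf2⟩ := mem_of_lineSec E hyw hgs
    exact ⟨w, hyw, f, hf, hf2.trans hge⟩
  -- the bounds
  have he0 : (Fin.cons 1 0 : Fin (m + 2) → ℂ) ≠ 0 := (li_coord m).ne_zero 0
  obtain ⟨ε, hε, hε0⟩ := exists_fib E he0
  obtain ⟨w₂, hw₂, f, hf, hfε⟩ := hsec _ he0 ε hε hε0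
  have hf0 : f ≠ 0 := by
    rintro rfl
    apply hε0
    rw [← hfε]
    ext i
    simp [cf]
  obtain ⟨w₁, hw₁, p, q, hpq, hqp, hpq1⟩ := H.low (by omega) he0
  have hs := (hty _ _ hw₁ p q hpq).2.2
  have hd2 := K.d2_bound (by omega) a b₀ (by omega) rfl _ (fun w hw => hdim _ w hw) w₁ hw₁ p q
    hpq hqp hpq1 hs w₂ hw₂ f hf hf0
  have hd1 := K.d1_bound (by omega) a b₀ (by omega) rfl _ (fun w hw => hdim _ w hw) w₁ hw₁ p q
    hpq hqp hpq1 hs w₂ hw₂ f hf hf0
  have hN := N0_eq m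
  have hS : 2 * (∑ s : Fin m, ((s : ℕ) : ℤ)) = (m : ℤ) * ((m : ℤ) - 1) := by
    rw [Fin.sum_univ_eq_sum_range (fun s => (s : ℤ)) m]
    have h1 := Finset.sum_range_id_mul_two m
    have h2 : ((∑ s ∈ Finset.range m, s : ℕ) : ℤ) = ∑ s ∈ Finset.range m, (s : ℤ) := by
      push_cast
      rfl
    rw [← h2]
    have h3 : ((m - 1 : ℕ) : ℤ) = (m : ℤ) - 1 := by omega
    rw [← h3]
    have h4 : (((∑ s ∈ Finset.range m, s) * 2 : ℕ) : ℤ) = ((m * (m - 1) : ℕ) : ℤ) := by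
      rw [h1]
    push_cast at h4 ⊢
    linarith
  have hdp : T.dp < 0 := by
    change (∑ s : Fin m, ((s : ℕ) : ℤ)) - m * (a - 1 + (-b₀ - 1)) + K.d1 < 0
    have h1 : a - 1 + (-b₀ - 1) = m - 2 := by omega
    rw [h1]
    rcases Nat.even_or_odd' m with ⟨k, hk | hk⟩
    · have e1 : (m + 1) / 2 = k := by omega
      have e2 : m / 2 = k := by omega
      rw [e1, e2] at hN
      have e3 : (m : ℤ) = 2 * k := by omega
      rw [e3] at hS ⊢
      have hk2 : (2 : ℤ) ≤ k := by omega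
      nlinarith
    · have e1 : (m + 1) / 2 = k + 1 := by omega
      have e2 : m / 2 = k := by omega
      rw [e1, e2] at hN
      push_cast at hN
      have e3 : (m : ℤ) = 2 * k + 1 := by omega
      rw [e3] at hS ⊢
      have hk2 : (2 : ℤ) ≤ k := by omega
      nlinarith
  have hdq : T.dq ≤ 0 := by
    change K.d2 - (∑ s : Fin m, ((s : ℕ) : ℤ)) ≤ 0
    rcases Nat.even_or_odd' m with ⟨k, hk | hk⟩
    · have e1 : (m + 1) / 2 = k := by omega
      have e2 : m / 2 = k := by omega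
      rw [e1, e2] at hN
      have e3 : (m : ℤ) = 2 * k := by omega
      rw [e3] at hS
      have hk2 : (2 : ℤ) ≤ k := by omega
      nlinarith
    · have e1 : (m + 1) / 2 = k + 1 := by omega
      have e2 : m / 2 = k := by omega
      rw [e1, e2] at hN
      push_cast at hN
      have e3 : (m : ℤ) = 2 * k + 1 := by omega
      rw [e3] at hS
      have hk2 : (2 : ℤ) ≤ k := by omega
      nlinarith
  refine T.contra hdp hdq ?_ ?_
  · intro y w hy hw hyw f hf
    have h1 : E.SplitsOn y w (a - 1) (b₀ + 1) :=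
      SplitsOn.lin hA (y 0) (y 1) (w 0) (w 1) (coord_pt y hy) (coord_pt w hw) hyw
    have h2 := finrank_fam2 E hyw (-a) h1
    have h3 : (a - 1 + -a + 1).toNat + (b₀ + 1 + -a + 1).toNat = 0 := by omega
    rw [h3, Submodule.finrank_eq_zero] at h2
    have h4 : f ∈ LinearMap.ker (Matrix.mulVecLin (evm (fam2 E (-a)) (Sum.elim y w))) := by
      rw [LinearMap.mem_ker, Matrix.mulVecLin_apply]
      exact hf
    rw [h2, Submodule.mem_bot] at h4
    exact h4
  · intro y hy0 hy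
    have hz : (![y 0, y 1] : Fin 2 → ℂ) ≠ 0 := by
      intro h0
      apply hy0
      rw [coord_pt y hy]
      have h1 : y 0 = 0 := congrFun h0 0
      have h2 : y 1 = 0 := congrFun h0 1
      rw [h1, h2]
      simp
    refine hsec y hy0 (T.gv y) ?_ ?_
    · have h1 := (hl _ hz).1
      simp only [Matrix.cons_val_zero, Matrix.cons_val_one] at h1
      rw [← coord_pt y hy] at h1
      exact h1
    · exact (hl _ hz).2.2.ne_zero 0

/-- **Theorem N.** -/
theorem thmN {n : ℕ} (hn : 5 ≤ n) (E : Bundle2 n)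
    (h : ∀ A B : Fin (n + 1) → ℂ, LinearIndependent ℂ ![A, B] →
      ∀ a b : ℤ, E.SplitsOn A B a b → a - b ≤ (n : ℤ) - 1) : E.Splits := by
  by_contra hns
  obtain ⟨c₁, hc⟩ := exists_chern (by omega) E
  have H : Hyp E c₁ := ⟨hns, hc, h⟩
  obtain ⟨m, rfl⟩ : ∃ m, n = m + 1 := ⟨n - 1, by omega⟩
  obtain ⟨Q, hPQ, a, b, hab, hg⟩ := H.mid (by omega) (P := Fin.cons 1 0) (by
    intro h
    have := congrFun h 0
    simp at this)
  obtain ⟨T, hT, hT0, hT1⟩ := exists_move2 hPQ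
  refine coord_false (E.pull T hT) (H.pull (by omega) T hT) (by omega) (a' := a) (b' := b) ?_ ?_
  · apply splitsOn_pull
    rw [hT0, hT1]
    exact hab
  · push_cast at hg
    omega

end H932W
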