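import Pool.Agent.H932.W.Bound

/-!
# The Plücker vector of the sections on the lines, and the bounds for its degrees
-/

open MvPolynomial H960VB H960VB.Bundle2 Y208PT Pool.Agent.H106R3.VB

namespace H932W

variable {n : ℕ}

/-- a Plücker vector of the spaces of sections of `E(j)` on the lines -/
structure Plk (E : Bundle2 n) (j : ℤ) (G : ℕ) where
  pi : (Fin G → Idx E.β j) → MvPolynomial (V2 n) ℂ
  d1 : ℤ
  d2 : ℤ
  ne : ∀ y w : Fin (n + 1) → ℂ, LinearIndependent ℂ ![y, w] →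
    ∃ J, eval (Sum.elim y w) (pi J) ≠ 0
  wed : ∀ y w : Fin (n + 1) → ℂ, LinearIndependent ℂ ![y, w] → ∀ u : Fin G → Idx E.β j → ℂ,
    (∀ s, Kr E j y w (u s)) → ∃ κ : ℂ, ∀ J, Wd u J = κ * eval (Sum.elim y w) (pi J)
  homY : ∀ J, HomW (wtY n) (pi J) (∑ s, (E.β (J s).1 + j - (((J s).2 : ℕ) : ℤ)) - d1)
  homW : ∀ J, HomW (wtW n) (pi J) (∑ s, (((J s).2 : ℕ) : ℤ) - d2)

theorem li_of_minor {y w : Fin (n + 1) → ℂ} {i k : Fin (n + 1)} (h : y i * w k - y k * w i ≠ 0) :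
    LinearIndependent ℂ ![y, w] := by
  rw [LinearIndependent.pair_iff]
  intro s t hst
  have h1 : s * y i + t * w i = 0 := by
    have := congrFun hst i
    simpa using this
  have h2 : s * y k + t * w k = 0 := by
    have := congrFun hst k
    simpa using this
  have h3 : s * (y i * w k - y k * w i) = 0 := by linear_combination w k * h1 - w i * h2
  have h4 : t * (y i * w k - y k * w i) = 0 := by linear_combination y i * h2 - y k * h1
  exact ⟨(mul_eq_zero.1 h3).resolve_right h, (mul_eq_zero.1 h4).resolve_right h⟩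

theorem exists_plk (hn : 1 ≤ n) (E : Bundle2 n) (j : ℤ) (G : ℕ)
    (hdim : ∀ y w : Fin (n + 1) → ℂ, LinearIndependent ℂ ![y, w] →
      Module.finrank ℂ (LinearMap.ker (Matrix.mulVecLin (evm (fam2 E j) (Sum.elim y w)))) = G) :
    Nonempty (Plk E j G) := by
  classical
  let i0 : Fin (n + 1) := ⟨0, by omega⟩
  let i1 : Fin (n + 1) := ⟨1, by omega⟩
  have h01 : i0 ≠ i1 := by
    intro h
    have := congrArg Fin.val h
    simp [i0, i1] at this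
  let Φ : MvPolynomial (V2 n) ℂ := X (Sum.inl i0) * X (Sum.inr i1) - X (Sum.inl i1) * X (Sum.inr i0)
  have hΦe : ∀ v : V2 n → ℂ, eval v Φ = (v ∘ Sum.inl) i0 * (v ∘ Sum.inr) i1 -
      (v ∘ Sum.inl) i1 * (v ∘ Sum.inr) i0 := by
    intro v
    simp [Φ]
  have hΦ : Φ ≠ 0 := by
    intro h
    have h1 := hΦe (Sum.elim (Pi.single i0 1) (Pi.single i1 1))
    rw [h, map_zero] at h1
    simp [h01, h01.symm] at h1
  have hgood : ∀ v, eval v Φ ≠ 0 → LinearIndependent ℂ ![v ∘ Sum.inl, v ∘ Sum.inr] := by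
    intro v hv
    rw [hΦe] at hv
    exact li_of_minor hv
  obtain ⟨π, h1, h2, h3⟩ := plu (fam2 E j) G Φ hΦ (by
    intro v hv
    have := hdim _ _ (hgood v hv)
    rwa [elim_self] at this)
  obtain ⟨d1, hd1⟩ := h3 (wtY n) (fun c => E.γ c.1 + j - ((c.2 : ℕ) : ℤ))
    (fun b => E.β b.1 + j - ((b.2 : ℕ) : ℤ)) (fam2_homY E j)
  obtain ⟨d2, hd2⟩ := h3 (wtW n) (fun c => ((c.2 : ℕ) : ℤ)) (fun b => ((b.2 : ℕ) : ℤ))
    (fam2_homW E j)
  exact ⟨⟨π, d1, d2, fun y w h => h1 _ (hdim y w h), fun y w h u hu => h2 _ (hdim y w h) u hu,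
    hd1, hd2⟩⟩

/-- reversal of the order of the coefficients -/
def rv {a : ℕ} {β : Fin a → ℤ} {j : ℤ} (x : Idx β j) : Idx β j := ⟨x.1, Fin.rev x.2⟩

theorem rv_rv {a : ℕ} {β : Fin a → ℤ} {j : ℤ} (x : Idx β j) : rv (rv x) = x := by
  unfold rv
  simp

theorem rv_val {a : ℕ} {β : Fin a → ℤ} {j : ℤ} (x : Idx β j) :
    (((rv x).2 : ℕ) : ℤ) = β x.1 + j - ((x.2 : ℕ) : ℤ) := by
  obtain ⟨i, b⟩ := x
  have hb := b.2
  have h1 : ((rv (⟨i, b⟩ : Idx β j)).2 : ℕ) = (β i + j + 1).toNat - (b + 1) := Fin.val_rev b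
  rw [h1]
  simp only
  omega

theorem lev_rv (E : Bundle2 n) {j : ℤ} (g : Idx E.β j → ℂ) (z : Fin 2 → ℂ) :
    E.lev (g ∘ rv) z = E.lev g ![z 1, z 0] := by
  ext i
  unfold lev
  rw [← Equiv.sum_comp Fin.revPerm]
  refine Finset.sum_congr rfl fun b _ => ?_
  have h1 : (g ∘ rv) ⟨i, Fin.revPerm b⟩ = g ⟨i, b⟩ := by
    simp [rv]
  have h2 : ((Fin.revPerm b : Fin (E.β i + j + 1).toNat) : ℕ) = (E.β i + j).toNat - b := by
    rw [Fin.revPerm_apply, Fin.val_rev]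
    omega
  rw [h1, h2]
  have h3 : (E.β i + j).toNat - ((E.β i + j).toNat - (b : ℕ)) = b := by
    have := b.2
    omega
  rw [h3]
  simp
  ring

theorem li_symm {y w : Fin (n + 1) → ℂ} (h : LinearIndependent ℂ ![y, w]) :
    LinearIndependent ℂ ![w, y] := by
  rw [LinearIndependent.pair_iff] at h ⊢
  intro s t hst
  have := h t s (by rw [← hst]; abel)
  exact ⟨this.2, this.1⟩

theorem kr_rv (E : Bundle2 n) {j : ℤ} {y w : Fin (n + 1) → ℂ} (h : LinearIndependent ℂ ![y, w])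
    {g : Idx E.β j → ℂ} (hg : Kr E j y w g) : Kr E j w y (g ∘ rv) := by
  unfold Kr at hg ⊢
  rw [mem_fam2 E h] at hg
  rw [mem_fam2 E (li_symm h)]
  intro z
  have h1 := hg ![z 1, z 0]
  rw [lev_rv]
  rw [← h1]
  congr 2
  simp
  abel

/-- the bound for the degree in the second point -/
theorem Plk.d2_bound {E : Bundle2 n} {j : ℤ} {G : ℕ} (K : Plk E j G) (hG : 2 ≤ G) (a b₀ : ℤ)
    (hab : a - b₀ = G) (hj : j = -b₀ - 1) (x₀ : Fin (n + 1) → ℂ)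
    (hdim : ∀ w, LinearIndependent ℂ ![x₀, w] →
      Module.finrank ℂ (LinearMap.ker (Matrix.mulVecLin (evm (fam2 E j) (Sum.elim x₀ w)))) = G)
    (w₁ : Fin (n + 1) → ℂ) (hw₁ : LinearIndependent ℂ ![x₀, w₁]) (p q : ℤ)
    (hpq : E.SplitsOn x₀ w₁ p q) (hp : q ≤ p) (hq : p ≤ q + 1) (hs : p + q = a + b₀)
    (w₂ : Fin (n + 1) → ℂ) (hw₂ : LinearIndependent ℂ ![x₀, w₂]) (f : Idx E.β (-a) → ℂ)
    (hf : Kr E (-a) x₀ w₂ f) (hf0 : f ≠ 0) : K.d2 + 1 ≤ N0 G := by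
  refine nu_bound E x₀ G hG a b₀ j hab hj (fun J w => eval (Sum.elim x₀ w) (K.pi J)) K.d2
    ?_ ?_ ?_ hdim w₁ hw₁ p q hpq hp hq hs w₂ hw₂ f hf hf0
  · intro J w
    refine ⟨(Ph (wtW n) (K.pi J)).map (eval (Sum.elim x₀ w)), fun t => ?_⟩
    rw [Ph_eval, wtW_act]
    rfl
  · intro J w t ht
    have h1 := (K.homW J).eval t (Sum.elim x₀ w)
    rw [wtW_act] at h1
    exact h1
  · intro w hw u hu
    exact K.wed x₀ w hw u hu

/-- the bound for the degree in the first point -/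
theorem Plk.d1_bound {E : Bundle2 n} {j : ℤ} {G : ℕ} (K : Plk E j G) (hG : 2 ≤ G) (a b₀ : ℤ)
    (hab : a - b₀ = G) (hj : j = -b₀ - 1) (x₀ : Fin (n + 1) → ℂ)
    (hdim : ∀ w, LinearIndependent ℂ ![x₀, w] →
      Module.finrank ℂ (LinearMap.ker (Matrix.mulVecLin (evm (fam2 E j) (Sum.elim x₀ w)))) = G)
    (w₁ : Fin (n + 1) → ℂ) (hw₁ : LinearIndependent ℂ ![x₀, w₁]) (p q : ℤ)
    (hpq : E.SplitsOn x₀ w₁ p q) (hp : q ≤ p) (hq : p ≤ q + 1) (hs : p + q = a + b₀)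
    (w₂ : Fin (n + 1) → ℂ) (hw₂ : LinearIndependent ℂ ![x₀, w₂]) (f : Idx E.β (-a) → ℂ)
    (hf : Kr E (-a) x₀ w₂ f) (hf0 : f ≠ 0) : K.d1 + 1 ≤ N0 G := by
  refine nu_bound E x₀ G hG a b₀ j hab hj (fun J w => eval (Sum.elim w x₀) (K.pi (rv ∘ J))) K.d1
    ?_ ?_ ?_ hdim w₁ hw₁ p q hpq hp hq hs w₂ hw₂ f hf hf0
  · intro J w
    refine ⟨(Ph (wtY n) (K.pi (rv ∘ J))).map (eval (Sum.elim w x₀)), fun t => ?_⟩
    rw [Ph_eval, wtY_act]
    rfl
  · intro J w t ht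
    have h1 := (K.homY (rv ∘ J)).eval t (Sum.elim w x₀)
    rw [wtY_act] at h1
    refine Eq.trans h1 ?_
    have h2 : ∑ s, (E.β ((rv ∘ J) s).1 + j - ((((rv ∘ J) s).2 : ℕ) : ℤ)) =
        ∑ s, (((J s).2 : ℕ) : ℤ) := by
      refine Finset.sum_congr rfl fun s _ => ?_
      have h3 := rv_val (J s)
      simp only [Function.comp_apply]
      rw [h3]
      simp only [rv]
      ring
    rw [h2]
  · intro w hw u hu
    obtain ⟨κ, hκ⟩ := K.wed w x₀ (li_symm hw) (fun s => u s ∘ rv) (fun s => kr_rv E hw (hu s))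
    refine ⟨κ, fun J => ?_⟩
    rw [← hκ]
    unfold Wd
    congr 1
    ext a b
    simp [rv_rv]

end H932W
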