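import Pool.Agent.H932.W.Frame

/-!
# The Plücker vector of the kernel of a polynomial matrix
-/

open MvPolynomial H960VB

namespace H932W

variable {σ Y I : Type}

/-- The Plücker vector of the kernel of a polynomial matrix, of any corank. -/
theorem plu [Fintype Y] [Fintype I] [DecidableEq I]
    (M : Matrix Y I (MvPolynomial σ ℂ)) (r : ℕ) (Φ : MvPolynomial σ ℂ) (hΦ : Φ ≠ 0)
    (hg : ∀ v, eval v Φ ≠ 0 → Module.finrank ℂ (LinearMap.ker (Matrix.mulVecLin (evm M v))) = r) :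
    ∃ π : (Fin r → I) → MvPolynomial σ ℂ,
      (∀ v, Module.finrank ℂ (LinearMap.ker (Matrix.mulVecLin (evm M v))) = r →
        ∃ J, eval v (π J) ≠ 0) ∧
      (∀ v, Module.finrank ℂ (LinearMap.ker (Matrix.mulVecLin (evm M v))) = r →
        ∀ u : Fin r → I → ℂ, (∀ a, (evm M v).mulVec (u a) = 0) →
        ∃ κ : ℂ, ∀ J, Wd u J = κ * eval v (π J)) ∧
      (∀ (wt : σ → ℕ) (dY : Y → ℤ) (dI : I → ℤ), (∀ y i, HomW wt (M y i) (dY y - dI i)) →
        ∃ δ : ℤ, ∀ J, HomW wt (π J) (∑ b, dI (J b) - δ)) := by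
  classical
  obtain ⟨v₀, hv₀⟩ := exists_eval_ne hΦ
  obtain ⟨K₀, D₀, hD₀, hM₀, ⟨J₀, hJ₀⟩, hs₀, hw₀⟩ := exists_frame M r Φ hΦ hg v₀ (hg v₀ hv₀)
  have hD₀0 : D₀ ≠ 0 := by
    rintro rfl
    exact hD₀ (map_zero _)
  -- the relations
  have hker : ∀ (K : Fin r → I → MvPolynomial σ ℂ), (∀ c, M.mulVec (K c) = 0) → ∀ v a,
      (evm M v).mulVec (evv (K a) v) = 0 := by
    intro K hK v a
    funext y
    have h4 := congrArg (eval v) (congrFun (hK a) y)
    simp only [Matrix.mulVec, dotProduct, map_sum, map_mul, Pi.zero_apply, map_zero] at h4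
    simpa [Matrix.mulVec, dotProduct, evm, evv] using h4
  have hrel : ∀ (K : Fin r → I → MvPolynomial σ ℂ), (∀ c, M.mulVec (K c) = 0) → ∀ J J',
      Wd K J * Wd K₀ J' = Wd K J' * Wd K₀ J := by
    intro K hK J J'
    rw [← sub_eq_zero]
    apply eq_zero_of_dense (mul_ne_zero hΦ hD₀0)
    intro v hv
    rw [map_mul] at hv
    have h1 : ∀ a, ∃ P : Fin r → ℂ, evv (K a) v = fun i => ∑ c, P c * evv (K₀ c) v i :=
      fun a => hs₀ v (right_ne_zero_of_mul hv) (hg v (left_ne_zero_of_mul hv)) _ (hker K hK v a)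
    choose P hP using h1
    have h2 : ∀ J, eval v (Wd K J) = (Matrix.of P).det * eval v (Wd K₀ J) := by
      intro J
      rw [Wd_eval, Wd_eval, ← Wd_mul]
      congr 1
      funext a
      exact hP a
    rw [map_sub, map_mul, map_mul, h2, h2]
    ring
  have hne0 : Wd K₀ J₀ ≠ 0 := by
    rw [hJ₀]
    exact pow_ne_zero _ hD₀0
  -- the gcd
  let _ : StrongNormalizationMonoid (MvPolynomial σ ℂ) :=
    UniqueFactorizationMonoid.strongNormalizationMonoid
  let _ : StrongNormalizedGCDMonoid (MvPolynomial σ ℂ) :=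
    UniqueFactorizationMonoid.toStrongNormalizedGCDMonoid _
  obtain ⟨π, hπ1, hπ2⟩ := Finset.extract_gcd (s := (Finset.univ : Finset (Fin r → I)))
    (fun J => Wd K₀ J) ⟨J₀, Finset.mem_univ _⟩
  set d := Finset.univ.gcd (fun J : Fin r → I => Wd K₀ J) with hd
  have hdπ : ∀ J, Wd K₀ J = d * π J := fun J => hπ1 J (Finset.mem_univ _)
  have hd0 : d ≠ 0 := by
    intro h
    apply hne0
    rw [hdπ, h, zero_mul]
  have hπ0 : π J₀ ≠ 0 := by
    intro h
    apply hne0
    rw [hdπ, h, mul_zero]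
  have hF5 : ∀ (K : Fin r → I → MvPolynomial σ ℂ), (∀ c, M.mulVec (K c) = 0) → ∀ J J',
      Wd K J * π J' = Wd K J' * π J := by
    intro K hK J J'
    apply mul_left_cancel₀ hd0
    have h := hrel K hK J J'
    rw [hdπ, hdπ] at h
    linear_combination h
  have hF6 : ∀ (K : Fin r → I → MvPolynomial σ ℂ), (∀ c, M.mulVec (K c) = 0) →
      ∃ φ, ∀ J, Wd K J = φ * π J := by
    intro K hK
    have hdvd : π J₀ ∣ Wd K J₀ := by
      have h1 : π J₀ ∣ Finset.univ.gcd (fun J : Fin r → I => Wd K J₀ * π J) := by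
        apply Finset.dvd_gcd
        intro J _
        rw [hF5 K hK]
        exact dvd_mul_left _ _
      rw [Finset.gcd_mul_left, hπ2, mul_one] at h1
      exact (dvd_normalize_iff).1 h1
    obtain ⟨φ, hφ⟩ := hdvd
    refine ⟨φ, fun J => ?_⟩
    apply mul_right_cancel₀ hπ0
    rw [hF5 K hK J J₀, hφ]
    ring
  refine ⟨π, ?_, ?_, ?_⟩
  · intro v hv
    obtain ⟨K, D, hD, hM, ⟨J, hJ⟩, -, -⟩ := exists_frame M r Φ hΦ hg v hv
    obtain ⟨φ, hφ⟩ := hF6 K hM
    refine ⟨J, fun h0 => ?_⟩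
    have h1 := hφ J
    rw [hJ] at h1
    have h2 := congrArg (eval v) h1
    rw [map_mul, h0, mul_zero, map_pow] at h2
    exact pow_ne_zero _ hD h2
  · intro v hv u hu
    obtain ⟨K, D, hD, hM, -, hs, -⟩ := exists_frame M r Φ hΦ hg v hv
    obtain ⟨φ, hφ⟩ := hF6 K hM
    have h1 : ∀ a, ∃ P : Fin r → ℂ, u a = fun i => ∑ c, P c * evv (K c) v i :=
      fun a => hs v hD hv _ (hu a)
    choose P hP using h1
    refine ⟨(Matrix.of P).det * eval v φ, fun J => ?_⟩
    have h2 : Wd u J = (Matrix.of P).det * Wd (fun a => evv (K a) v) J := by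
      rw [← Wd_mul]
      congr 1
      funext a
      exact hP a
    rw [h2, ← Wd_eval, hφ, map_mul]
    ring
  · intro wt dY dI hM
    obtain ⟨ε, hε⟩ := hw₀ wt dY dI hM
    have hKh : ∀ J, HomW wt (Wd K₀ J) (∑ b, dI (J b) - ∑ c, ε c) := by
      intro J
      have h1 := HomW.det (wt := wt) (Matrix.transpose (Matrix.of fun a b => K₀ a (J b)))
        (fun b => dI (J b)) ε (fun b a => hε a (J b))
      rw [Matrix.det_transpose] at h1
      exact h1
    obtain ⟨D, hD⟩ : ∃ D : ℤ, HomW wt d D := by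
      obtain ⟨a, b, -, ha, -⟩ := HomW.of_mul (f := d) (g := π J₀)
        (by rw [← hdπ]; exact hKh J₀) (by rw [← hdπ]; exact hne0)
      exact ⟨a, ha⟩
    refine ⟨∑ c, ε c + D, fun J => ?_⟩
    by_cases h0 : π J = 0
    · rw [h0]
      exact HomW.zero _ _
    · have hne : d * π J ≠ 0 := mul_ne_zero hd0 h0
      obtain ⟨a, b, hab, ha, hb⟩ := HomW.of_mul (f := d) (g := π J)
        (by rw [← hdπ]; exact hKh J) hne
      have h1 := ha.unique hD hd0
      exact hb.cast (by linarith)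

end H932W
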