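import Pool.Agent.H932.W.Tau
import Pool.Agent.H932.W.Hyp

/-!
# Bundles on `P^4` all of whose lines have the gap one or three: the bilinear directions
-/

open MvPolynomial H960VB H960VB.Bundle2 Y208PT Pool.Agent.H106R3.VB H932V

namespace H932W

/-- the data -/
structure Q3 where
  E : Bundle2 4
  a : ℤ
  K : Plk E (-(a - 2)) 3
  P : Fin E.a → Fin E.a → MvPolynomial (Fin (4 + 1)) ℂ
  hP : ∀ i j, HomZ (P i j) (E.β i + E.β j - (2 * a - 3))
  hP0 : ∀ x : Fin (4 + 1) → ℂ, x ≠ 0 → ∃ i j, eval x (P i j) ≠ 0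
  hPw : ∀ x : Fin (4 + 1) → ℂ, x ≠ 0 → ∀ u w : Fin E.a → ℂ,
    (evm E.B x).mulVec u = 0 → (evm E.B x).mulVec w = 0 →
    ∃ κ : ℂ, ∀ i j, u i * w j - u j * w i = κ * eval x (P i j)
  hd1 : K.d1 = 0
  hd2 : K.d2 = 0
  H : Hyp E (2 * a - 3)

namespace Q3

variable (T : Q3)

/-- the two kinds of lines -/
theorem two_cases {y w : Fin (4 + 1) → ℂ} (h : LinearIndependent ℂ ![y, w]) :
    T.E.SplitsOn y w (T.a - 1) (T.a - 2) ∨ T.E.SplitsOn y w T.a (T.a - 3) := by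
  obtain ⟨p, q, hpq, hqp⟩ := exists_type T.E h
  have h1 := T.H.gap y w h p q hpq
  have h2 := T.H.hc y w h p q hpq
  push_cast at h1
  have h3 : (p = T.a - 1 ∧ q = T.a - 2) ∨ (p = T.a ∧ q = T.a - 3) := by omega
  rcases h3 with ⟨rfl, rfl⟩ | ⟨rfl, rfl⟩
  · exact Or.inl hpq
  · exact Or.inr hpq

/-- the relation between the coordinates -/
theorem rel (y w : Fin (4 + 1) → ℂ) (i1 i2 i3 k1 k2 : Fin T.E.a) :
    eval (Sum.elim y w) (PI T.K i1 i2 i3) * eval y (T.P k1 k2) =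
      eval (Sum.elim y w) (PI T.K k1 k2 i3) * eval y (T.P i1 i2) := by
  have key : PI T.K i1 i2 i3 * rename Sum.inl (T.P k1 k2) -
      PI T.K k1 k2 i3 * rename Sum.inl (T.P i1 i2) = 0 := by
    refine eq_zero_of_dense (Φ := X (Sum.inl 0) * X (Sum.inr 1) - X (Sum.inl 1) * X (Sum.inr 0))
      ?_ ?_
    · intro h0
      have h1 := congrArg (eval (Sum.elim (Pi.single 0 1) (Pi.single 1 1) : V2 4 → ℂ)) h0
      simp at h1
    · intro v hv
      have hli : LinearIndependent ℂ ![v ∘ Sum.inl, v ∘ Sum.inr] := by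
        refine li_of_minor (i := 0) (k := 1) ?_
        simpa using hv
      have hz10 : (![1, 0] : Fin 2 → ℂ) ≠ 0 := by
        intro h
        have := congrFun h 0
        simp at this
      rw [map_sub, map_mul, map_mul, eval_rename, eval_rename]
      rw [← elim_self v]
      rcases T.two_cases hli with h | h
      · obtain ⟨g₁, g₂, hg₁, hg₂, hl⟩ := h
        obtain ⟨c, -, hc⟩ := gap1 T.K T.hP0 T.hPw hli ⟨hg₁, fun z hz => (hl z hz).1⟩
          ⟨hg₂, fun z hz => (hl z hz).2.1⟩ (fun z hz => (hl z hz).2.2)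
        rw [hc, hc]
        simp only [Sum.elim_comp_inl]
        ring
      · obtain ⟨g₁, g₂, hg₁, hg₂, hl⟩ := h
        have h1 := fun i1 i2 i3 => gap3 T.K hli ⟨hg₁, fun z hz => (hl z hz).1⟩
          ((hl _ hz10).2.2.ne_zero 0) i1 i2 i3
        rw [h1, h1]
        ring
  have h1 := congrArg (eval (Sum.elim y w)) key
  rw [map_sub, map_mul, map_mul, eval_rename, eval_rename, map_zero, sub_eq_zero] at h1
  simpa using h1

/-- substitution of the second point -/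
noncomputable def subw (w : Fin (4 + 1) → ℂ) :
    MvPolynomial (V2 4) ℂ →ₐ[ℂ] MvPolynomial (Fin (4 + 1)) ℂ :=
  aeval (Sum.elim X (fun i => C (w i)))

theorem eval_subw (y w : Fin (4 + 1) → ℂ) (p : MvPolynomial (V2 4) ℂ) :
    eval y (subw w p) = eval (Sum.elim y w) p := by
  unfold subw
  rw [eval_aeval_mv]
  congr 1
  congr 1
  funext i
  rcases i with i | i <;> simp

/-- substitution of the first point -/
noncomputable def suby (y : Fin (4 + 1) → ℂ) :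
    MvPolynomial (V2 4) ℂ →ₐ[ℂ] MvPolynomial (Fin (4 + 1)) ℂ :=
  aeval (Sum.elim (fun i => C (y i)) X)

theorem eval_suby (y w : Fin (4 + 1) → ℂ) (p : MvPolynomial (V2 4) ℂ) :
    eval w (suby y p) = eval (Sum.elim y w) p := by
  unfold suby
  rw [eval_aeval_mv]
  congr 1
  congr 1
  funext i
  rcases i with i | i <;> simp

theorem homZ_subw (w : Fin (4 + 1) → ℂ) (i1 i2 i3 : Fin T.E.a) :
    HomZ (subw w (PI T.K i1 i2 i3))
      (T.E.β i1 + T.E.β i2 - (3 * (T.a - 2) + 1 - T.E.β i3)) := by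
  apply homZ_of_scale
  intro t ht y
  rw [eval_subw, eval_subw]
  have h1 := (PI_homY T.K i1 i2 i3).eval t (Sum.elim y w)
  rw [wtY_act] at h1
  refine Eq.trans h1 ?_
  rw [T.hd1]
  congr 2
  ring

theorem homZ_suby (y : Fin (4 + 1) → ℂ) (i1 i2 i3 : Fin T.E.a) :
    HomZ (suby y (PI T.K i1 i2 i3)) 1 := by
  apply homZ_of_scale
  intro t ht w
  rw [eval_suby, eval_suby]
  have h1 := (PI_homW T.K i1 i2 i3).eval t (Sum.elim y w)
  rw [wtW_act, T.hd2, sub_zero] at h1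
  exact h1

theorem PI_add (y w w' : Fin (4 + 1) → ℂ) (i1 i2 i3 : Fin T.E.a) :
    eval (Sum.elim y (w + w')) (PI T.K i1 i2 i3) =
      eval (Sum.elim y w) (PI T.K i1 i2 i3) + eval (Sum.elim y w') (PI T.K i1 i2 i3) := by
  rw [← eval_suby, ← eval_suby, ← eval_suby]
  exact eval_add_of_hom1 (T.homZ_suby y i1 i2 i3) w w'

theorem PI_smul (y w : Fin (4 + 1) → ℂ) (t : ℂ) (i1 i2 i3 : Fin T.E.a) :
    eval (Sum.elim y (t • w)) (PI T.K i1 i2 i3) =
      t * eval (Sum.elim y w) (PI T.K i1 i2 i3) := by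
  by_cases ht : t = 0
  · subst ht
    have h1 := T.PI_add y 0 0 i1 i2 i3
    rw [add_zero] at h1
    rw [zero_smul, zero_mul]
    exact left_eq_add.1 h1
  · have h1 := (PI_homW T.K i1 i2 i3).eval t (Sum.elim y w)
    rw [wtW_act, T.hd2, sub_zero, zpow_one] at h1
    exact h1

theorem inj_P (y : Fin (4 + 1) → ℂ) (hy : y ≠ 0) (g : Fin 1 → ℂ)
    (h : (evm (fun (x : Fin T.E.a × Fin T.E.a) (_ : Fin 1) => T.P x.1 x.2) y).mulVec g = 0) :
    g = 0 := by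
  obtain ⟨i, k, hik⟩ := T.hP0 y hy
  have h1 := congrFun h (i, k)
  simp only [Matrix.mulVec, dotProduct, Fin.sum_univ_one, Pi.zero_apply] at h1
  have h2 := (mul_eq_zero.1 h1).resolve_left hik
  ext l
  fin_cases l
  exact h2

theorem exists_tau (w : Fin (4 + 1) → ℂ) (i3 : Fin T.E.a) :
    ∃ t : MvPolynomial (Fin (4 + 1)) ℂ, HomZ t (T.E.β i3 - T.a + 2) ∧
      ∀ i1 i2, subw w (PI T.K i1 i2 i3) = T.P i1 i2 * t := by
  obtain ⟨g, hg⟩ := hartogs (by norm_num : 2 ≤ 4 + 1)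
    (fun (x : Fin T.E.a × Fin T.E.a) (_ : Fin 1) => T.P x.1 x.2)
    (fun x => subw w (PI T.K x.1 x.2 i3)) T.inj_P (by
      intro y hy
      obtain ⟨k1, k2, hk⟩ := T.hP0 y hy
      refine ⟨fun _ => eval (Sum.elim y w) (PI T.K k1 k2 i3) / eval y (T.P k1 k2), ?_⟩
      funext x
      simp only [Matrix.mulVec, dotProduct, Fin.sum_univ_one]
      change eval y (T.P x.1 x.2) * _ = eval y (subw w (PI T.K x.1 x.2 i3))
      rw [eval_subw]
      have h1 := T.rel y w x.1 x.2 i3 k1 k2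
      field_simp
      linear_combination -h1)
  have h1 := hartogs_hom (by norm_num : 1 ≤ 4 + 1)
    (fun (x : Fin T.E.a × Fin T.E.a) (_ : Fin 1) => T.P x.1 x.2)
    (fun x => subw w (PI T.K x.1 x.2 i3)) (fun x => T.E.β x.1 + T.E.β x.2)
    (fun _ => 2 * T.a - 3) (3 * (T.a - 2) + 1 - T.E.β i3) (fun x _ => T.hP x.1 x.2)
    (fun x => T.homZ_subw w x.1 x.2 i3) T.inj_P g hg 0
  refine ⟨g 0, L2.HomZ_cast h1 (by ring), fun i1 i2 => ?_⟩
  have h2 := congrFun hg (i1, i2)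
  simp only [Matrix.mulVec, dotProduct, Fin.sum_univ_one] at h2
  exact h2.symm

noncomputable def tp (w : Fin (4 + 1) → ℂ) (i : Fin T.E.a) : MvPolynomial (Fin (4 + 1)) ℂ :=
  (T.exists_tau w i).choose

theorem tp_hom (w : Fin (4 + 1) → ℂ) (i : Fin T.E.a) : HomZ (T.tp w i) (T.E.β i - T.a + 2) :=
  (T.exists_tau w i).choose_spec.1

/-- the direction -/
noncomputable def tau (y w : Fin (4 + 1) → ℂ) : Fin T.E.a → ℂ := fun i => eval y (T.tp w i)

theorem tau_spec (y w : Fin (4 + 1) → ℂ) (i1 i2 i3 : Fin T.E.a) :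
    eval (Sum.elim y w) (PI T.K i1 i2 i3) = eval y (T.P i1 i2) * T.tau y w i3 := by
  rw [← eval_subw, (T.exists_tau w i3).choose_spec.2 i1 i2, map_mul]
  rfl

theorem tau_add {y : Fin (4 + 1) → ℂ} (hy : y ≠ 0) (w w' : Fin (4 + 1) → ℂ) :
    T.tau y (w + w') = T.tau y w + T.tau y w' := by
  obtain ⟨k1, k2, hk⟩ := T.hP0 y hy
  ext i
  apply mul_left_cancel₀ hk
  rw [← tau_spec, T.PI_add, T.tau_spec, T.tau_spec, Pi.add_apply]
  ring

theorem tau_smul {y : Fin (4 + 1) → ℂ} (hy : y ≠ 0) (t : ℂ) (w : Fin (4 + 1) → ℂ) :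
    T.tau y (t • w) = t • T.tau y w := by
  obtain ⟨k1, k2, hk⟩ := T.hP0 y hy
  ext i
  apply mul_left_cancel₀ hk
  rw [← tau_spec, T.PI_smul, T.tau_spec, Pi.smul_apply, smul_eq_mul]
  ring

theorem tau_gap1 {y w : Fin (4 + 1) → ℂ} (h : LinearIndependent ℂ ![y, w])
    {g₁ g₂ : Fin T.E.a → MvPolynomial (Fin 2) ℂ} (hg₁ : LineSec T.E y w (T.a - 1) g₁)
    (hg₂ : LineSec T.E y w (T.a - 2) g₂)
    (hli : ∀ z : Fin 2 → ℂ, z ≠ 0 → LinearIndependent ℂ ![evv g₁ z, evv g₂ z]) :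
    ∃ c : ℂ, c ≠ 0 ∧ T.tau y w = c • evv g₁ ![1, 0] := by
  obtain ⟨c, hc, h1⟩ := gap1 T.K T.hP0 T.hPw h hg₁ hg₂ hli
  refine ⟨c, hc, ?_⟩
  obtain ⟨k1, k2, hk⟩ := T.hP0 y (h.ne_zero 0)
  ext i
  apply mul_left_cancel₀ hk
  rw [← tau_spec, h1, Pi.smul_apply, smul_eq_mul]

theorem tau_gap3 {y w : Fin (4 + 1) → ℂ} (h : LinearIndependent ℂ ![y, w])
    {g : Fin T.E.a → MvPolynomial (Fin 2) ℂ} (hg : LineSec T.E y w T.a g)
    (hg0 : evv g ![1, 0] ≠ 0) : T.tau y w = 0 := by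
  obtain ⟨k1, k2, hk⟩ := T.hP0 y (h.ne_zero 0)
  ext i
  apply mul_left_cancel₀ hk
  rw [← tau_spec, gap3 T.K h hg hg0, Pi.zero_apply, mul_zero]

end Q3

end H932W
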