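import Pool.Agent.H932.W.Hyp

/-!
# The number of the splitting types on the lines through a point
-/

open MvPolynomial H960VB H960VB.Bundle2 Y208PT Pool.Agent.H106R3.VB H932V

namespace H932W

variable {n : ℕ}

theorem lv_mono {E : Bundle2 n} {P Q : Fin (n + 1) → ℂ} {ε : Fin E.a → ℂ} {k l : ℕ} (hkl : k ≤ l)
    (h : Lv E P Q ε l) : Lv E P Q ε k := by
  rcases Nat.eq_or_lt_of_le hkl with rfl | hlt
  · exact h
  · obtain ⟨a, b, hab, hba, h⟩ := h
    refine ⟨a, b, hab, hba, Or.inl ?_⟩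
    rcases h with h | ⟨h, -⟩ <;> omega

/-- the levels which belong to the gaps in `S` -/
def lvs (S : Finset ℕ) : Finset ℕ := S ∪ (S.filter (0 < ·)).image (· - 1)

theorem card_lvs (S : Finset ℕ) : (lvs S).card ≤ 2 * S.card := by
  unfold lvs
  refine (Finset.card_union_le _ _).trans ?_
  have h1 : ((S.filter (0 < ·)).image (· - 1)).card ≤ S.card :=
    Finset.card_image_le.trans (Finset.card_filter_le _ _)
  omega

theorem card_lvs_zero {S : Finset ℕ} (h0 : 0 ∈ S) : (lvs S).card + 1 ≤ 2 * S.card := by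
  unfold lvs
  have h2 : (S.filter (0 < ·)).card + 1 ≤ S.card := by
    have h3 : S.filter (0 < ·) ⊆ S.erase 0 := by
      intro x hx
      rw [Finset.mem_filter] at hx
      exact Finset.mem_erase.2 ⟨by omega, hx.1⟩
    have h4 := Finset.card_le_card h3
    have h5 := Finset.card_erase_add_one h0
    omega
  have h1 : ((S.filter (0 < ·)).image (· - 1)).card ≤ (S.filter (0 < ·)).card :=
    Finset.card_image_le
  have h6 := Finset.card_union_le S ((S.filter (0 < ·)).image (· - 1))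
  omega

theorem lv_mem {E : Bundle2 n} {P Q : Fin (n + 1) → ℂ} {ε : Fin E.a → ℂ} {k : ℕ} {S : Finset ℕ}
    (hS : ∀ a b : ℤ, E.SplitsOn P Q a b → (a - b).natAbs ∈ S) (h : Lv E P Q ε k) :
    ∃ v ∈ lvs S, k ≤ v ∧ Lv E P Q ε v := by
  obtain ⟨a, b, hab, hba, h⟩ := h
  have h1 := hS a b hab
  rcases h with h | h
  · refine ⟨(a - b).natAbs - 1, ?_, by omega, a, b, hab, hba, Or.inl (by omega)⟩
    unfold lvs
    rw [Finset.mem_union, Finset.mem_image]
    right
    exact ⟨_, Finset.mem_filter.2 ⟨h1, by omega⟩, rfl⟩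
  · have h2 : (a - b).natAbs = k := by omega
    rw [h2] at h1
    exact ⟨k, Finset.mem_union_left _ h1, le_rfl, a, b, hab, hba, Or.inr h⟩

/-- the inductive statement -/
theorem types_aux (E : Bundle2 n) (hE : ¬ E.Splits) (c₁ : ℤ)
    (hc : ∀ A B : Fin (n + 1) → ℂ, LinearIndependent ℂ ![A, B] →
      ∀ a b : ℤ, E.SplitsOn A B a b → a + b = c₁)
    (P : Fin (n + 1) → ℂ) (hP : P ≠ 0) (ε : Fin E.a → ℂ) (hε : ε ∈ E.fib P) (hε0 : ε ≠ 0)
    (S : Finset ℕ) : ∀ j : ℕ, ∀ Λ : Submodule ℂ (Fin (n + 1) → ℂ), P ∈ Λ →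
      Module.finrank ℂ Λ = j + 2 →
      (∀ Q ∈ Λ, LinearIndependent ℂ ![P, Q] → ∀ a b : ℤ, E.SplitsOn P Q a b →
        (a - b).natAbs ∈ S) →
      ∃ Q ∈ Λ, LinearIndependent ℂ ![P, Q] ∧ ∃ v ∈ lvs S, j ≤ ((lvs S).filter (· < v)).card ∧
        Lv E P Q ε v := by
  classical
  intro j
  induction j with
  | zero =>
    intro Λ hPΛ hΛ hS
    obtain ⟨Q, hQ, hPQ⟩ := exists_li_of_finrank (M := Λ) (by omega) hP
    obtain ⟨v, hv, -, hv2⟩ := lv_mem (hS Q hQ hPQ) (lv_zero E hPQ ε)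
    exact ⟨Q, hQ, hPQ, v, hv, Nat.zero_le _, hv2⟩
  | succ j ih =>
    intro Λ hPΛ hΛ hS
    obtain ⟨Q, hQ, hQi⟩ := exists_lines Λ hPΛ hP (by omega)
      (fun Q => ∃ v ∈ lvs S, j ≤ ((lvs S).filter (· < v)).card ∧ Lv E P Q ε v) (by
        intro M hM hPM hMf
        exact ih M hPM (by omega) (fun Q hQ hPQ => hS Q (hM hQ) hPQ))
    let V := (lvs S).filter (fun v => j ≤ ((lvs S).filter (· < v)).card)
    have hV : V.Nonempty := by
      obtain ⟨-, -, v, hv, hv1, -⟩ := hQ 0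
      exact ⟨v, Finset.mem_filter.2 ⟨hv, hv1⟩⟩
    have hmem := V.min'_mem hV
    have hmin := Finset.mem_filter.1 hmem
    obtain ⟨R, hR, hPR, hR1⟩ := step E hE c₁ hc P hP ε hε hε0 (V.min' hV) Λ hPΛ (by omega) Q
      (fun i => by
        obtain ⟨h1, h2, v, hv, hv1, hv2⟩ := hQ i
        exact ⟨h1, h2, lv_mono (V.min'_le v (Finset.mem_filter.2 ⟨hv, hv1⟩)) hv2⟩) hQi
    obtain ⟨v, hv, hlt, hv2⟩ := lv_mem (hS R hR hPR) hR1
    refine ⟨R, hR, hPR, v, hv, ?_, hv2⟩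
    have h1 : insert (V.min' hV) ((lvs S).filter (· < V.min' hV)) ⊆ (lvs S).filter (· < v) := by
      intro x hx
      rcases Finset.mem_insert.1 hx with rfl | hx
      · exact Finset.mem_filter.2 ⟨hmin.1, by omega⟩
      · obtain ⟨h1, h2⟩ := Finset.mem_filter.1 hx
        exact Finset.mem_filter.2 ⟨h1, by omega⟩
    have h2 := Finset.card_le_card h1
    have h4 : V.min' hV ∉ (lvs S).filter (· < V.min' hV) := by
      intro h
      have h5 : V.min' hV < V.min' hV := (Finset.mem_filter.1 h).2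
      exact lt_irrefl _ h5
    rw [Finset.card_insert_of_notMem h4] at h2
    have h3 := hmin.2
    omega

/-- **The number of the splitting types through a point.** -/
theorem types (E : Bundle2 n) (hE : ¬ E.Splits) (m : ℕ) (hm : 1 ≤ m)
    (Λ : Submodule ℂ (Fin (n + 1) → ℂ)) (hΛ : Module.finrank ℂ Λ = m + 1)
    (P : Fin (n + 1) → ℂ) (hPΛ : P ∈ Λ) (hP : P ≠ 0) (S : Finset ℕ)
    (hS : ∀ Q ∈ Λ, LinearIndependent ℂ ![P, Q] → ∀ a b : ℤ, E.SplitsOn P Q a b →
      (a - b).natAbs ∈ S) : m ≤ (lvs S).card := by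
  obtain ⟨ε, hε, hε0⟩ := exists_fib E hP
  have hn : 1 ≤ n := by
    have := Submodule.finrank_le Λ
    simp at this
    omega
  obtain ⟨c₁, hc⟩ := exists_chern hn E
  obtain ⟨Q, hQ, hPQ, v, hv, hv1, -⟩ := types_aux E hE c₁ hc P hP ε hε hε0 S (m - 1) Λ hPΛ
    (by omega) hS
  have h1 : ((lvs S).filter (· < v)).card < (lvs S).card := by
    apply Finset.card_lt_card
    rw [Finset.ssubset_iff_of_subset (Finset.filter_subset _ _)]
    exact ⟨v, hv, by simp⟩
  omega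

end H932W
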